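import Pool.Agent.Lib.MP_b1c185_co.Model

/-!
The bound of Marcus and Tardos and of Klazar and Marcus for interval minors: `m(n, P, d) = O(n^(d-1))`.
-/

namespace Pool.Agent.Lib.MPb1c185

/-- The full `k × ⋯ × k` grid can be found in `A`. -/
def GridEmb {d : ℕ} (k : ℕ) (A : Finset (Fin d → ℤ)) : Prop :=
  ∃ e : (Fin d → Fin k) → (Fin d → ℤ), (∀ p, e p ∈ A) ∧ ∀ p q l, p l < q l → e p l < e q l

theorem grid_gap {d k : ℕ} {e : (Fin d → Fin k) → (Fin d → ℤ)}
    (h : ∀ p q l, p l < q l → e p l < e q l) (l : Fin d) :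
    ∀ (t : ℕ) (p q : Fin d → Fin k), (p l : ℕ) + (t + 1) = q l → e p l + (t + 1) ≤ e q l := by
  intro t
  induction t with
  | zero =>
    intro p q hpq
    have : p l < q l := by
      rw [Fin.lt_def]
      omega
    have := h p q l this
    push_cast
    omega
  | succ t ih =>
    intro p q hpq
    let r : Fin d → Fin k := Function.update q l ⟨(q l : ℕ) - 1, by have := (q l).2; omega⟩
    have hr : (r l : ℕ) = q l - 1 := by simp [r]
    have h1 := ih p r (by rw [hr]; omega)
    have h2 := h r q l (by rw [Fin.lt_def, hr]; omega)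
    push_cast at h1 ⊢
    omega

theorem GridEmb.emb {d k : ℕ} {Q A : Finset (Fin d → ℤ)} (h : GridEmb k A)
    (hQ : Fits Q (fun _ => k)) (hne : Q.Nonempty) : Emb Q A := by
  classical
  obtain ⟨e, h1, h2⟩ := h
  obtain ⟨a, ha⟩ := hQ
  have hinv : ∀ q ∈ Q, ∃ p : Fin d → Fin k, ∀ l, ((p l : ℕ) : ℤ) = q l - a l := by
    intro q hq
    refine ⟨fun l => ⟨(q l - a l).toNat, ?_⟩, fun l => ?_⟩
    · have h1 : a l ≤ q l := (ha q hq l).1
      have h2 : q l < a l + (k : ℤ) := (ha q hq l).2
      omega
    · have := ha q hq l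
      simp only
      omega
  obtain ⟨q0, hq0⟩ := hne
  obtain ⟨p0, -⟩ := hinv q0 hq0
  have : Nonempty (Fin d → Fin k) := ⟨p0⟩
  choose! g hg using hinv
  refine ⟨fun q => e (g q), fun q _ => h1 _, fun p hp q hq l hlt => ?_⟩
  have e1 := hg p hp l
  have e2 := hg q hq l
  have := grid_gap h2 l ((q l - p l).toNat - 1) (g p) (g q) (by omega)
  simp only
  omega

theorem grid_bound_zero (k : ℕ) (A : Finset (Fin 1 → ℤ)) (h : ¬ GridEmb k A) : A.card ≤ k := by
  classical
  by_contra hcon
  apply h
  let B : Finset ℤ := A.image (fun x => x 0)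
  have hB : k ≤ B.card := by
    have : B.card = A.card := by
      apply Finset.card_image_of_injOn
      intro x _ y _ hxy
      funext i
      have : i = 0 := Subsingleton.elim _ _
      subst this
      exact hxy
    omega
  obtain ⟨K, hKB, hK⟩ := Finset.exists_subset_card_eq hB
  let f := K.orderEmbOfFin hK
  refine ⟨fun p _ => f (p 0), fun p => ?_, fun p q l hlt => ?_⟩
  · have : f (p 0) ∈ B := hKB (Finset.orderEmbOfFin_mem K hK (p 0))
    rw [Finset.mem_image] at this
    obtain ⟨x, hx, hx0⟩ := this
    have : x = fun _ => f (p 0) := by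
      funext i
      have : i = 0 := Subsingleton.elim _ _
      subst this
      exact hx0
    show (fun _ => f (p 0)) ∈ A
    rw [← this]
    exact hx
  · have : l = 0 := Subsingleton.elim _ _
    subst this
    exact f.strictMono hlt

theorem grid_step {d k s n Cn Fn : ℕ} (hs : 0 < s)
    (hlow : ∀ W : Finset (Fin (d + 1) → ℤ), Fits W (fun _ => n) → ¬ GridEmb k W → W.card ≤ Cn)
    (hF : ∀ W : Finset (Fin (d + 2) → ℤ), Fits W (fun _ => n) → ¬ GridEmb k W → W.card ≤ Fn)
    (A : Finset (Fin (d + 2) → ℤ)) (hA : Fits A (fun _ => s * n)) (h : ¬ GridEmb k A) :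
    A.card ≤ k ^ (d + 2) * Fn + s ^ (d + 2) * ((d + 2) * (Cn * (n * 2 ^ s))) := by
  classical
  obtain ⟨a, ha⟩ := hA
  have hsZ : (0 : ℤ) < s := by exact_mod_cast hs
  let bl : (Fin (d + 2) → ℤ) → (Fin (d + 2) → ℤ) := fun x l => (x l - a l) / s
  let A' := A.image bl
  have hbl : ∀ x l, x l - a l = s * bl x l + (x l - a l) % s := by
    intro x l
    exact (Int.mul_ediv_add_emod (x l - a l) s).symm
  have hmod0 : ∀ (x : Fin (d + 2) → ℤ) l, 0 ≤ (x l - a l) % s := fun x l =>
    Int.emod_nonneg _ hsZ.ne'
  have hmod1 : ∀ (x : Fin (d + 2) → ℤ) l, (x l - a l) % s < s := fun x l =>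
    Int.emod_lt_of_pos _ hsZ
  have hblock_lt : ∀ x y l, bl x l < bl y l → x l < y l := by
    intro x y l hlt
    have h1 := hbl x l
    have h2 := hbl y l
    have h3 := hmod0 y l
    have h4 := hmod1 x l
    have h5 : (s : ℤ) * (bl x l + 1) ≤ s * bl y l := by
      apply mul_le_mul_of_nonneg_left _ hsZ.le
      omega
    have h6 : (s : ℤ) * (bl x l + 1) = s * bl x l + s := by ring
    omega
  have hfitA' : Fits A' (fun _ => n) := by
    refine ⟨0, fun b hb l => ?_⟩
    obtain ⟨x, hx, rfl⟩ := Finset.mem_image.1 hb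
    have := ha x hx l
    simp only [Pi.zero_apply, zero_add]
    constructor
    · apply Int.ediv_nonneg _ hsZ.le
      omega
    · apply Int.ediv_lt_of_lt_mul hsZ
      have h1 := this.2
      push_cast at h1
      have : (n : ℤ) * s = s * n := by ring
      omega
  have hA'grid : ¬ GridEmb k A' := by
    rintro ⟨e, h1, h2⟩
    apply h
    have key : ∀ p, ∃ x ∈ A, bl x = e p := fun p => Finset.mem_image.1 (h1 p)
    choose f hfA hf using key
    refine ⟨f, hfA, fun p q l hlt => ?_⟩
    apply hblock_lt
    rw [hf, hf]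
    exact h2 p q l hlt
  let fib : (Fin (d + 2) → ℤ) → Finset (Fin (d + 2) → ℤ) := fun b => A.filter (fun x => bl x = b)
  let res : Fin (d + 2) → (Fin (d + 2) → ℤ) → Finset ℤ := fun l b =>
    (fib b).image (fun x => (x l - a l) % s)
  let proj : Fin (d + 2) → (Fin (d + 2) → ℤ) → Finset ℤ := fun l b =>
    (fib b).image (fun x => x l)
  have hproj : ∀ l b, (proj l b).card ≤ (res l b).card := by
    intro l b
    have : proj l b ⊆ (res l b).image (fun v => v + s * b l + a l) := by
      intro v hv
      obtain ⟨x, hx, rfl⟩ := Finset.mem_image.1 hv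
      refine Finset.mem_image.2 ⟨(x l - a l) % s, Finset.mem_image.2 ⟨x, hx, rfl⟩, ?_⟩
      have hxb : bl x = b := (Finset.mem_filter.1 hx).2
      have := hbl x l
      rw [hxb] at this
      omega
    exact (Finset.card_le_card this).trans Finset.card_image_le
  let wide : Fin (d + 2) → Finset (Fin (d + 2) → ℤ) := fun l =>
    A'.filter (fun b => k ≤ (res l b).card)
  have hressub : ∀ l b, res l b ⊆ Finset.Ico 0 (s : ℤ) := by
    intro l b v hv
    obtain ⟨x, hx, rfl⟩ := Finset.mem_image.1 hv
    rw [Finset.mem_Ico]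
    exact ⟨hmod0 x l, hmod1 x l⟩
  -- bound for wide blocks
  have hwide : ∀ l, (wide l).card ≤ Cn * (n * 2 ^ s) := by
    intro l
    have hK : ∀ b, ∃ K : Finset ℤ, b ∈ wide l → K ⊆ res l b ∧ K.card = k := by
      intro b
      by_cases hb : b ∈ wide l
      · obtain ⟨K, h1, h2⟩ := Finset.exists_subset_card_eq (Finset.mem_filter.1 hb).2
        exact ⟨K, fun _ => ⟨h1, h2⟩⟩
      · exact ⟨∅, fun h => absurd h hb⟩
    choose Kf hKf using hK
    let t : Finset (ℤ × Finset ℤ) := Finset.Ico 0 (n : ℤ) ×ˢ (Finset.Ico 0 (s : ℤ)).powerset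
    have ht : t.card = n * 2 ^ s := by
      simp [t, Finset.card_product, Finset.card_powerset]
    rw [← ht]
    refine Finset.card_le_mul_card_image_of_maps_to (f := fun b => (b l, Kf b)) ?_ _ ?_
    · intro b hb
      rw [Finset.mem_product]
      have hbA' : b ∈ A' := (Finset.mem_filter.1 hb).1
      constructor
      · rw [Finset.mem_Ico]
        obtain ⟨x, hx, rfl⟩ := Finset.mem_image.1 hbA'
        have := ha x hx l
        constructor
        · apply Int.ediv_nonneg _ hsZ.le
          omega
        · apply Int.ediv_lt_of_lt_mul hsZ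
          have h1 := this.2
          push_cast at h1
          have : (n : ℤ) * s = s * n := by ring
          omega
      · rw [Finset.mem_powerset]
        exact ((hKf b hb).1).trans (hressub l b)
    · rintro ⟨c, K⟩ -
      let W := (wide l).filter (fun b => (fun b => (b l, Kf b)) b = (c, K))
      show W.card ≤ Cn
      have hW : ∀ b ∈ W, b ∈ wide l ∧ b l = c ∧ Kf b = K := by
        intro b hb
        have := Finset.mem_filter.1 hb
        refine ⟨this.1, ?_, ?_⟩
        · exact congrArg Prod.fst this.2
        · exact congrArg Prod.snd this.2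
      let W' : Finset (Fin (d + 1) → ℤ) := W.image (fun b i => b (l.succAbove i))
      have hcard : W'.card = W.card := by
        apply Finset.card_image_of_injOn
        intro b hb b' hb' hbb
        have h1 := (hW b hb).2.1
        have h2 := (hW b' hb').2.1
        funext j
        rcases Fin.eq_self_or_eq_succAbove l j with hj | ⟨i, hj⟩
        · rw [hj, h1, h2]
        · rw [hj]
          exact congrFun hbb i
      rw [← hcard]
      apply hlow
      · refine ⟨0, fun w hw i => ?_⟩
        obtain ⟨b, hb, rfl⟩ := Finset.mem_image.1 hw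
        have hbA' : b ∈ A' := (Finset.mem_filter.1 (hW b hb).1).1
        obtain ⟨x, hx, rfl⟩ := Finset.mem_image.1 hbA'
        have := ha x hx (l.succAbove i)
        simp only [Pi.zero_apply, zero_add]
        constructor
        · apply Int.ediv_nonneg _ hsZ.le
          omega
        · apply Int.ediv_lt_of_lt_mul hsZ
          have h1 := this.2
          push_cast at h1
          have : (n : ℤ) * s = s * n := by ring
          omega
      · rintro ⟨e, h1, h2⟩
        apply h
        have key : ∀ p, ∃ b ∈ W, (fun i => b (l.succAbove i)) = e p := fun p =>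
          Finset.mem_image.1 (h1 p)
        choose bf hbW hbf using key
        by_cases hk0 : k = 0
        · -- the grid is empty
          subst hk0
          exact ⟨fun p => (Fin.elim0 (p l)), fun p => (Fin.elim0 (p l)),
            fun p => (Fin.elim0 (p l))⟩
        have hKcard : K.card = k := by
          have h3 := hW _ (hbW (fun _ => ⟨0, Nat.pos_of_ne_zero hk0⟩))
          rw [← h3.2.2]
          exact (hKf _ h3.1).2
        let f := K.orderEmbOfFin hKcard
        have key2 : ∀ p : Fin (d + 2) → Fin k, ∃ x ∈ A,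
            bl x = bf (fun i => p (l.succAbove i)) ∧ (x l - a l) % s = f (p l) := by
          intro p
          have h3 := hW _ (hbW (fun i => p (l.succAbove i)))
          have h4 : f (p l) ∈ res l (bf (fun i => p (l.succAbove i))) := by
            apply (hKf _ h3.1).1
            rw [h3.2.2]
            exact Finset.orderEmbOfFin_mem K hKcard (p l)
          obtain ⟨x, hx, hx2⟩ := Finset.mem_image.1 h4
          exact ⟨x, (Finset.mem_filter.1 hx).1, (Finset.mem_filter.1 hx).2, hx2⟩
        choose g hgA hg1 hg2 using key2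
        refine ⟨g, hgA, fun p q j hlt => ?_⟩
        rcases Fin.eq_self_or_eq_succAbove l j with hj | ⟨i, hj⟩
        · rw [hj] at hlt ⊢
          have h3 := hbl (g p) l
          have h4 := hbl (g q) l
          rw [hg1, hg2, (hW _ (hbW _)).2.1] at h3
          rw [hg1, hg2, (hW _ (hbW _)).2.1] at h4
          have h5 := f.strictMono hlt
          omega
        · apply hblock_lt
          rw [hg1, hg1]
          have h3 := congrFun (hbf (fun i => p (l.succAbove i))) i
          have h4 := congrFun (hbf (fun i => q (l.succAbove i))) i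
          have h5 := h2 (fun i => p (l.succAbove i)) (fun i => q (l.succAbove i)) i
            (by rw [hj] at hlt; exact hlt)
          rw [← h3, ← h4] at h5
          rw [hj]
          exact h5
  -- fibres
  have hfib_wide : ∀ b, (fib b).card ≤ s ^ (d + 2) := by
    intro b
    have hsub : fib b ⊆ Fintype.piFinset
        (fun l => Finset.Ico (s * b l + a l) (s * b l + a l + s)) := by
      intro x hx
      rw [Fintype.mem_piFinset]
      intro l
      rw [Finset.mem_Ico]
      have hxb : bl x = b := (Finset.mem_filter.1 hx).2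
      have h1 := hbl x l
      have h2 := hmod0 x l
      have h3 := hmod1 x l
      rw [hxb] at h1
      omega
    refine (Finset.card_le_card hsub).trans ?_
    rw [Fintype.card_piFinset]
    simp
  have hfib_narrow : ∀ b, (∀ l, (res l b).card ≤ k) → (fib b).card ≤ k ^ (d + 2) := by
    intro b hb
    have hsub : fib b ⊆ Fintype.piFinset (fun l => proj l b) := by
      intro x hx
      rw [Fintype.mem_piFinset]
      intro l
      exact Finset.mem_image.2 ⟨x, hx, rfl⟩
    refine (Finset.card_le_card hsub).trans ?_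
    rw [Fintype.card_piFinset]
    refine (Finset.prod_le_prod' (g := fun _ => k) (fun l _ => (hproj l b).trans (hb l))).trans ?_
    simp
  -- conclusion
  have hsum : A.card = ∑ b ∈ A', (fib b).card := Finset.card_eq_sum_card_image bl A
  let WW := A'.filter (fun b => ∃ l, k ≤ (res l b).card)
  have hWW : WW.card ≤ (d + 2) * (Cn * (n * 2 ^ s)) := by
    have hsub : WW ⊆ Finset.univ.biUnion wide := by
      intro b hb
      obtain ⟨hbA', l, hl⟩ := Finset.mem_filter.1 hb
      exact Finset.mem_biUnion.2 ⟨l, Finset.mem_univ _, Finset.mem_filter.2 ⟨hbA', hl⟩⟩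
    refine (Finset.card_le_card hsub).trans (Finset.card_biUnion_le.trans ?_)
    refine (Finset.sum_le_sum (fun l _ => hwide l)).trans ?_
    simp
  have hsplit := Finset.sum_filter_add_sum_filter_not A' (fun b => ∃ l, k ≤ (res l b).card)
    (fun b => (fib b).card)
  rw [hsum, ← hsplit, add_comm]
  apply Nat.add_le_add
  · refine (Finset.sum_le_card_nsmul _ _ (k ^ (d + 2)) ?_).trans ?_
    · intro b hb
      apply hfib_narrow
      intro l
      have := (Finset.mem_filter.1 hb).2
      push Not at this
      exact (this l).le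
    · rw [smul_eq_mul, mul_comm]
      apply Nat.mul_le_mul_left
      exact (Finset.card_le_card (Finset.filter_subset _ _)).trans (hF A' hfitA' hA'grid)
  · refine (Finset.sum_le_card_nsmul _ _ (s ^ (d + 2)) (fun b _ => hfib_wide b)).trans ?_
    rw [smul_eq_mul, mul_comm]
    exact Nat.mul_le_mul_left _ hWW

theorem grid_bound (k d : ℕ) : ∃ C : ℕ, ∀ n, ∀ A : Finset (Fin (d + 1) → ℤ),
    Fits A (fun _ => n) → ¬ GridEmb k A → A.card ≤ C * n ^ d := by
  induction d with
  | zero =>
    refine ⟨k, fun n A _ h => ?_⟩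
    simpa using grid_bound_zero k A h
  | succ d ih =>
    obtain ⟨C, hC⟩ := ih
    set s := (k + 2) ^ 2 with hs
    have hs4 : 2 ≤ s := by
      rw [hs]
      have : 2 ^ 2 ≤ (k + 2) ^ 2 := Nat.pow_le_pow_left (by omega) 2
      omega
    set B := s ^ (d + 2) * ((d + 2) * (C * 2 ^ s)) with hB
    have hpow : k ^ (d + 2) + 1 ≤ s ^ (d + 1) := by
      have h1 : k ^ (d + 2) < (k + 2) ^ (d + 2) := Nat.pow_lt_pow_left (by omega) (by omega)
      have h2 : (k + 2) ^ (d + 2) ≤ (k + 2) ^ (2 * (d + 1)) :=
        Nat.pow_le_pow_right (by omega) (by omega)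
      rw [hs, ← pow_mul]
      omega
    have hmain : ∀ j, ∀ A : Finset (Fin (d + 2) → ℤ), Fits A (fun _ => s ^ j) →
        ¬ GridEmb k A → A.card ≤ (B + 1) * (s ^ j) ^ (d + 1) := by
      intro j
      induction j with
      | zero =>
        intro A hA _
        have := hA.card_le
        simp at this
        simp
        omega
      | succ j ihj =>
        intro A hA h
        have hA' : Fits A (fun _ => s * s ^ j) := by
          rw [pow_succ, mul_comm] at hA
          exact hA
        have h1 := grid_step (Cn := C * (s ^ j) ^ d) (Fn := (B + 1) * (s ^ j) ^ (d + 1))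
          (by omega) (fun W hW hW2 => hC _ W hW hW2) ihj A hA' h
        refine h1.trans ?_
        have e1 : s ^ (d + 2) * ((d + 2) * (C * (s ^ j) ^ d * (s ^ j * 2 ^ s))) =
            B * (s ^ j) ^ (d + 1) := by
          rw [hB]
          ring
        rw [e1]
        have e2 : (B + 1) * (s ^ (j + 1)) ^ (d + 1) =
            (B + 1) * (s ^ j) ^ (d + 1) * s ^ (d + 1) := by
          rw [pow_succ s j, mul_pow]
          ring
        rw [e2]
        calc k ^ (d + 2) * ((B + 1) * (s ^ j) ^ (d + 1)) + B * (s ^ j) ^ (d + 1)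
            ≤ k ^ (d + 2) * ((B + 1) * (s ^ j) ^ (d + 1)) + (B + 1) * (s ^ j) ^ (d + 1) := by
              apply Nat.add_le_add_left
              apply Nat.mul_le_mul_right
              omega
          _ = (B + 1) * (s ^ j) ^ (d + 1) * (k ^ (d + 2) + 1) := by ring
          _ ≤ (B + 1) * (s ^ j) ^ (d + 1) * s ^ (d + 1) := Nat.mul_le_mul_left _ hpow
    refine ⟨(B + 1) * s ^ (d + 1), fun n A hA h => ?_⟩
    rcases Nat.eq_zero_or_pos n with hn | hn
    · subst hn
      have := hA.card_le
      simp at this
      simp [this]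
    · have hex : ∃ j, n ≤ s ^ j := ⟨n, (Nat.lt_pow_self (by omega)).le⟩
      let j := Nat.find hex
      have hj : n ≤ s ^ j := Nat.find_spec hex
      have hj2 : s ^ j ≤ s * n := by
        rcases Nat.eq_zero_or_pos j with h0 | h0
        · rw [h0, pow_zero]
          nlinarith
        · have h3 : s ^ (j - 1) < n := by
            have := Nat.find_min hex (m := j - 1) (by omega)
            omega
          have h4 : s ^ j = s * s ^ (j - 1) := by
            rw [← pow_succ']
            congr 1
            omega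
          rw [h4]
          exact Nat.mul_le_mul_left _ h3.le
      have h5 := hmain j A (hA.mono (fun _ => hj)) h
      refine h5.trans ?_
      have h6 : (s ^ j) ^ (d + 1) ≤ (s * n) ^ (d + 1) := Nat.pow_le_pow_left hj2 _
      calc (B + 1) * (s ^ j) ^ (d + 1) ≤ (B + 1) * (s * n) ^ (d + 1) := Nat.mul_le_mul_left _ h6
        _ = (B + 1) * s ^ (d + 1) * n ^ (d + 1) := by rw [mul_pow]; ring

/-- Linear-type bound for the model. -/
theorem mm_bound {d : ℕ} (Q : Finset (Fin (d + 1) → ℤ)) (hQ : Q.Nonempty) :
    ∃ C : ℕ, ∀ n, mm Q (fun _ => n) ≤ C * n ^ d := by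
  classical
  -- find k with Q fitting in a k-box
  have hfit : ∃ k : ℕ, Fits Q (fun _ => k) := by
    refine ⟨(∑ x ∈ Q, ∑ l, (x l).natAbs) * 2 + 1,
      fun _ => -((∑ x ∈ Q, ∑ l, (x l).natAbs : ℕ) : ℤ), fun x hx l => ?_⟩
    have h1 : (x l).natAbs ≤ ∑ l, (x l).natAbs :=
      Finset.single_le_sum (f := fun l => (x l).natAbs) (fun _ _ => Nat.zero_le _)
        (Finset.mem_univ l)
    have h2 : ∑ l, (x l).natAbs ≤ ∑ x ∈ Q, ∑ l, (x l).natAbs :=
      Finset.single_le_sum (f := fun x => ∑ l, (x l).natAbs) (fun _ _ => Nat.zero_le _) hx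
    set S := ∑ x ∈ Q, ∑ l, (x l).natAbs with hS
    show -(S : ℤ) ≤ x l ∧ x l < -(S : ℤ) + ((S * 2 + 1 : ℕ) : ℤ)
    push_cast
    omega
  obtain ⟨k, hk⟩ := hfit
  obtain ⟨C, hC⟩ := grid_bound k d
  refine ⟨C, fun n => ?_⟩
  obtain ⟨A, h1, h2, h3⟩ := exists_mm hQ (fun _ => n)
  rw [← h3]
  exact hC n A h1 (fun hg => h2 (hg.emb hk hQ))

end Pool.Agent.Lib.MPb1c185
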