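import Pool.Agent.Lib.MP_b1c185_co.Defs

/-!
Characterisation of interval minors of 0-1 matrices by maps on the ones.
-/

namespace Pool.Agent.Lib.MPb1c185

theorem surj_step {n m : ℕ} {c : Fin n → Fin m} (hc : Monotone c)
    (hs : Function.Surjective c) {i j : Fin n} (hij : i ≤ j) :
    (c j : ℕ) + i ≤ c i + j := by
  have hsub : Finset.Icc (c i) (c j) ⊆ (Finset.Icc i j).image c := by
    intro v hv
    rw [Finset.mem_Icc] at hv
    obtain ⟨x, hx⟩ := hs v
    rw [Finset.mem_image]
    by_cases h1 : x < i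
    · refine ⟨i, Finset.mem_Icc.2 ⟨le_refl _, hij⟩, ?_⟩
      have := hc h1.le
      rw [hx] at this
      exact le_antisymm hv.1 this
    · by_cases h2 : j < x
      · refine ⟨j, Finset.mem_Icc.2 ⟨hij, le_refl _⟩, ?_⟩
        have := hc h2.le
        rw [hx] at this
        exact le_antisymm this hv.2
      · exact ⟨x, Finset.mem_Icc.2 ⟨not_lt.1 h1, not_lt.1 h2⟩, hx⟩
  have h1 := Finset.card_le_card hsub
  have h2 := (Finset.card_image_le (s := Finset.Icc i j) (f := c))
  have h3 := h1.trans h2
  rw [Fin.card_Icc, Fin.card_Icc] at h3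
  have h4 : (c i : ℕ) ≤ c j := hc hij
  have h5 : (i : ℕ) ≤ j := hij
  omega

theorem surj_low {n m : ℕ} {c : Fin n → Fin m} (hc : Monotone c)
    (hs : Function.Surjective c) (i : Fin n) : (c i : ℕ) ≤ i := by
  have hsub : Finset.Iic (c i) ⊆ (Finset.Iic i).image c := by
    intro v hv
    rw [Finset.mem_Iic] at hv
    obtain ⟨x, hx⟩ := hs v
    rw [Finset.mem_image]
    by_cases h2 : i < x
    · refine ⟨i, Finset.mem_Iic.2 (le_refl _), ?_⟩
      have := hc h2.le
      rw [hx] at this
      exact le_antisymm this hv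
    · exact ⟨x, Finset.mem_Iic.2 (not_lt.1 h2), hx⟩
  have h3 := (Finset.card_le_card hsub).trans Finset.card_image_le
  rw [Fin.card_Iic, Fin.card_Iic] at h3
  omega

theorem surj_high {n m : ℕ} {c : Fin n → Fin m} (hc : Monotone c)
    (hs : Function.Surjective c) (i : Fin n) : m + (i : ℕ) ≤ c i + n := by
  have hsub : Finset.Ici (c i) ⊆ (Finset.Ici i).image c := by
    intro v hv
    rw [Finset.mem_Ici] at hv
    obtain ⟨x, hx⟩ := hs v
    rw [Finset.mem_image]
    by_cases h2 : x < i
    · refine ⟨i, Finset.mem_Ici.2 (le_refl _), ?_⟩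
      have := hc h2.le
      rw [hx] at this
      exact le_antisymm hv this
    · exact ⟨x, Finset.mem_Ici.2 (not_lt.1 h2), hx⟩
  have h3 := (Finset.card_le_card hsub).trans Finset.card_image_le
  rw [Fin.card_Ici, Fin.card_Ici] at h3
  have := (c i).2
  have := i.2
  omega

theorem strictMono_step {n m : ℕ} {s : Fin n → Fin m} (hs : StrictMono s) {i j : Fin n}
    (hij : i ≤ j) : (s i : ℕ) + j ≤ s j + i := by
  have hsub : (Finset.Icc i j).image s ⊆ Finset.Icc (s i) (s j) := by
    intro v hv
    rw [Finset.mem_image] at hv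
    obtain ⟨x, hx, rfl⟩ := hv
    rw [Finset.mem_Icc] at hx ⊢
    exact ⟨hs.monotone hx.1, hs.monotone hx.2⟩
  have h1 := Finset.card_le_card hsub
  rw [Finset.card_image_of_injective _ hs.injective, Fin.card_Icc, Fin.card_Icc] at h1
  have h4 : (s i : ℕ) ≤ s j := hs.monotone hij
  have h5 : (i : ℕ) ≤ j := hij
  omega

theorem strictMono_low {n m : ℕ} {s : Fin n → Fin m} (hs : StrictMono s) (i : Fin n) :
    (i : ℕ) ≤ s i := by
  have hsub : (Finset.Iic i).image s ⊆ Finset.Iic (s i) := by
    intro v hv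
    rw [Finset.mem_image] at hv
    obtain ⟨x, hx, rfl⟩ := hv
    rw [Finset.mem_Iic] at hx ⊢
    exact hs.monotone hx
  have h1 := Finset.card_le_card hsub
  rw [Finset.card_image_of_injective _ hs.injective, Fin.card_Iic, Fin.card_Iic] at h1
  omega

theorem strictMono_high {n m : ℕ} {s : Fin n → Fin m} (hs : StrictMono s) (i : Fin n) :
    (s i : ℕ) + n ≤ i + m := by
  have hsub : (Finset.Ici i).image s ⊆ Finset.Ici (s i) := by
    intro v hv
    rw [Finset.mem_image] at hv
    obtain ⟨x, hx, rfl⟩ := hv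
    rw [Finset.mem_Ici] at hx ⊢
    exact hs.monotone hx
  have h1 := Finset.card_le_card hsub
  rw [Finset.card_image_of_injective _ hs.injective, Fin.card_Ici, Fin.card_Ici] at h1
  have := (s i).2
  have := i.2
  omega

/-- A monotone surjection with prescribed values. -/
theorem exists_surj {n k : ℕ} {ι : Type*} (S : Finset ι) (hS : S.Nonempty) (u : ι → Fin k)
    (v : ι → Fin n) (h1 : ∀ p ∈ S, (u p : ℕ) ≤ v p) (h2 : ∀ p ∈ S, (v p : ℕ) + k ≤ u p + n)
    (h3 : ∀ p ∈ S, ∀ q ∈ S, u p < u q → (v p : ℕ) + u q ≤ v q + u p) :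
    ∃ c : Fin n → Fin k, Monotone c ∧ Function.Surjective c ∧ ∀ p ∈ S, c (v p) = u p := by
  classical
  obtain ⟨p0, hp0⟩ := hS
  have hk : 0 < k := Fin.pos (u p0)
  have hn : 0 < n := Fin.pos (v p0)
  let g : ℕ → ℕ := fun i => (S.inf' ⟨p0, hp0⟩ (fun q => (u q : ℕ) + (i - v q))) ⊓ i ⊓ (k - 1)
  have gmono : Monotone g := by
    intro i j hij
    refine inf_le_inf (inf_le_inf ?_ hij) le_rfl
    refine Finset.le_inf' _ _ (fun q hq => ?_)
    refine (Finset.inf'_le _ hq).trans ?_
    omega
  have gstep : ∀ i, g (i + 1) ≤ g i + 1 := by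
    intro i
    have e1 : S.inf' ⟨p0, hp0⟩ (fun q => (u q : ℕ) + (i + 1 - v q)) ≤
        S.inf' ⟨p0, hp0⟩ (fun q => (u q : ℕ) + (i - v q)) + 1 := by
      obtain ⟨q, hq, hqe⟩ := Finset.exists_mem_eq_inf' ⟨p0, hp0⟩ (fun q => (u q : ℕ) + (i - v q))
      rw [hqe]
      refine (Finset.inf'_le _ hq).trans ?_
      omega
    simp only [g, min_def]
    split_ifs <;> omega
  have g0 : g 0 = 0 := by
    simp only [g]
    omega
  have glast : g (n - 1) = k - 1 := by
    apply le_antisymm
    · exact inf_le_right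
    · refine le_inf (le_inf ?_ ?_) le_rfl
      · refine Finset.le_inf' _ _ (fun q hq => ?_)
        have := h2 q hq
        have := (v q).2
        have := (u q).2
        omega
      · have := h2 p0 hp0
        have := h1 p0 hp0
        omega
  have gval : ∀ p ∈ S, g (v p) = u p := by
    intro p hp
    apply le_antisymm
    · refine (inf_le_left.trans inf_le_left).trans ((Finset.inf'_le _ hp).trans ?_)
      simp
    · refine le_inf (le_inf ?_ (h1 p hp)) ?_
      · refine Finset.le_inf' _ _ (fun q hq => ?_)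
        by_cases hlt : u q < u p
        · have := h3 q hq p hp hlt
          have hlt' : (u q : ℕ) < u p := hlt
          omega
        · have : (u p : ℕ) ≤ u q := not_lt.1 hlt
          omega
      · have := (u p).2
        omega
  have glt : ∀ i, g i < k := by
    intro i
    have : g i ≤ k - 1 := inf_le_right
    omega
  refine ⟨fun i => ⟨g i, glt i⟩, ?_, ?_, ?_⟩
  · intro i j hij
    exact gmono hij
  · intro w
    have hex : ∃ i, (w : ℕ) ≤ g i := ⟨n - 1, by rw [glast]; have := w.2; omega⟩
    let i0 := Nat.find hex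
    have hi0 : (w : ℕ) ≤ g i0 := Nat.find_spec hex
    have hle : i0 ≤ n - 1 := Nat.find_min' hex (by rw [glast]; have := w.2; omega)
    refine ⟨⟨i0, by omega⟩, ?_⟩
    apply Fin.ext
    show g i0 = w
    apply le_antisymm _ hi0
    rcases Nat.eq_zero_or_pos i0 with h | h
    · rw [h, g0]; omega
    · have hlt : g (i0 - 1) < w := by
        have := Nat.find_min hex (m := i0 - 1) (by omega)
        omega
      have := gstep (i0 - 1)
      have h' : i0 - 1 + 1 = i0 := by omega
      rw [h'] at this
      omega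
  · intro p hp
    apply Fin.ext
    exact gval p hp

theorem intervalMinor_iff {d : ℕ} {n k : Fin d → ℕ} (A : Mat d n) (P : Mat d k)
    (hP : ∃ p, P p = true) :
    IntervalMinor A P ↔ ∃ e : (∀ l, Fin (k l)) → (∀ l, Fin (n l)),
      ∀ p, P p = true → A (e p) = true ∧
        (∀ l, (p l : ℕ) ≤ e p l ∧ (e p l : ℕ) + k l ≤ p l + n l) ∧
        ∀ q, P q = true → ∀ l, p l < q l → (e p l : ℕ) + q l ≤ e q l + p l := by
  classical
  constructor
  · rintro ⟨n', B, ⟨c, hmono, hsurj, hB⟩, s, hs, hPs⟩
    have key : ∀ p, P p = true → ∃ x, A x = true ∧ ∀ l, c l (x l) = s l (p l) := by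
      intro p hp
      exact (hB _).1 (hPs p hp)
    obtain ⟨p0, hp0⟩ := hP
    obtain ⟨x0, -, -⟩ := key p0 hp0
    haveI : Nonempty (∀ l, Fin (n l)) := ⟨x0⟩
    choose! e he using key
    refine ⟨e, fun p hp => ⟨(he p hp).1, fun l => ⟨?_, ?_⟩, fun q hq l hlt => ?_⟩⟩
    · have h1 := surj_low (hmono l) (hsurj l) (e p l)
      have h2 := strictMono_low (hs l) (p l)
      rw [(he p hp).2 l] at h1
      omega
    · have h1 := surj_high (hmono l) (hsurj l) (e p l)
      have h2 := strictMono_high (hs l) (p l)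
      rw [(he p hp).2 l] at h1
      omega
    · have h2 := strictMono_step (hs l) hlt.le
      have hlt' : c l (e p l) < c l (e q l) := by
        rw [(he p hp).2 l, (he q hq).2 l]
        exact hs l hlt
      have hle : e p l ≤ e q l := by
        by_contra hcon
        exact absurd (hmono l (not_le.1 hcon).le) (not_le.2 hlt')
      have h1 := surj_step (hmono l) (hsurj l) hle
      rw [(he p hp).2 l, (he q hq).2 l] at h1
      omega
  · rintro ⟨e, he⟩
    have key : ∀ l, ∃ c : Fin (n l) → Fin (k l), Monotone c ∧ Function.Surjective c ∧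
        ∀ p ∈ Finset.univ.filter (fun p => P p = true), c (e p l) = p l := by
      intro l
      refine exists_surj (Finset.univ.filter (fun p => P p = true)) ?_ (fun p => p l)
        (fun p => e p l) ?_ ?_ ?_
      · obtain ⟨p0, hp0⟩ := hP
        exact ⟨p0, by simp [hp0]⟩
      · intro p hp
        exact ((he p (by simpa using hp)).2.1 l).1
      · intro p hp
        exact ((he p (by simpa using hp)).2.1 l).2
      · intro p hp q hq hlt
        exact (he p (by simpa using hp)).2.2 q (by simpa using hq) l hlt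
    choose c hc using key
    refine ⟨k, fun y => decide (∃ x, A x = true ∧ ∀ l, c l (x l) = y l),
      ⟨c, fun l => (hc l).1, fun l => (hc l).2.1, fun y => by simp⟩,
      fun l => id, fun l => strictMono_id, ?_⟩
    intro p hp
    simp only [id, decide_eq_true_eq]
    exact ⟨e p, (he p hp).1, fun l => (hc l).2.2 p (by simp [hp])⟩

end Pool.Agent.Lib.MPb1c185
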