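import Pool.Agent.Lib.MP_b1c185_co.Limits

/-!
Composition with Latin hypercubes.
-/

namespace Pool.Agent.Lib.MPb1c185

open Filter Topology

/-- `lam` is a weakly monotone labelling of the points of `Q` by index vectors. -/
def WeakMono {D : ℕ} (Q : Finset (Fin D → ℤ)) (lam : (Fin D → ℤ) → (Fin D → ℕ)) : Prop :=
  ∀ p ∈ Q, ∀ q ∈ Q, ∀ l, p l < q l → lam p l ≤ lam q l

/-- Every weakly monotone labelling of `Q` with values in `B` is constant. -/
def Indec {D : ℕ} (Q : Finset (Fin D → ℤ)) (B : Finset (Fin D → ℕ)) : Prop :=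
  ∀ lam : (Fin D → ℤ) → (Fin D → ℕ), (∀ p ∈ Q, lam p ∈ B) → WeakMono Q lam →
    ∀ p ∈ Q, ∀ q ∈ Q, lam p = lam q

theorem compose {D : ℕ} {Q : Finset (Fin (D + 1) → ℤ)} (hQ : Q.Nonempty)
    {B : Finset (Fin (D + 1) → ℕ)} {s : ℕ} (hB : ∀ b ∈ B, ∀ l, b l < s) (hind : Indec Q B)
    (n : ℕ) : B.card * mm Q (fun _ => n) ≤ mm Q (fun _ => s * n) := by
  classical
  rcases Nat.eq_zero_or_pos n with hn | hn
  · subst hn
    obtain ⟨A, h1, h2, h3⟩ := exists_mm hQ (fun _ => 0)
    have h4 := h1.card_le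
    rw [h3] at h4
    have h5 : ∏ _l : Fin (D + 1), (0 : ℕ) = 0 := by simp
    rw [h5] at h4
    have : mm Q (fun _ => 0) = 0 := by omega
    rw [this]
    simp
  obtain ⟨A0, ⟨a, ha⟩, hA0, hc0⟩ := exists_mm hQ (fun _ => n)
  set A := shift (-a) A0 with hAdef
  have hA : ¬ Emb Q A := fun hE => hA0 (emb_shift.1 hE)
  have hcard : A.card = mm Q (fun _ => n) := by rw [hAdef, card_shift, hc0]
  have hbox : ∀ x ∈ A, ∀ l, 0 ≤ x l ∧ x l < n := by
    intro x hx l
    have h1 : a l ≤ (x - -a) l := (ha _ (mem_shift.1 hx) l).1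
    have h2 : (x - -a) l < a l + n := (ha _ (mem_shift.1 hx) l).2
    simp only [Pi.sub_apply, Pi.neg_apply] at h1 h2
    omega
  let T : (Fin (D + 1) → ℕ) → (Fin (D + 1) → ℤ) := fun b l => (n : ℤ) * (b l : ℤ)
  let C : Finset (Fin (D + 1) → ℤ) := B.biUnion (fun b => shift (T b) A)
  have hblock : ∀ b, ∀ x ∈ shift (T b) A, ∀ l, (x l / (n : ℤ)) = b l := by
    intro b x hx l
    have h1 := hbox _ (mem_shift.1 hx) l
    simp only [Pi.sub_apply, T] at h1
    have hn' : (0 : ℤ) < n := by exact_mod_cast hn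
    have h2 : x l = (x l - (n : ℤ) * (b l : ℤ)) + (n : ℤ) * (b l : ℤ) := by ring
    rw [h2, Int.add_mul_ediv_left _ _ hn'.ne', Int.ediv_eq_zero_of_lt h1.1 h1.2]
    simp
  have hCcard : C.card = B.card * mm Q (fun _ => n) := by
    rw [Finset.card_biUnion]
    · rw [Finset.sum_congr rfl (fun b _ => card_shift (T b) A), Finset.sum_const, hcard, smul_eq_mul]
    · intro b _ b' _ hne
      rw [Function.onFun, Finset.disjoint_left]
      intro x hx hx'
      apply hne
      funext l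
      have h1 := hblock b x hx l
      have h2 := hblock b' x hx' l
      rw [h1] at h2
      exact_mod_cast h2
  rw [← hCcard]
  refine le_mm ⟨0, fun x hx l => ?_⟩ ?_
  · obtain ⟨b, hb, hxb⟩ := Finset.mem_biUnion.1 hx
    have h1 := hbox _ (mem_shift.1 hxb) l
    simp only [Pi.sub_apply, T] at h1
    have h2 := hB b hb l
    show (0 : ℤ) ≤ x l ∧ x l < 0 + ((s * n : ℕ) : ℤ)
    push_cast
    have h3 : (0 : ℤ) ≤ (n : ℤ) * (b l : ℤ) := by positivity
    have h4 : (n : ℤ) * (b l : ℤ) + n ≤ (s : ℤ) * n := by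
      have : (b l : ℤ) + 1 ≤ s := by exact_mod_cast h2
      nlinarith
    constructor <;> linarith
  · rintro ⟨e, he1, he2⟩
    let lam : (Fin (D + 1) → ℤ) → (Fin (D + 1) → ℕ) := fun p l => (e p l / (n : ℤ)).toNat
    have hlam : ∀ p ∈ Q, ∃ b ∈ B, e p ∈ shift (T b) A ∧ lam p = b := by
      intro p hp
      obtain ⟨b, hb, hpb⟩ := Finset.mem_biUnion.1 (he1 p hp)
      refine ⟨b, hb, hpb, ?_⟩
      funext l
      simp only [lam]
      rw [hblock b _ hpb l]
      simp
    have hmem : ∀ p ∈ Q, lam p ∈ B := by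
      intro p hp
      obtain ⟨b, hb, -, h⟩ := hlam p hp
      rw [h]
      exact hb
    have hweak : WeakMono Q lam := by
      intro p hp q hq l hlt
      have h1 := he2 p hp q hq l hlt
      have h2 : e p l / (n : ℤ) ≤ e q l / (n : ℤ) :=
        Int.ediv_le_ediv (by exact_mod_cast hn) (by omega)
      exact Int.toNat_le_toNat h2
    have hconst := hind lam hmem hweak
    obtain ⟨p0, hp0⟩ := hQ
    obtain ⟨b0, -, -, hb0⟩ := hlam p0 hp0
    apply hA
    rw [← emb_shift (t := T b0)]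
    refine ⟨e, fun p hp => ?_, he2⟩
    obtain ⟨b, -, hpb, hb⟩ := hlam p hp
    have : b = b0 := by
      rw [← hb, ← hb0]
      exact hconst p hp p0 hp0
    rw [← this]
    exact hpb

end Pool.Agent.Lib.MPb1c185
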