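import Pool.Agent.Lib.MP_b1c185_co.PermMat

/-!
Counting tuples of permutations with a nonconstant weakly monotone labelling.
-/

namespace Pool.Agent.Lib.MPb1c185

open Filter Topology

/-- Moving one finite set to another of the same size by a permutation. -/
theorem exists_move {k : ℕ} (T T' : Finset (Fin k)) (h : T.card = T'.card) :
    ∃ ρ : Equiv.Perm (Fin k), ∀ i, ρ i ∈ T ↔ i ∈ T' := by
  classical
  have e : {x // x ∈ T'} ≃ {x // x ∈ T} := Finset.equivOfCardEq h.symm
  refine ⟨Equiv.extendSubtype e, fun i => ?_⟩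
  constructor
  · intro hi
    by_contra hcon
    exact Equiv.extendSubtype_not_mem e i hcon hi
  · intro hi
    exact Equiv.extendSubtype_mem e i hi

theorem count_one {D k s : ℕ} (g : Fin D → Fin k → Fin s) (l0 : Fin D) (j0 : Fin s) :
    Nat.card {σ : Fin D → Equiv.Perm (Fin k) // ∀ i, s ∣ ∑ l, ((g l (σ l i) : Fin s) : ℕ)} *
      (k.choose (Finset.univ.filter (fun v => g l0 v = j0)).card) ≤ (Nat.factorial k) ^ D := by
  classical
  set b := (Finset.univ.filter (fun v => g l0 v = j0)).card with hb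
  let ok : Finset (Fin D → Equiv.Perm (Fin k)) :=
    Finset.univ.filter (fun σ => ∀ i, s ∣ ∑ l, ((g l (σ l i) : Fin s) : ℕ))
  let T : (Fin D → Equiv.Perm (Fin k)) → Finset (Fin k) := fun σ =>
    Finset.univ.filter (fun i => g l0 (σ l0 i) = j0)
  have hTcard : ∀ σ, (T σ).card = b := by
    intro σ
    rw [hb]
    apply Finset.card_bij (fun i _ => σ l0 i)
    · intro i hi
      simpa [T] using hi
    · intro i _ j _ h
      exact (σ l0).injective h
    · intro v hv
      exact ⟨(σ l0).symm v, by simpa [T] using hv, by simp⟩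
  choose! ρ hρ using fun T T' : Finset (Fin k) => exists_move T T'
  let F : (Fin D → Equiv.Perm (Fin k)) × Finset (Fin k) → (Fin D → Equiv.Perm (Fin k)) :=
    fun x => Function.update x.1 l0 ((ρ (T x.1) x.2).trans (x.1 l0))
  have hcard : (ok ×ˢ (Finset.powersetCard b (Finset.univ : Finset (Fin k)))).card ≤
      (Finset.univ : Finset (Fin D → Equiv.Perm (Fin k))).card := by
    apply Finset.card_le_card_of_injOn F (fun _ _ => Finset.mem_coe.2 (Finset.mem_univ _))
    rintro ⟨σ, U⟩ h1 ⟨σ', U'⟩ h1' hF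
    obtain ⟨hσ, hU⟩ := Finset.mem_product.1 (Finset.mem_coe.1 h1)
    obtain ⟨hσ', hU'⟩ := Finset.mem_product.1 (Finset.mem_coe.1 h1')
    simp only at hσ hU hσ' hU'
    have hUc := (Finset.mem_powersetCard.1 hU).2
    have hUc' := (Finset.mem_powersetCard.1 hU').2
    have hσ2 := (Finset.mem_filter.1 hσ).2
    have hσ2' := (Finset.mem_filter.1 hσ').2
    have hother : ∀ l, l ≠ l0 → σ l = σ' l := by
      intro l hl
      have := congrFun hF l
      simpa [F, Function.update_of_ne hl] using this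
    have hlast : (ρ (T σ) U).trans (σ l0) = (ρ (T σ') U').trans (σ' l0) := by
      have := congrFun hF l0
      simpa [F] using this
    have hkey : ∀ τ : Fin D → Equiv.Perm (Fin k),
        (∀ i, s ∣ ∑ l, ((g l (τ l i) : Fin s) : ℕ)) → ∀ i,
        (g l0 (τ l0 i) = j0 ↔
          s ∣ (j0 : ℕ) + ∑ l ∈ Finset.univ.erase l0, ((g l (τ l i) : Fin s) : ℕ)) := by
      intro τ hτ i
      have h2 := hτ i
      rw [← Finset.add_sum_erase _ _ (Finset.mem_univ l0)] at h2
      constructor
      · intro h3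
        rwa [h3] at h2
      · intro h3
        apply Fin.ext
        have h4 : ((g l0 (τ l0 i) : ℕ)) + ∑ l ∈ Finset.univ.erase l0, ((g l (τ l i) : Fin s) : ℕ) ≡
            (j0 : ℕ) + ∑ l ∈ Finset.univ.erase l0, ((g l (τ l i) : Fin s) : ℕ) [MOD s] :=
          ((Nat.modEq_zero_iff_dvd).2 h2).trans ((Nat.modEq_zero_iff_dvd).2 h3).symm
        have h5 := Nat.ModEq.add_right_cancel' _ h4
        exact Nat.ModEq.eq_of_lt_of_lt h5 (g l0 (τ l0 i)).2 j0.2
    have hT : T σ = T σ' := by
      ext i
      simp only [T, Finset.mem_filter, Finset.mem_univ, true_and]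
      rw [hkey σ hσ2 i, hkey σ' hσ2' i]
      have : ∑ l ∈ Finset.univ.erase l0, ((g l (σ l i) : Fin s) : ℕ) =
          ∑ l ∈ Finset.univ.erase l0, ((g l (σ' l i) : Fin s) : ℕ) := by
        refine Finset.sum_congr rfl (fun l hl => ?_)
        rw [hother l (Finset.ne_of_mem_erase hl)]
      rw [this]
    have hmemU : ∀ (τ : Fin D → Equiv.Perm (Fin k)) (V : Finset (Fin k)), V.card = b →
        ∀ i, i ∈ V ↔ g l0 (((ρ (T τ) V).trans (τ l0)) i) = j0 := by
      intro τ V hV i
      rw [← hρ (T τ) V ((hTcard τ).trans hV.symm) i]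
      simp [T]
    have hUU : U = U' := by
      ext i
      rw [hmemU σ U hUc i, hmemU σ' U' hUc' i, hlast]
    have hσ0 : σ l0 = σ' l0 := by
      rw [hT, hUU] at hlast
      ext1 i
      have h6 := Equiv.congr_fun hlast ((ρ (T σ') U').symm i)
      simpa using h6
    have hσσ : σ = σ' := by
      funext l
      by_cases hl : l = l0
      · rw [hl]; exact hσ0
      · exact hother l hl
    rw [hσσ, hUU]
  have hall : (Finset.univ : Finset (Fin D → Equiv.Perm (Fin k))).card = (Nat.factorial k) ^ D := by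
    rw [Finset.card_univ, Fintype.card_fun, Fintype.card_perm, Fintype.card_fin, Fintype.card_fin]
  rw [hall, Finset.card_product, Finset.card_powersetCard, Finset.card_univ,
    Fintype.card_fin] at hcard
  have hok : Nat.card {σ : Fin D → Equiv.Perm (Fin k) //
      ∀ i, s ∣ ∑ l, ((g l (σ l i) : Fin s) : ℕ)} = ok.card := by
    rw [Nat.card_eq_fintype_card, Fintype.card_subtype]
  rw [hok]
  exact hcard

theorem choose_lower (s c m : ℕ) (h : s * c ≤ (s - 1) * m) :
    s ^ c ≤ (s - 1) ^ c * m.choose c := by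
  induction c generalizing m with
  | zero => simp
  | succ c ih =>
    rcases Nat.eq_zero_or_pos s with h0 | h0
    · subst h0
      simp
    obtain ⟨m', rfl⟩ : ∃ m', m = m' + 1 := by
      refine ⟨m - 1, ?_⟩
      have : 0 < (s - 1) * m := lt_of_lt_of_le (by positivity) h
      have := Nat.pos_of_mul_pos_left this
      omega
    have h1 : s * c ≤ (s - 1) * m' := by
      have e1 : s * (c + 1) = s * c + s := by ring
      have e2 : (s - 1) * (m' + 1) = (s - 1) * m' + (s - 1) := by ring
      omega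
    have h2 := ih m' h1
    have h3 : (c + 1) * (m' + 1).choose (c + 1) = (m' + 1) * m'.choose c := by
      have := Nat.add_one_mul_choose_eq m' c
      rw [this]
      ring
    have h4 : s ^ (c + 1) * (c + 1) ≤ (s - 1) ^ (c + 1) * (m' + 1).choose (c + 1) * (c + 1) := by
      calc s ^ (c + 1) * (c + 1) = s ^ c * (s * (c + 1)) := by ring
        _ ≤ s ^ c * ((s - 1) * (m' + 1)) := Nat.mul_le_mul_left _ h
        _ ≤ ((s - 1) ^ c * m'.choose c) * ((s - 1) * (m' + 1)) := Nat.mul_le_mul_right _ h2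
        _ = (s - 1) ^ (c + 1) * ((m' + 1) * m'.choose c) := by ring
        _ = (s - 1) ^ (c + 1) * ((c + 1) * (m' + 1).choose (c + 1)) := by rw [h3]
        _ = (s - 1) ^ (c + 1) * (m' + 1).choose (c + 1) * (c + 1) := by ring
    exact Nat.le_of_mul_le_mul_right h4 (by omega)

theorem choose_lower' {s b k : ℕ} (hb : 1 ≤ b) (h : s * b ≤ (s - 1) * k) :
    k * s ^ (b - 1) ≤ b * (s - 1) ^ (b - 1) * k.choose b := by
  rcases Nat.eq_zero_or_pos s with h0 | h0
  · subst h0
    rcases Nat.eq_zero_or_pos (b - 1) with h1 | h1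
    · have : b = 1 := by omega
      subst this
      simp
    · rw [zero_pow (by omega)]
      simp
  obtain ⟨b', rfl⟩ : ∃ b', b = b' + 1 := ⟨b - 1, by omega⟩
  obtain ⟨k', rfl⟩ : ∃ k', k = k' + 1 := by
    refine ⟨k - 1, ?_⟩
    have : 0 < (s - 1) * k := lt_of_lt_of_le (by positivity) h
    have := Nat.pos_of_mul_pos_left this
    omega
  have h1 : s * b' ≤ (s - 1) * k' := by
    have e1 : s * (b' + 1) = s * b' + s := by ring
    have e2 : (s - 1) * (k' + 1) = (s - 1) * k' + (s - 1) := by ring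
    omega
  have h2 := choose_lower s b' k' h1
  have h3 : (b' + 1) * (k' + 1).choose (b' + 1) = (k' + 1) * k'.choose b' := by
    have := Nat.add_one_mul_choose_eq k' b'
    rw [this]
    ring
  simp only [Nat.add_sub_cancel]
  calc (k' + 1) * s ^ b' ≤ (k' + 1) * ((s - 1) ^ b' * k'.choose b') := Nat.mul_le_mul_left _ h2
    _ = (s - 1) ^ b' * ((k' + 1) * k'.choose b') := by ring
    _ = (s - 1) ^ b' * ((b' + 1) * (k' + 1).choose (b' + 1)) := by rw [h3]
    _ = (b' + 1) * (s - 1) ^ b' * (k' + 1).choose (b' + 1) := by ring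

end Pool.Agent.Lib.MPb1c185
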