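import Pool.Agent.Lib.MP_b1c185_co.Count

/-!
The union bound.
-/

namespace Pool.Agent.Lib.MPb1c185

open Filter Topology

/-- The size of the largest fibre. -/
noncomputable def mx {k s : ℕ} (h : Fin k → Fin s) : ℕ :=
  Finset.univ.sup (fun j => (Finset.univ.filter (fun i => h i = j)).card)

/-- The number of points outside the largest fibre. -/
noncomputable def co {k s : ℕ} (h : Fin k → Fin s) : ℕ := k - mx h

theorem le_mx {k s : ℕ} (h : Fin k → Fin s) (j : Fin s) :
    (Finset.univ.filter (fun i => h i = j)).card ≤ mx h :=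
  Finset.le_sup (f := fun j => (Finset.univ.filter (fun i => h i = j)).card) (Finset.mem_univ j)

theorem exists_mx {k s : ℕ} (hs : 0 < s) (h : Fin k → Fin s) :
    ∃ j, (Finset.univ.filter (fun i => h i = j)).card = mx h := by
  have hne : (Finset.univ : Finset (Fin s)).Nonempty := ⟨⟨0, hs⟩, Finset.mem_univ _⟩
  obtain ⟨j, -, hj⟩ := Finset.exists_mem_eq_sup Finset.univ hne
    (fun j => (Finset.univ.filter (fun i => h i = j)).card)
  exact ⟨j, hj.symm⟩

theorem mx_le {k s : ℕ} (h : Fin k → Fin s) : mx h ≤ k := by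
  apply Finset.sup_le
  intro j _
  refine (Finset.card_le_univ _).trans ?_
  simp

theorem le_mul_mx {k s : ℕ} (h : Fin k → Fin s) : k ≤ s * mx h := by
  classical
  have h1 : (Finset.univ : Finset (Fin k)).card = ∑ j, (Finset.univ.filter (fun i => h i = j)).card :=
    Finset.card_eq_sum_card_fiberwise (fun i _ => Finset.mem_coe.2 (Finset.mem_univ (h i)))
  rw [Finset.card_univ, Fintype.card_fin] at h1
  calc k = ∑ j, (Finset.univ.filter (fun i => h i = j)).card := h1
    _ ≤ ∑ _j : Fin s, mx h := Finset.sum_le_sum (fun j _ => le_mx h j)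
    _ = s * mx h := by simp

theorem co_le {k s : ℕ} (h : Fin k → Fin s) : s * co h ≤ (s - 1) * k := by
  have h1 := le_mul_mx h
  have h2 := mx_le h
  unfold co
  rw [Nat.mul_sub, Nat.sub_mul]
  omega

theorem co_pos {k s : ℕ} {h : Fin k → Fin s} {a b : Fin k} (hab : h a ≠ h b) : 1 ≤ co h := by
  classical
  obtain ⟨j, hj⟩ := exists_mx (lt_of_le_of_lt (Nat.zero_le _) (h a).2) h
  unfold co
  by_contra hcon
  have h1 := mx_le h
  have h2 : (Finset.univ.filter (fun i => h i = j)).card = Fintype.card (Fin k) := by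
    rw [hj, Fintype.card_fin]
    omega
  have h3 := (Finset.card_eq_iff_eq_univ _).1 h2
  have h4 : ∀ i, h i = j := by
    intro i
    have : i ∈ Finset.univ.filter (fun i => h i = j) := by
      rw [h3]
      exact Finset.mem_univ i
    exact (Finset.mem_filter.1 this).2
  exact hab ((h4 a).trans (h4 b).symm)

/-- Number of points with value below `j`. -/
noncomputable def below {k s : ℕ} (h : Fin k → Fin s) (j : Fin s) : ℕ :=
  (Finset.univ.filter (fun i => h i < j)).card

theorem lt_iff_below {k s : ℕ} {h : Fin k → Fin s} (hm : Monotone h) (i : Fin k) (j : Fin s) :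
    h i < j ↔ (i : ℕ) < below h j := by
  classical
  unfold below
  constructor
  · intro hij
    have hsub : Finset.Iic i ⊆ Finset.univ.filter (fun i => h i < j) := by
      intro i' hi'
      rw [Finset.mem_filter]
      exact ⟨Finset.mem_univ _, lt_of_le_of_lt (hm (Finset.mem_Iic.1 hi')) hij⟩
    have := Finset.card_le_card hsub
    rw [Fin.card_Iic] at this
    omega
  · intro hij
    by_contra hcon
    have hsub : Finset.univ.filter (fun i => h i < j) ⊆ Finset.Iio i := by
      intro i' hi'
      rw [Finset.mem_Iio]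
      by_contra h2
      exact hcon (lt_of_le_of_lt (hm (not_lt.1 h2)) (Finset.mem_filter.1 hi').2)
    have := Finset.card_le_card hsub
    rw [Fin.card_Iio] at this
    omega

theorem below_le {k s : ℕ} (h : Fin k → Fin s) (j : Fin s) : below h j ≤ k := by
  refine (Finset.card_le_univ _).trans ?_
  simp

theorem eq_of_below {k s : ℕ} {h h' : Fin k → Fin s} (hm : Monotone h) (hm' : Monotone h')
    (hb : ∀ j, below h j = below h' j) : h = h' := by
  funext i
  rcases lt_trichotomy (h i) (h' i) with h1 | h1 | h1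
  · exfalso
    have h2 := (lt_iff_below hm i (h' i)).1 h1
    rw [hb] at h2
    exact lt_irrefl _ ((lt_iff_below hm' i (h' i)).2 h2)
  · exact h1
  · exfalso
    have h2 := (lt_iff_below hm' i (h i)).1 h1
    rw [← hb] at h2
    exact lt_irrefl _ ((lt_iff_below hm i (h i)).2 h2)

theorem count_mono {k s : ℕ} (hs : 0 < s) (b : ℕ) [DecidablePred (fun h : Fin k → Fin s =>
    Monotone h ∧ co h ≤ b)] :
    (Finset.univ.filter (fun h : Fin k → Fin s => Monotone h ∧ co h ≤ b)).card ≤
      s * (b + 1) ^ s := by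
  classical
  choose js hjs using fun h : Fin k → Fin s => exists_mx hs h
  let e : (Fin k → Fin s) → Fin s → ℕ := fun h j =>
    if j ≤ js h then below h j else k - below h j
  have hcard : (Finset.univ : Finset (Fin s × (Fin s → Fin (b + 1)))).card = s * (b + 1) ^ s := by
    rw [Finset.card_univ, Fintype.card_prod, Fintype.card_fun]
    simp
  rw [← hcard]
  apply Finset.card_le_card_of_injOn
    (fun h => (js h, fun j => (⟨min (e h j) b, by omega⟩ : Fin (b + 1))))
  · intro h _
    exact Finset.mem_coe.2 (Finset.mem_univ _)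
  · intro h hh h' hh' heq
    obtain ⟨hm, hc⟩ := (Finset.mem_filter.1 (Finset.mem_coe.1 hh)).2
    obtain ⟨hm', hc'⟩ := (Finset.mem_filter.1 (Finset.mem_coe.1 hh')).2
    simp only [Prod.mk.injEq] at heq
    obtain ⟨hj, he⟩ := heq
    have hle : ∀ h : Fin k → Fin s, co h ≤ b → ∀ j, e h j ≤ b := by
      intro h hc j
      simp only [e]
      have hmxj := hjs h
      have hmk := mx_le h
      unfold co at hc
      split_ifs with h1
      · have hdis : Disjoint (Finset.univ.filter (fun i => h i < j))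
            (Finset.univ.filter (fun i => h i = js h)) := by
          rw [Finset.disjoint_left]
          intro i hi hi'
          have h2 := (Finset.mem_filter.1 hi).2
          have h3 := (Finset.mem_filter.1 hi').2
          rw [h3] at h2
          exact absurd h2 (not_lt.2 h1)
        have h4 := Finset.card_le_univ ((Finset.univ.filter (fun i => h i < j)) ∪
            (Finset.univ.filter (fun i => h i = js h)))
        rw [Finset.card_union_of_disjoint hdis, Fintype.card_fin, hmxj] at h4
        unfold below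
        omega
      · have hsub : Finset.univ.filter (fun i => h i = js h) ⊆
            Finset.univ.filter (fun i => h i < j) := by
          intro i hi
          rw [Finset.mem_filter] at hi ⊢
          rw [hi.2]
          exact ⟨Finset.mem_univ _, not_le.1 h1⟩
        have h4 := Finset.card_le_card hsub
        rw [hmxj] at h4
        unfold below
        omega
    apply eq_of_below hm hm'
    intro j
    have h1 := congrFun he j
    simp only [Fin.mk.injEq] at h1
    rw [min_eq_left (hle h hc j), min_eq_left (hle h' hc' j)] at h1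
    simp only [e] at h1
    have h2 := below_le h j
    have h3 := below_le h' j
    rw [hj] at h1
    split_ifs at h1 with h4
    · exact h1
    · omega

/-- The largest value of `co` over the coordinates. -/
noncomputable def cg {D k s : ℕ} (g : Fin D → Fin k → Fin s) : ℕ :=
  Finset.univ.sup (fun l => co (g l))

theorem count_g {D k s : ℕ} (hs : 0 < s) (b : ℕ) [DecidablePred
    (fun g : Fin D → Fin k → Fin s => (∀ l, Monotone (g l)) ∧ cg g = b)] :
    (Finset.univ.filter (fun g : Fin D → Fin k → Fin s => (∀ l, Monotone (g l)) ∧ cg g = b)).card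
      ≤ (s * (b + 1) ^ s) ^ D := by
  classical
  have hsub : Finset.univ.filter (fun g : Fin D → Fin k → Fin s =>
      (∀ l, Monotone (g l)) ∧ cg g = b) ⊆ Fintype.piFinset (fun _ : Fin D =>
      Finset.univ.filter (fun h : Fin k → Fin s => Monotone h ∧ co h ≤ b)) := by
    intro g hg
    obtain ⟨h1, h2⟩ := (Finset.mem_filter.1 hg).2
    rw [Fintype.mem_piFinset]
    intro l
    rw [Finset.mem_filter]
    refine ⟨Finset.mem_univ _, h1 l, ?_⟩
    rw [← h2]
    exact Finset.le_sup (f := fun l => co (g l)) (Finset.mem_univ l)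
  refine (Finset.card_le_card hsub).trans ?_
  rw [Fintype.card_piFinset]
  calc ∏ _l : Fin D, (Finset.univ.filter (fun h : Fin k → Fin s => Monotone h ∧ co h ≤ b)).card
      ≤ ∏ _l : Fin D, s * (b + 1) ^ s := Finset.prod_le_prod' (fun _ _ => count_mono hs b)
    _ = (s * (b + 1) ^ s) ^ D := by simp

theorem count_one' {D k s : ℕ} (g : Fin D → Fin k → Fin s) (hg : 1 ≤ cg g) :
    Nat.card {σ : Fin D → Equiv.Perm (Fin k) // ∀ i, s ∣ ∑ l, ((g l (σ l i) : Fin s) : ℕ)} *
      (k * s ^ (cg g - 1)) ≤ cg g * (s - 1) ^ (cg g - 1) * (Nat.factorial k) ^ D := by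
  classical
  have hD : (Finset.univ : Finset (Fin D)).Nonempty := by
    by_contra hcon
    rw [Finset.not_nonempty_iff_eq_empty] at hcon
    unfold cg at hg
    rw [hcon] at hg
    simp at hg
  obtain ⟨l0, -, hl0⟩ := Finset.exists_mem_eq_sup Finset.univ hD (fun l => co (g l))
  have hcl : cg g = co (g l0) := hl0
  have hs : 0 < s := by
    rcases Nat.eq_zero_or_pos s with h0 | h0
    · subst h0
      rcases Nat.eq_zero_or_pos k with h1 | h1
      · subst h1
        rw [hcl] at hg
        unfold co at hg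
        omega
      · exact absurd (g l0 ⟨0, h1⟩).2 (Nat.not_lt_zero _)
    · exact h0
  obtain ⟨j0, hj0⟩ := exists_mx hs (g l0)
  have h1 := count_one g l0 j0
  rw [hj0] at h1
  have h2 : k.choose (mx (g l0)) = k.choose (cg g) := by
    rw [hcl]
    unfold co
    exact (Nat.choose_symm (mx_le (g l0))).symm
  rw [h2] at h1
  have h3 := choose_lower' hg (by rw [hcl]; exact co_le (g l0))
  set N := Nat.card {σ : Fin D → Equiv.Perm (Fin k) //
    ∀ i, s ∣ ∑ l, ((g l (σ l i) : Fin s) : ℕ)} with hN
  calc N * (k * s ^ (cg g - 1)) ≤ N * (cg g * (s - 1) ^ (cg g - 1) * k.choose (cg g)) :=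
        Nat.mul_le_mul_left _ h3
    _ = cg g * (s - 1) ^ (cg g - 1) * (N * k.choose (cg g)) := by ring
    _ ≤ cg g * (s - 1) ^ (cg g - 1) * (Nat.factorial k) ^ D := Nat.mul_le_mul_left _ h1

theorem cg_le {D k s : ℕ} (g : Fin D → Fin k → Fin s) : cg g ≤ k := by
  apply Finset.sup_le
  intro l _
  unfold co
  omega

/-- The weight in the union bound. -/
noncomputable def wt (D s : ℕ) (c : ℕ) : ℝ :=
  ((s : ℝ) * ((c : ℝ) + 2) ^ s) ^ D * (((c : ℝ) + 1) * (((s : ℝ) - 1) / s) ^ c)

theorem summable_wt (D : ℕ) {s : ℕ} (hs : 2 ≤ s) : Summable (wt D s) := by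
  have hs' : (2 : ℝ) ≤ s := by exact_mod_cast hs
  set r : ℝ := ((s : ℝ) - 1) / s with hr
  have hr0 : 0 < r := div_pos (by linarith) (by linarith)
  have hr1 : r < 1 := by
    rw [hr, div_lt_one (by linarith)]
    linarith
  have h1 : Summable (fun n : ℕ => ((n : ℝ)) ^ (s * D + 1) * r ^ n) :=
    summable_pow_mul_geometric_of_norm_lt_one _ (by rw [Real.norm_of_nonneg hr0.le]; exact hr1)
  have h2 := (summable_nat_add_iff 2).2 h1
  have h3 : Summable (fun c : ℕ => ((s : ℝ) ^ D / r ^ 2) *
      ((((c + 2 : ℕ) : ℝ)) ^ (s * D + 1) * r ^ (c + 2))) := h2.mul_left _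
  refine Summable.of_nonneg_of_le (fun c => ?_) (fun c => ?_) h3
  · unfold wt
    positivity
  · unfold wt
    rw [← hr]
    have e1 : ((s : ℝ) ^ D / r ^ 2) * ((((c + 2 : ℕ) : ℝ)) ^ (s * D + 1) * r ^ (c + 2)) =
        (s : ℝ) ^ D * (((c : ℝ) + 2) ^ (s * D)) * (((c : ℝ) + 2) * r ^ c) := by
      push_cast
      rw [pow_add r c 2, pow_succ]
      field_simp
      ring
    rw [e1, mul_pow, ← pow_mul]
    apply mul_le_mul_of_nonneg_left _ (by positivity)
    apply mul_le_mul_of_nonneg_right _ (by positivity)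
    linarith

/-- The number of tuples with a nonconstant weakly monotone labelling is `O((k!)^D / k)`. -/
theorem bad_bound (D : ℕ) {s : ℕ} (hs : 2 ≤ s) : ∃ K : ℝ, ∀ k : ℕ,
    (Nat.card {σ : Fin D → Equiv.Perm (Fin k) // Bad s σ} : ℝ) * k ≤
      K * ((Nat.factorial k : ℕ) : ℝ) ^ D := by
  classical
  refine ⟨∑' c, wt D s c, fun k => ?_⟩
  have hs0 : 0 < s := by omega
  have hs' : (2 : ℝ) ≤ s := by exact_mod_cast hs
  let okset : (Fin D → Fin k → Fin s) → Finset (Fin D → Equiv.Perm (Fin k)) := fun g =>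
    Finset.univ.filter (fun σ => ∀ i, s ∣ ∑ l, ((g l (σ l i) : Fin s) : ℕ))
  let G : ℕ → Finset (Fin D → Fin k → Fin s) := fun b =>
    Finset.univ.filter (fun g => (∀ l, Monotone (g l)) ∧ cg g = b)
  have hok : ∀ g, (okset g).card = Nat.card {σ : Fin D → Equiv.Perm (Fin k) //
      ∀ i, s ∣ ∑ l, ((g l (σ l i) : Fin s) : ℕ)} := by
    intro g
    rw [Nat.card_eq_fintype_card, Fintype.card_subtype]
  have hbad : Nat.card {σ : Fin D → Equiv.Perm (Fin k) // Bad s σ} ≤
      ∑ c ∈ Finset.range k, ∑ g ∈ G (c + 1), (okset g).card := by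
    rw [Nat.card_eq_fintype_card, Fintype.card_subtype]
    have hsub : Finset.univ.filter (fun σ : Fin D → Equiv.Perm (Fin k) => Bad s σ) ⊆
        (Finset.range k).biUnion (fun c => (G (c + 1)).biUnion okset) := by
      intro σ hσ
      obtain ⟨g, hg1, ⟨l, a, b, hab⟩, hg3⟩ := (Finset.mem_filter.1 hσ).2
      have h1 : 1 ≤ cg g := (co_pos hab).trans
        (Finset.le_sup (f := fun l => co (g l)) (Finset.mem_univ l))
      have h2 := cg_le g
      rw [Finset.mem_biUnion]
      refine ⟨cg g - 1, Finset.mem_range.2 (by omega), ?_⟩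
      rw [Finset.mem_biUnion]
      refine ⟨g, Finset.mem_filter.2 ⟨Finset.mem_univ _, hg1, by omega⟩, ?_⟩
      exact Finset.mem_filter.2 ⟨Finset.mem_univ _, hg3⟩
    refine (Finset.card_le_card hsub).trans (Finset.card_biUnion_le.trans ?_)
    exact Finset.sum_le_sum (fun c _ => Finset.card_biUnion_le)
  have hterm : ∀ c : ℕ, ∀ g ∈ G (c + 1), ((okset g).card : ℝ) * k ≤
      (((c : ℝ) + 1) * (((s : ℝ) - 1) / s) ^ c) * ((Nat.factorial k : ℕ) : ℝ) ^ D := by
    intro c g hg
    obtain ⟨-, hg1, hg2⟩ := Finset.mem_filter.1 hg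
    have h1 := count_one' g (by omega)
    rw [hg2, ← hok] at h1
    simp only [Nat.add_sub_cancel] at h1
    have h2 : (((okset g).card * (k * s ^ c) : ℕ) : ℝ) ≤
        (((c + 1) * (s - 1) ^ c * (Nat.factorial k) ^ D : ℕ) : ℝ) := by exact_mod_cast h1
    push_cast [Nat.cast_sub (by omega : 1 ≤ s)] at h2
    have hspos : (0 : ℝ) < (s : ℝ) ^ c := by positivity
    rw [div_pow]
    have h3 : ((okset g).card : ℝ) * k = (((okset g).card : ℝ) * (k * (s : ℝ) ^ c)) / (s : ℝ) ^ c := by
      field_simp
    rw [h3, div_le_iff₀ hspos]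
    refine h2.trans (le_of_eq ?_)
    field_simp
  have hG : ∀ c : ℕ, ((G (c + 1)).card : ℝ) ≤ ((s : ℝ) * ((c : ℝ) + 2) ^ s) ^ D := by
    intro c
    have h1 := count_g (D := D) (k := k) hs0 (c + 1)
    have h2 : (((G (c + 1)).card : ℕ) : ℝ) ≤ (((s * (c + 1 + 1) ^ s) ^ D : ℕ) : ℝ) := by
      exact_mod_cast h1
    refine h2.trans (le_of_eq ?_)
    push_cast
    ring
  have hfac : (0 : ℝ) ≤ ((Nat.factorial k : ℕ) : ℝ) ^ D := by positivity
  have hr0 : (0 : ℝ) ≤ ((s : ℝ) - 1) / s := div_nonneg (by linarith) (by linarith)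
  calc (Nat.card {σ : Fin D → Equiv.Perm (Fin k) // Bad s σ} : ℝ) * k
      ≤ (∑ c ∈ Finset.range k, ∑ g ∈ G (c + 1), ((okset g).card : ℝ)) * k := by
        apply mul_le_mul_of_nonneg_right _ (Nat.cast_nonneg k)
        exact_mod_cast hbad
    _ = ∑ c ∈ Finset.range k, ∑ g ∈ G (c + 1), ((okset g).card : ℝ) * k := by
        rw [Finset.sum_mul]
        exact Finset.sum_congr rfl (fun c _ => Finset.sum_mul _ _ _)
    _ ≤ ∑ c ∈ Finset.range k, ∑ _g ∈ G (c + 1),
          (((c : ℝ) + 1) * (((s : ℝ) - 1) / s) ^ c) * ((Nat.factorial k : ℕ) : ℝ) ^ D :=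
        Finset.sum_le_sum (fun c _ => Finset.sum_le_sum (fun g hg => hterm c g hg))
    _ = ∑ c ∈ Finset.range k, ((G (c + 1)).card : ℝ) *
          ((((c : ℝ) + 1) * (((s : ℝ) - 1) / s) ^ c) * ((Nat.factorial k : ℕ) : ℝ) ^ D) := by
        refine Finset.sum_congr rfl (fun c _ => ?_)
        rw [Finset.sum_const, nsmul_eq_mul]
    _ ≤ ∑ c ∈ Finset.range k, wt D s c * ((Nat.factorial k : ℕ) : ℝ) ^ D := by
        refine Finset.sum_le_sum (fun c _ => ?_)
        unfold wt
        rw [← mul_assoc]
        apply mul_le_mul_of_nonneg_right _ hfac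
        apply mul_le_mul_of_nonneg_right (hG c)
        positivity
    _ = (∑ c ∈ Finset.range k, wt D s c) * ((Nat.factorial k : ℕ) : ℝ) ^ D := by
        rw [Finset.sum_mul]
    _ ≤ (∑' c, wt D s c) * ((Nat.factorial k : ℕ) : ℝ) ^ D := by
        apply mul_le_mul_of_nonneg_right _ hfac
        apply (summable_wt D hs).sum_le_tsum
        intro c _
        unfold wt
        positivity

end Pool.Agent.Lib.MPb1c185
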