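import Pool.Agent.Lib.MP_b1c185_co.Sum

/-!
Cross-shaped patterns, and the box lower bound.
-/

namespace Pool.Agent.Lib.MPb1c185

open Filter Topology

/-- The complement of a box avoids `Q`. -/
theorem lower_box {d : ℕ} {Q : Finset (Fin d → ℤ)} {q0 : Fin d → ℤ} (hq0 : q0 ∈ Q)
    (α β : Fin d → ℕ) (hα : ∀ l, ∃ p ∈ Q, p l + α l ≤ q0 l)
    (hβ : ∀ l, ∃ p ∈ Q, q0 l + β l ≤ p l) (n : ℕ) :
    n ^ d - ∏ l, (n - (α l + β l)) ≤ mm Q (fun _ => n) := by
  classical
  set full : Finset (Fin d → ℤ) := Fintype.piFinset (fun _ => Finset.Ico (0 : ℤ) n) with hfull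
  set box : Finset (Fin d → ℤ) := Fintype.piFinset (fun l => Finset.Ico (α l : ℤ) (n - β l))
    with hbox
  have h1 : full.card = n ^ d := by
    rw [hfull, Fintype.card_piFinset]
    simp
  have h2 : box.card = ∏ l, (n - (α l + β l)) := by
    rw [hbox, Fintype.card_piFinset]
    refine Finset.prod_congr rfl (fun l _ => ?_)
    rw [Int.card_Ico]
    omega
  have h3 := Finset.le_card_sdiff box full
  rw [h1, h2] at h3
  refine h3.trans (le_mm ⟨0, fun x hx l => ?_⟩ ?_)
  · have := Fintype.mem_piFinset.1 (Finset.mem_sdiff.1 hx).1 l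
    rw [Finset.mem_Ico] at this
    show (0 : ℤ) ≤ x l ∧ x l < 0 + (n : ℤ)
    omega
  · rintro ⟨e, he1, he2⟩
    have hin : ∀ p ∈ Q, ∀ l, 0 ≤ e p l ∧ e p l < n := by
      intro p hp l
      have := Fintype.mem_piFinset.1 (Finset.mem_sdiff.1 (he1 p hp)).1 l
      rw [Finset.mem_Ico] at this
      exact this
    apply (Finset.mem_sdiff.1 (he1 q0 hq0)).2
    rw [hbox, Fintype.mem_piFinset]
    intro l
    rw [Finset.mem_Ico]
    have h0 := hin q0 hq0 l
    constructor
    · obtain ⟨p, hp, hpl⟩ := hα l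
      have h4 := hin p hp l
      rcases Nat.eq_zero_or_pos (α l) with h5 | h5
      · rw [h5]
        push_cast
        exact h0.1
      · have := he2 p hp q0 hq0 l (by omega)
        omega
    · obtain ⟨p, hp, hpl⟩ := hβ l
      have h4 := hin p hp l
      rcases Nat.eq_zero_or_pos (β l) with h5 | h5
      · rw [h5]
        push_cast
        omega
      · have := he2 q0 hq0 p hp l (by omega)
        omega

theorem line {S : Finset ℤ} {z : ℤ} (hz : z ∈ S) {α β : ℕ}
    (h1 : α ≤ (S.filter (fun y => y < z)).card) (h2 : β ≤ (S.filter (fun y => z < y)).card) :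
    ∃ g : ℤ → ℤ, g 0 = z ∧ (∀ t, -(α : ℤ) ≤ t → t ≤ β → g t ∈ S) ∧
      ∀ t t', -(α : ℤ) ≤ t → t ≤ t' → t' ≤ β → t' - t ≤ g t' - g t := by
  classical
  let f := S.orderEmbOfFin rfl
  have hsurj : ∀ y ∈ S, ∃ i, f i = y := by
    intro y hy
    have : y ∈ Set.range f := by
      rw [Finset.range_orderEmbOfFin]
      exact hy
    exact this
  obtain ⟨i0, hi0⟩ := hsurj z hz
  have h3 : (S.filter (fun y => y < z)).card ≤ i0 := by
    have hsub : S.filter (fun y => y < z) ⊆ (Finset.Iio i0).image f := by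
      intro y hy
      obtain ⟨hyS, hyz⟩ := Finset.mem_filter.1 hy
      obtain ⟨i, hi⟩ := hsurj y hyS
      refine Finset.mem_image.2 ⟨i, ?_, hi⟩
      rw [Finset.mem_Iio]
      rw [← hi, ← hi0] at hyz
      exact f.lt_iff_lt.1 hyz
    have := (Finset.card_le_card hsub).trans Finset.card_image_le
    rwa [Fin.card_Iio] at this
  have h4 : (S.filter (fun y => z < y)).card ≤ S.card - 1 - i0 := by
    have hsub : S.filter (fun y => z < y) ⊆ (Finset.Ioi i0).image f := by
      intro y hy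
      obtain ⟨hyS, hyz⟩ := Finset.mem_filter.1 hy
      obtain ⟨i, hi⟩ := hsurj y hyS
      refine Finset.mem_image.2 ⟨i, ?_, hi⟩
      rw [Finset.mem_Ioi]
      rw [← hi, ← hi0] at hyz
      exact f.lt_iff_lt.1 hyz
    have := (Finset.card_le_card hsub).trans Finset.card_image_le
    rwa [Fin.card_Ioi] at this
  have h5 := i0.2
  have hr : ∀ t : ℤ, -(α : ℤ) ≤ t → t ≤ β → 0 ≤ (i0 : ℤ) + t ∧ (i0 : ℤ) + t < S.card := by
    intro t h6 h7
    omega
  refine ⟨fun t => if h : 0 ≤ (i0 : ℤ) + t ∧ (i0 : ℤ) + t < S.card then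
    f ⟨((i0 : ℤ) + t).toNat, by omega⟩ else 0, ?_, ?_, ?_⟩
  · simp only
    rw [dif_pos (hr 0 (by omega) (by omega))]
    rw [← hi0]
    congr 1
  · intro t h6 h7
    simp only
    rw [dif_pos (hr t h6 h7)]
    exact Finset.orderEmbOfFin_mem S rfl _
  · intro t t' h6 h7 h8
    have e1 := hr t h6 (by omega)
    have e2 := hr t' (by omega) h8
    simp only
    rw [dif_pos e1, dif_pos e2]
    have := strictMono_int_gap f.strictMono (i := ⟨((i0 : ℤ) + t).toNat, by omega⟩)
      (j := ⟨((i0 : ℤ) + t').toNat, by omega⟩) (by rw [Fin.le_def]; simp only; omega)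
    simp only at this
    omega

theorem few {ι : Type*} (A : Finset ι) (r c : ι → ℤ)
    (hinj : ∀ y ∈ A, ∀ z ∈ A, r y = r z → c y = c z → y = z) (n α : ℕ) (s : ℤ)
    (hr : ∀ z ∈ A, s ≤ r z ∧ r z < s + n) [DecidableEq ι] :
    (A.filter (fun z => (A.filter (fun y => r y = r z ∧ c y < c z)).card < α)).card ≤ n * α := by
  classical
  have h1 : (Finset.Ico s (s + n) ×ˢ Finset.range α).card = n * α := by
    rw [Finset.card_product, Int.card_Ico, Finset.card_range]
    have : (s + n - s).toNat = n := by omega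
    rw [this]
  rw [← h1]
  apply Finset.card_le_card_of_injOn
    (fun z => (r z, (A.filter (fun y => r y = r z ∧ c y < c z)).card))
  · intro z hz
    have hz' := Finset.mem_filter.1 hz
    simp only [Finset.coe_product, Set.mem_prod, Finset.coe_Ico, Set.mem_Ico, Finset.coe_range,
      Set.mem_Iio]
    exact ⟨hr z hz'.1, hz'.2⟩
  · intro y hy z hz hyz
    have hyA := (Finset.mem_filter.1 hy).1
    have hzA := (Finset.mem_filter.1 hz).1
    simp only [Prod.mk.injEq] at hyz
    obtain ⟨hrr, hcc⟩ := hyz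
    have key : ∀ y ∈ A, ∀ z ∈ A, r y = r z → c y < c z →
        (A.filter (fun x => r x = r y ∧ c x < c y)).card <
        (A.filter (fun x => r x = r z ∧ c x < c z)).card := by
      intro y hy z hz h2 h3
      apply Finset.card_lt_card
      rw [Finset.ssubset_iff_of_subset]
      · refine ⟨y, Finset.mem_filter.2 ⟨hy, h2, h3⟩, ?_⟩
        intro h4
        exact lt_irrefl _ (Finset.mem_filter.1 h4).2.2
      · intro x hx
        obtain ⟨h4, h5, h6⟩ := Finset.mem_filter.1 hx
        exact Finset.mem_filter.2 ⟨h4, h5.trans h2, h6.trans h3⟩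
    apply hinj y hyA z hzA hrr
    rcases lt_trichotomy (c y) (c z) with h2 | h2 | h2
    · have := key y hyA z hzA hrr h2
      omega
    · exact h2
    · have := key z hzA y hyA hrr.symm h2
      omega

theorem cross_upper {Q : Finset (Fin 2 → ℤ)} {a b : ℤ} {α β γ δ : ℕ}
    (hQ : ∀ p ∈ Q, (p 1 = b ∧ a - α ≤ p 0 ∧ p 0 ≤ a + β) ∨
      (p 0 = a ∧ b - γ ≤ p 1 ∧ p 1 ≤ b + δ)) (n : ℕ) :
    mm Q (fun _ => n) ≤ (α + β + (γ + δ)) * n := by
  classical
  apply csSup_le'
  rintro N ⟨A, ⟨s, hs⟩, hA, rfl⟩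
  by_contra hcon
  push Not at hcon
  have hs0 : ∀ z ∈ A, s 0 ≤ z 0 ∧ z 0 < s 0 + n := fun z hz => hs z hz 0
  have hs1 : ∀ z ∈ A, s 1 ≤ z 1 ∧ z 1 < s 1 + n := fun z hz => hs z hz 1
  have f1 := few A (fun z => z 1) (fun z => z 0) (fun y _ z _ h1 h2 => ext2 h2 h1) n α (s 1) hs1
  have f2 := few A (fun z => z 1) (fun z => -z 0)
    (fun y _ z _ h1 h2 => ext2 (neg_injective h2) h1) n β (s 1) hs1
  have f3 := few A (fun z => z 0) (fun z => z 1) (fun y _ z _ h1 h2 => ext2 h1 h2) n γ (s 0) hs0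
  have f4 := few A (fun z => z 0) (fun z => -z 1)
    (fun y _ z _ h1 h2 => ext2 h1 (neg_injective h2)) n δ (s 0) hs0
  set F1 := A.filter (fun z => (A.filter (fun y => y 1 = z 1 ∧ y 0 < z 0)).card < α) with hF1
  set F2 := A.filter (fun z => (A.filter (fun y => y 1 = z 1 ∧ -y 0 < -z 0)).card < β) with hF2
  set F3 := A.filter (fun z => (A.filter (fun y => y 0 = z 0 ∧ y 1 < z 1)).card < γ) with hF3
  set F4 := A.filter (fun z => (A.filter (fun y => y 0 = z 0 ∧ -y 1 < -z 1)).card < δ) with hF4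
  have hz : ∃ z ∈ A, z ∉ F1 ∧ z ∉ F2 ∧ z ∉ F3 ∧ z ∉ F4 := by
    by_contra hno
    push Not at hno
    have hsub : A ⊆ (F1 ∪ F2) ∪ (F3 ∪ F4) := by
      intro z hz
      rw [Finset.mem_union, Finset.mem_union, Finset.mem_union]
      by_cases h1 : z ∈ F1
      · exact Or.inl (Or.inl h1)
      · by_cases h2 : z ∈ F2
        · exact Or.inl (Or.inr h2)
        · by_cases h3 : z ∈ F3
          · exact Or.inr (Or.inl h3)
          · exact Or.inr (Or.inr (hno z hz h1 h2 h3))
    have h1 := Finset.card_le_card hsub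
    have h2 := Finset.card_union_le (F1 ∪ F2) (F3 ∪ F4)
    have h3 := Finset.card_union_le F1 F2
    have h4 := Finset.card_union_le F3 F4
    have h5 : (α + β + (γ + δ)) * n = n * α + n * β + (n * γ + n * δ) := by ring
    omega
  obtain ⟨z, hzA, hz1, hz2, hz3, hz4⟩ := hz
  have g1 : α ≤ (A.filter (fun y => y 1 = z 1 ∧ y 0 < z 0)).card := by
    by_contra hno
    exact hz1 (Finset.mem_filter.2 ⟨hzA, by omega⟩)
  have g2 : β ≤ (A.filter (fun y => y 1 = z 1 ∧ -y 0 < -z 0)).card := by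
    by_contra hno
    exact hz2 (Finset.mem_filter.2 ⟨hzA, by omega⟩)
  have g3 : γ ≤ (A.filter (fun y => y 0 = z 0 ∧ y 1 < z 1)).card := by
    by_contra hno
    exact hz3 (Finset.mem_filter.2 ⟨hzA, by omega⟩)
  have g4 : δ ≤ (A.filter (fun y => y 0 = z 0 ∧ -y 1 < -z 1)).card := by
    by_contra hno
    exact hz4 (Finset.mem_filter.2 ⟨hzA, by omega⟩)
  -- the row and the column of `z`
  set R := (A.filter (fun y => y 1 = z 1)).image (fun y => y 0) with hR
  set C := (A.filter (fun y => y 0 = z 0)).image (fun y => y 1) with hC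
  have hRmem : ∀ t, t ∈ R → ![t, z 1] ∈ A := by
    intro t ht
    obtain ⟨y, hy, rfl⟩ := Finset.mem_image.1 ht
    obtain ⟨hyA, hy1⟩ := Finset.mem_filter.1 hy
    have : ![y 0, z 1] = y := ext2 rfl hy1.symm
    rw [this]
    exact hyA
  have hCmem : ∀ t, t ∈ C → ![z 0, t] ∈ A := by
    intro t ht
    obtain ⟨y, hy, rfl⟩ := Finset.mem_image.1 ht
    obtain ⟨hyA, hy1⟩ := Finset.mem_filter.1 hy
    have : ![z 0, y 1] = y := ext2 hy1.symm rfl
    rw [this]
    exact hyA
  have hcardle : ∀ (G : Finset (Fin 2 → ℤ)) (H : Finset ℤ) (c : (Fin 2 → ℤ) → ℤ),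
      (∀ y ∈ G, c y ∈ H) → (∀ y ∈ G, ∀ y' ∈ G, c y = c y' → y = y') → G.card ≤ H.card := by
    intro G H c h1 h2
    exact Finset.card_le_card_of_injOn c h1 (fun y hy y' hy' h => h2 y hy y' hy' h)
  have k1 : α ≤ (R.filter (fun y => y < z 0)).card := by
    refine g1.trans (hcardle _ _ (fun y => y 0) ?_ ?_)
    · intro y hy
      obtain ⟨hyA, hy1, hy0⟩ := Finset.mem_filter.1 hy
      exact Finset.mem_filter.2 ⟨Finset.mem_image_of_mem _ (Finset.mem_filter.2 ⟨hyA, hy1⟩), hy0⟩
    · intro y hy y' hy' h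
      have e1 := (Finset.mem_filter.1 hy).2.1
      have e2 := (Finset.mem_filter.1 hy').2.1
      exact ext2 h (e1.trans e2.symm)
  have k2 : β ≤ (R.filter (fun y => z 0 < y)).card := by
    refine g2.trans (hcardle _ _ (fun y => y 0) ?_ ?_)
    · intro y hy
      obtain ⟨hyA, hy1, hy0⟩ := Finset.mem_filter.1 hy
      exact Finset.mem_filter.2 ⟨Finset.mem_image_of_mem _ (Finset.mem_filter.2 ⟨hyA, hy1⟩),
        neg_lt_neg_iff.1 hy0⟩
    · intro y hy y' hy' h
      have e1 := (Finset.mem_filter.1 hy).2.1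
      have e2 := (Finset.mem_filter.1 hy').2.1
      exact ext2 h (e1.trans e2.symm)
  have k3 : γ ≤ (C.filter (fun y => y < z 1)).card := by
    refine g3.trans (hcardle _ _ (fun y => y 1) ?_ ?_)
    · intro y hy
      obtain ⟨hyA, hy1, hy0⟩ := Finset.mem_filter.1 hy
      exact Finset.mem_filter.2 ⟨Finset.mem_image_of_mem _ (Finset.mem_filter.2 ⟨hyA, hy1⟩), hy0⟩
    · intro y hy y' hy' h
      have e1 := (Finset.mem_filter.1 hy).2.1
      have e2 := (Finset.mem_filter.1 hy').2.1
      exact ext2 (e1.trans e2.symm) h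
  have k4 : δ ≤ (C.filter (fun y => z 1 < y)).card := by
    refine g4.trans (hcardle _ _ (fun y => y 1) ?_ ?_)
    · intro y hy
      obtain ⟨hyA, hy1, hy0⟩ := Finset.mem_filter.1 hy
      exact Finset.mem_filter.2 ⟨Finset.mem_image_of_mem _ (Finset.mem_filter.2 ⟨hyA, hy1⟩),
        neg_lt_neg_iff.1 hy0⟩
    · intro y hy y' hy' h
      have e1 := (Finset.mem_filter.1 hy).2.1
      have e2 := (Finset.mem_filter.1 hy').2.1
      exact ext2 (e1.trans e2.symm) h
  have hzR : z 0 ∈ R := Finset.mem_image_of_mem _ (Finset.mem_filter.2 ⟨hzA, rfl⟩)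
  have hzC : z 1 ∈ C := Finset.mem_image_of_mem _ (Finset.mem_filter.2 ⟨hzA, rfl⟩)
  obtain ⟨g, hg0, hgR, hgg⟩ := line hzR k1 k2
  obtain ⟨g', hg0', hgC, hgg'⟩ := line hzC k3 k4
  apply hA
  refine ⟨fun p => if p 1 = b then ![g (p 0 - a), z 1] else ![z 0, g' (p 1 - b)], ?_, ?_⟩
  · intro p hp
    simp only
    split_ifs with h1
    · apply hRmem
      rcases hQ p hp with h2 | h2
      · exact hgR _ (by omega) (by omega)
      · exact hgR _ (by omega) (by omega)
    · apply hCmem
      rcases hQ p hp with h2 | h2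
      · exact absurd h2.1 h1
      · exact hgC _ (by omega) (by omega)
  · intro p hp q hq l hlt
    have hp2 := hQ p hp
    have hq2 := hQ q hq
    rcases fin2_cases l with rfl | rfl
    · simp only
      split_ifs with h1 h2 h2
      · have := hgg (p 0 - a) (q 0 - a) (by omega) (by omega) (by omega)
        simp only [Matrix.cons_val_zero]
        omega
      · have := hgg 0 (q 0 - a) (by omega) (by omega) (by omega)
        simp only [Matrix.cons_val_zero]
        omega
      · have := hgg (p 0 - a) 0 (by omega) (by omega) (by omega)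
        simp only [Matrix.cons_val_zero]
        omega
      · omega
    · simp only
      split_ifs with h1 h2 h2
      · omega
      · have := hgg' (p 1 - b) 0 (by omega) (by omega) (by omega)
        show q 1 - p 1 ≤ z 1 - g' (p 1 - b)
        omega
      · have := hgg' 0 (q 1 - b) (by omega) (by omega) (by omega)
        show q 1 - p 1 ≤ g' (q 1 - b) - z 1
        omega
      · have := hgg' (p 1 - b) (q 1 - b) (by omega) (by omega) (by omega)
        show q 1 - p 1 ≤ g' (q 1 - b) - g' (p 1 - b)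
        omega

end Pool.Agent.Lib.MPb1c185
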