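import Mathlib

/-!
Definitions for MP_b1c185_co: `d`-dimensional 0-1 matrices, containment, contraction,
interval minors and the extremal function `m(n, P, d)`.
-/

namespace Pool.Agent.Lib.MPb1c185

/-- A `d`-dimensional `n 0 × ⋯ × n (d-1)` 0-1 matrix (indices start at `0`): the entry at the index
vector `x` is `1` exactly when `A x = true`. -/
abbrev Mat (d : ℕ) (n : Fin d → ℕ) : Type := (∀ l : Fin d, Fin (n l)) → Bool

/-- The number of ones of a 0-1 matrix. -/
def ones {d : ℕ} {n : Fin d → ℕ} (A : Mat d n) : ℕ :=
  (Finset.univ.filter (fun x => A x = true)).card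

/-- `A` contains `P`: indices can be chosen in each direction (in their natural order, by the
strictly increasing maps `s l`) so that the chosen submatrix of `A` has a one wherever `P` has a
one, that is, it turns into `P` after some of its ones are changed to zeros. -/
def Contains {d : ℕ} {n k : Fin d → ℕ} (A : Mat d n) (P : Mat d k) : Prop :=
  ∃ s : ∀ l : Fin d, Fin (k l) → Fin (n l), (∀ l, StrictMono (s l)) ∧
    ∀ p, P p = true → A (fun l => s l (p l)) = true

/-- `B` arises from `A` by contractions: in each direction `l` the `l`-cross sections of `A` are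
grouped into nonempty groups of consecutive ones (the fibres of the monotone surjection `c l`), and
each group is replaced by one cross section, an entry of which is `1` exactly when at least one of
the merged entries is `1`. -/
def IsContraction {d : ℕ} {n n' : Fin d → ℕ} (A : Mat d n) (B : Mat d n') : Prop :=
  ∃ c : ∀ l : Fin d, Fin (n l) → Fin (n' l),
    (∀ l, Monotone (c l)) ∧ (∀ l, Function.Surjective (c l)) ∧
    ∀ y, B y = true ↔ ∃ x, A x = true ∧ ∀ l, c l (x l) = y l

/-- `A` contains `P` as an interval minor: contractions transform `A` into a matrix that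
contains `P`. -/
def IntervalMinor {d : ℕ} {n k : Fin d → ℕ} (A : Mat d n) (P : Mat d k) : Prop :=
  ∃ (n' : Fin d → ℕ) (B : Mat d n'), IsContraction A B ∧ Contains B P

/-- `m(n, P, d)`: the largest number of ones in a `d`-dimensional `n × ⋯ × n` 0-1 matrix that
avoids `P` as an interval minor (`0` if there is no such matrix). -/
noncomputable def exMinor {d : ℕ} {k : Fin d → ℕ} (n : ℕ) (P : Mat d k) : ℕ :=
  sSup {N : ℕ | ∃ A : Mat d (fun _ => n), ¬ IntervalMinor A P ∧ ones A = N}

end Pool.Agent.Lib.MPb1c185
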