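import Pool.Agent.Lib.MP_b1c185_co.Compose

/-!
Numbers of the form `s ^ a * t ^ b` and convergence from two multiplicative inequalities.
-/

namespace Pool.Agent.Lib.MPb1c185

open Filter Topology

/-- Small positive values of `j * β - i * α`. -/
theorem small_comb {α β : ℝ} (hα : 0 < α) (hβ : 0 < β)
    (hind : ∀ i j : ℕ, 1 ≤ j → (j : ℝ) * β ≠ (i : ℝ) * α) {ε : ℝ} (hε : 0 < ε) :
    ∃ i j : ℕ, 1 ≤ j ∧ 0 < (j : ℝ) * β - (i : ℝ) * α ∧ (j : ℝ) * β - (i : ℝ) * α < ε := by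
  obtain ⟨n, hn⟩ := exists_nat_gt (α / ε)
  have hnpos : 0 < n := by
    have : (0 : ℝ) < n := lt_trans (div_pos hα hε) hn
    exact_mod_cast this
  obtain ⟨k, hk, -, hkk⟩ := Real.exists_nat_abs_mul_sub_round_le (β / α) hnpos
  have hround : 0 ≤ round ((k : ℝ) * (β / α)) := by
    rw [round_eq]
    apply Int.floor_nonneg.2
    positivity
  obtain ⟨i, hi⟩ := Int.eq_ofNat_of_zero_le hround
  rw [hi] at hkk
  set η : ℝ := (k : ℝ) * β - (i : ℝ) * α with hη
  have hη0 : η ≠ 0 := by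
    intro h0
    exact hind i k hk (by linarith)
  have h1 : (k : ℝ) * (β / α) - ((i : ℤ) : ℝ) = η / α := by
    rw [hη]
    push_cast
    field_simp
  rw [h1, abs_div, abs_of_pos hα, div_le_iff₀ hα] at hkk
  have h2 : |η| < ε := by
    refine lt_of_le_of_lt hkk ?_
    have h3 : (1 : ℝ) / (n + 1) * α < ε := by
      rw [div_lt_iff₀ hε] at hn
      rw [one_div, inv_mul_lt_iff₀ (by positivity)]
      nlinarith
    exact h3
  rcases lt_or_gt_of_ne hη0 with h3 | h3
  · -- negative: correct `β` by multiples of `-η`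
    set δ : ℝ := -η with hδ
    have hδ0 : 0 < δ := by linarith
    have hδε : δ < ε := by
      rw [abs_of_neg h3] at h2
      exact h2
    set m : ℕ := ⌊β / δ⌋₊ with hm
    have hm1 : (m : ℝ) * δ ≤ β := by
      have := Nat.floor_le (div_nonneg hβ.le hδ0.le)
      rw [le_div_iff₀ hδ0] at this
      exact this
    have hm2 : β < ((m : ℝ) + 1) * δ := by
      have := Nat.lt_floor_add_one (β / δ)
      rw [div_lt_iff₀ hδ0] at this
      exact this
    refine ⟨m * i, 1 + m * k, by omega, ?_, ?_⟩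
    · have h4 : (((1 + m * k : ℕ) : ℝ)) * β - ((m * i : ℕ) : ℝ) * α = β - m * δ := by
        rw [hδ, hη]
        push_cast
        ring
      rw [h4]
      have h5 : β - m * δ ≠ 0 := by
        intro h6
        rw [← h4] at h6
        exact hind (m * i) (1 + m * k) (by omega) (by linarith)
      exact lt_of_le_of_ne (by linarith) (Ne.symm h5)
    · have h4 : (((1 + m * k : ℕ) : ℝ)) * β - ((m * i : ℕ) : ℝ) * α = β - m * δ := by
        rw [hδ, hη]
        push_cast
        ring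
      rw [h4]
      linarith
  · refine ⟨i, k, hk, h3, ?_⟩
    rw [abs_of_pos h3] at h2
    exact h2

/-- The numbers `s ^ a * t ^ b` are dense in the multiplicative sense. -/
theorem dense_mul {s t : ℕ} (hs : 2 ≤ s) (ht : 2 ≤ t)
    (hst : ∀ a b : ℕ, 1 ≤ b → t ^ b ≠ s ^ a) {ε : ℝ} (hε : 0 < ε) :
    ∃ N : ℕ, ∀ n : ℕ, N ≤ n → ∃ a b : ℕ, s ^ a * t ^ b ≤ n ∧
      (n : ℝ) < (1 + ε) * ((s : ℝ) ^ a * (t : ℝ) ^ b) := by
  have hs' : (1 : ℝ) < s := by exact_mod_cast hs
  have ht' : (1 : ℝ) < t := by exact_mod_cast ht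
  set α := Real.log s with hα
  set β := Real.log t with hβ
  have hα0 : 0 < α := Real.log_pos hs'
  have hβ0 : 0 < β := Real.log_pos ht'
  have hlog : 0 < Real.log (1 + ε) := Real.log_pos (by linarith)
  have hind : ∀ i j : ℕ, 1 ≤ j → (j : ℝ) * β ≠ (i : ℝ) * α := by
    intro i j hj h
    apply hst i j hj
    have h1 : Real.log ((t : ℝ) ^ j) = Real.log ((s : ℝ) ^ i) := by
      rw [Real.log_pow, Real.log_pow]
      exact h
    have h2 : (t : ℝ) ^ j = (s : ℝ) ^ i :=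
      Real.log_injOn_pos (Set.mem_Ioi.2 (by positivity)) (Set.mem_Ioi.2 (by positivity)) h1
    exact_mod_cast h2
  obtain ⟨i, j, hj, hδ0, hδ1⟩ := small_comb hα0 hβ0 hind hlog
  set δ := (j : ℝ) * β - (i : ℝ) * α with hδ
  set M0 : ℕ := ⌊α / δ⌋₊ with hM0
  refine ⟨s ^ (i * M0), fun n hn => ?_⟩
  have hn0 : 0 < n := lt_of_lt_of_le (by positivity) hn
  have hn' : (0 : ℝ) < n := by exact_mod_cast hn0
  set a0 := Nat.log s n with ha0
  have h1 : s ^ a0 ≤ n := Nat.pow_log_le_self s hn0.ne'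
  have h2 : n < s ^ (a0 + 1) := Nat.lt_pow_succ_log_self (by omega) n
  have h3 : i * M0 ≤ a0 := by
    rw [ha0]
    exact Nat.le_log_of_pow_le (by omega) hn
  have h1' : (a0 : ℝ) * α ≤ Real.log n := by
    rw [hα, ← Real.log_pow]
    apply Real.log_le_log (by positivity)
    exact_mod_cast h1
  have h2' : Real.log n < (a0 : ℝ) * α + α := by
    have : Real.log n < Real.log ((s : ℝ) ^ (a0 + 1)) := by
      apply Real.log_lt_log hn'
      exact_mod_cast h2
    rw [Real.log_pow] at this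
    push_cast at this
    linarith
  set M : ℕ := ⌊(Real.log n - a0 * α) / δ⌋₊ with hM
  have hM1 : (M : ℝ) * δ ≤ Real.log n - a0 * α := by
    have := Nat.floor_le (div_nonneg (by linarith : 0 ≤ Real.log n - a0 * α) hδ0.le)
    rw [le_div_iff₀ hδ0] at this
    exact this
  have hM2 : Real.log n - a0 * α < ((M : ℝ) + 1) * δ := by
    have := Nat.lt_floor_add_one ((Real.log n - a0 * α) / δ)
    rw [div_lt_iff₀ hδ0] at this
    exact this
  have hMM : M ≤ M0 := by
    apply Nat.floor_mono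
    exact div_le_div_of_nonneg_right (by linarith) hδ0.le
  have hiM : i * M ≤ a0 := (Nat.mul_le_mul_left i hMM).trans h3
  have hval : Real.log ((s : ℝ) ^ (a0 - i * M) * (t : ℝ) ^ (j * M)) = a0 * α + M * δ := by
    rw [Real.log_mul (by positivity) (by positivity), Real.log_pow, Real.log_pow,
      Nat.cast_sub hiM, hδ]
    push_cast
    ring
  have hpos : (0 : ℝ) < (s : ℝ) ^ (a0 - i * M) * (t : ℝ) ^ (j * M) := by positivity
  refine ⟨a0 - i * M, j * M, ?_, ?_⟩
  · have : (s : ℝ) ^ (a0 - i * M) * (t : ℝ) ^ (j * M) ≤ n := by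
      rw [← Real.log_le_log_iff hpos hn', hval]
      linarith
    exact_mod_cast this
  · rw [← Real.log_lt_log_iff hn' (by positivity), Real.log_mul (by positivity) hpos.ne', hval]
    linarith

/-- Convergence from two multiplicative inequalities. -/
theorem conv_of_mul (f : ℕ → ℕ) (hmono : Monotone f) (d D : ℕ) (hD : ∀ n, f n ≤ D * n ^ d)
    {s t : ℕ} (hs : 2 ≤ s) (ht : 2 ≤ t) (hst : ∀ a b : ℕ, 1 ≤ b → t ^ b ≠ s ^ a)
    (h1 : ∀ n, s ^ d * f n ≤ f (s * n)) (h2 : ∀ n, t ^ d * f n ≤ f (t * n)) :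
    ∃ L : ℝ, Tendsto (fun n : ℕ => (f n : ℝ) / (n : ℝ) ^ d) atTop (𝓝 L) := by
  set u : ℕ → ℝ := fun n => (f n : ℝ) / (n : ℝ) ^ d with hu
  have hu0 : ∀ n, 0 ≤ u n := fun n => by positivity
  have huD : ∀ n, 1 ≤ n → u n ≤ D := by
    intro n hn
    have hn' : (0 : ℝ) < n := by exact_mod_cast hn
    rw [hu]
    simp only
    rw [div_le_iff₀ (by positivity)]
    exact_mod_cast hD n
  have hpow : ∀ (a b n : ℕ), (s ^ a * t ^ b) ^ d * f n ≤ f (s ^ a * t ^ b * n) := by
    intro a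
    induction a with
    | zero =>
      intro b
      induction b with
      | zero => intro n; simp
      | succ b ih =>
        intro n
        have e1 := ih n
        have e2 := h2 (s ^ 0 * t ^ b * n)
        calc (s ^ 0 * t ^ (b + 1)) ^ d * f n = t ^ d * ((s ^ 0 * t ^ b) ^ d * f n) := by ring
          _ ≤ t ^ d * f (s ^ 0 * t ^ b * n) := Nat.mul_le_mul_left _ e1
          _ ≤ f (t * (s ^ 0 * t ^ b * n)) := e2
          _ = f (s ^ 0 * t ^ (b + 1) * n) := by congr 1; ring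
    | succ a ih =>
      intro b n
      have e1 := ih b n
      have e2 := h1 (s ^ a * t ^ b * n)
      calc (s ^ (a + 1) * t ^ b) ^ d * f n = s ^ d * ((s ^ a * t ^ b) ^ d * f n) := by ring
        _ ≤ s ^ d * f (s ^ a * t ^ b * n) := Nat.mul_le_mul_left _ e1
        _ ≤ f (s * (s ^ a * t ^ b * n)) := e2
        _ = f (s ^ (a + 1) * t ^ b * n) := by congr 1; ring
  -- the supremum
  have hbdd : BddAbove (Set.range (fun n : ℕ => u (n + 1))) := by
    refine ⟨D, ?_⟩
    rintro x ⟨n, rfl⟩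
    exact huD _ (by omega)
  set L := ⨆ n : ℕ, u (n + 1) with hL
  have hle : ∀ n, 1 ≤ n → u n ≤ L := by
    intro n hn
    have := le_ciSup hbdd (n - 1)
    rwa [Nat.sub_add_cancel hn] at this
  have hL0 : 0 ≤ L := (hu0 1).trans (hle 1 le_rfl)
  refine ⟨L, ?_⟩
  rw [Metric.tendsto_atTop]
  intro ε hε
  obtain ⟨n0, hn0⟩ : ∃ n0 : ℕ, L - ε / 2 < u (n0 + 1) :=
    exists_lt_of_lt_ciSup (by linarith)
  set n1 := n0 + 1 with hn1
  -- choose η such that u n1 / (1 + η)^d is close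
  have hcont : Tendsto (fun η : ℝ => u n1 / (1 + η) ^ d) (𝓝[>] 0) (𝓝 (u n1)) := by
    have : ContinuousAt (fun η : ℝ => u n1 / (1 + η) ^ d) 0 := by
      apply ContinuousAt.div continuousAt_const
      · fun_prop
      · simp
    have h3 := this.tendsto
    simp only [add_zero, one_pow, div_one] at h3
    exact h3.mono_left nhdsWithin_le_nhds
  have hev : ∀ᶠ η in 𝓝[>] (0 : ℝ), L - ε < u n1 / (1 + η) ^ d :=
    hcont.eventually (lt_mem_nhds (by linarith))
  obtain ⟨η, hη1, hη2⟩ := (hev.and self_mem_nhdsWithin).exists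
  have hη0 : 0 < η := hη2
  obtain ⟨N, hN⟩ := dense_mul hs ht hst (ε := η / 2) (by linarith)
  obtain ⟨N2, hN2⟩ := exists_nat_gt ((1 + η / 2) / (η / 2) + 1)
  refine ⟨(N + N2 + 1) * n1 + n1, fun n hn => ?_⟩
  have hn1pos : 0 < n1 := by omega
  set q := n / n1 with hq
  have hqN : N + N2 + 1 ≤ q := by
    rw [hq, Nat.le_div_iff_mul_le hn1pos]
    exact (Nat.le_add_right _ _).trans hn
  obtain ⟨a, b, hab1, hab2⟩ := hN (q + 1) (by omega)
  have hnpos : 0 < n := lt_of_lt_of_le hn1pos ((Nat.le_add_left _ _).trans hn)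
  have hn' : (0 : ℝ) < n := by exact_mod_cast hnpos
  have hn1' : (0 : ℝ) < n1 := by exact_mod_cast hn1pos
  -- use `q` directly
  obtain ⟨a, b, hab1, hab2⟩ := hN q (by omega)
  have hle1 : s ^ a * t ^ b * n1 ≤ n := by
    calc s ^ a * t ^ b * n1 ≤ q * n1 := Nat.mul_le_mul_right _ hab1
      _ ≤ n := Nat.div_mul_le_self n n1
  have hq1 : n < (q + 1) * n1 := by
    have := Nat.lt_div_mul_add (a := n) (b := n1) hn1pos
    rw [← hq] at this
    calc n < q * n1 + n1 := this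
      _ = (q + 1) * n1 := by ring
  have hq2 : (n : ℝ) < (q + 1) * n1 := by exact_mod_cast hq1
  have hqbig : (1 + η / 2) / (η / 2) + 1 < q := by
    have : (N2 : ℝ) ≤ q := by exact_mod_cast (by omega : N2 ≤ q)
    linarith
  have hq3 : ((q : ℝ) + 1) * (1 + η / 2) ≤ (1 + η) * q := by
    have h5 : (1 + η / 2) / (η / 2) < q := by linarith
    rw [div_lt_iff₀ (by linarith)] at h5
    nlinarith
  have hprodpos : (0 : ℝ) < (s : ℝ) ^ a * (t : ℝ) ^ b := by positivity
  have hnbound : (n : ℝ) ≤ (1 + η) * ((s : ℝ) ^ a * (t : ℝ) ^ b * n1) := by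
    have h6 : (q : ℝ) * (1 + η / 2) ≤ ((q : ℝ) + 1) * (1 + η / 2) := by nlinarith
    -- n < (q+1) n1, q < (1+η/2) P
    have h7 : ((q : ℝ) + 1) ≤ (1 + η) * ((s : ℝ) ^ a * (t : ℝ) ^ b) := by
      have h8 : ((q : ℝ) + 1) * (1 + η / 2) ≤ (1 + η) * ((1 + η / 2) *
          ((s : ℝ) ^ a * (t : ℝ) ^ b)) := by
        refine hq3.trans ?_
        exact mul_le_mul_of_nonneg_left hab2.le (by linarith)
      have h9 : (1 + η) * ((1 + η / 2) * ((s : ℝ) ^ a * (t : ℝ) ^ b)) =
          ((1 + η) * ((s : ℝ) ^ a * (t : ℝ) ^ b)) * (1 + η / 2) := by ring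
      rw [h9] at h8
      exact le_of_mul_le_mul_right h8 (by linarith)
    calc (n : ℝ) ≤ (q + 1) * n1 := hq2.le
      _ ≤ ((1 + η) * ((s : ℝ) ^ a * (t : ℝ) ^ b)) * n1 :=
        mul_le_mul_of_nonneg_right h7 hn1'.le
      _ = (1 + η) * ((s : ℝ) ^ a * (t : ℝ) ^ b * n1) := by ring
  have hlow : L - ε < u n := by
    refine lt_of_lt_of_le hη1 ?_
    have h10 : (((s ^ a * t ^ b) ^ d * f n1 : ℕ) : ℝ) ≤ f n := by
      exact_mod_cast (hpow a b n1).trans (hmono hle1)
    push_cast at h10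
    rw [hu]
    simp only
    rw [div_div, div_le_div_iff₀ (by positivity) (by positivity)]
    have h11 : (n : ℝ) ^ d ≤ ((1 + η) * ((s : ℝ) ^ a * (t : ℝ) ^ b * n1)) ^ d :=
      pow_le_pow_left₀ hn'.le hnbound d
    calc (f n1 : ℝ) * (n : ℝ) ^ d ≤ f n1 * ((1 + η) * ((s : ℝ) ^ a * (t : ℝ) ^ b * n1)) ^ d :=
          mul_le_mul_of_nonneg_left h11 (Nat.cast_nonneg _)
      _ = (((s : ℝ) ^ a * (t : ℝ) ^ b) ^ d * f n1) * ((n1 : ℝ) ^ d * (1 + η) ^ d) := by
          rw [mul_pow (1 + η), mul_pow ((s : ℝ) ^ a * (t : ℝ) ^ b)]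
          ring
      _ ≤ f n * ((n1 : ℝ) ^ d * (1 + η) ^ d) :=
          mul_le_mul_of_nonneg_right h10 (by positivity)
  have hup := hle n (by omega)
  rw [Real.dist_eq, abs_lt]
  constructor
  · show -ε < u n - L
    linarith
  · show u n - L < ε
    linarith

end Pool.Agent.Lib.MPb1c185
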