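import Pool.Agent.Lib.MP_b1c185_co.Limits

/-!
The insertion argument in dimension two, for patterns with ones in the two left corners of the
bounding box and none in the two right corners.
-/

namespace Pool.Agent.Lib.MPb1c185

open Filter Topology

/-- Hypotheses on a two-dimensional pattern: it lies in `[0,w) × [0,h)`, contains the two left
corners, has a point in the last column, but neither right corner. -/
structure LeftPair (Q : Finset (Fin 2 → ℤ)) (w h : ℕ) : Prop where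
  box : ∀ q ∈ Q, 0 ≤ q 0 ∧ q 0 < w ∧ 0 ≤ q 1 ∧ q 1 < h
  sw : ∃ q ∈ Q, q 0 = 0 ∧ q 1 = 0
  nw : ∃ q ∈ Q, q 0 = 0 ∧ q 1 = h - 1
  last : ∃ q ∈ Q, q 0 = w - 1
  right : ∀ q ∈ Q, q 0 = w - 1 → q 1 ≠ 0 ∧ q 1 ≠ h - 1

/-- The map opening a gap of height `H` above row `j1`. -/
def openGap (j0 : ℤ) (H : ℕ) (a : Fin 2 → ℤ) : Fin 2 → ℤ :=
  if a 1 < j0 then a else ![a 0, a 1 + H]

theorem openGap_zero (j0 : ℤ) (H : ℕ) (a : Fin 2 → ℤ) : openGap j0 H a 0 = a 0 := by
  unfold openGap
  split_ifs <;> simp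

theorem openGap_low {j0 : ℤ} {H : ℕ} {a : Fin 2 → ℤ} (h : a 1 < j0) :
    openGap j0 H a 1 = a 1 := by
  unfold openGap
  rw [if_pos h]

theorem openGap_high {j0 : ℤ} {H : ℕ} {a : Fin 2 → ℤ} (h : j0 ≤ a 1) :
    openGap j0 H a 1 = a 1 + H := by
  unfold openGap
  rw [if_neg (not_lt.2 h)]
  simp

theorem openGap_injective (j0 : ℤ) (H : ℕ) : Function.Injective (openGap j0 H) := by
  intro a b hab
  have h0 : a 0 = b 0 := by
    rw [← openGap_zero j0 H a, ← openGap_zero j0 H b, hab]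
  have h1 : openGap j0 H a 1 = openGap j0 H b 1 := by rw [hab]
  have h2 : a 1 = b 1 := by
    rcases lt_or_ge (a 1) j0 with ha | ha <;> rcases lt_or_ge (b 1) j0 with hb | hb
    · rw [openGap_low ha, openGap_low hb] at h1; exact h1
    · rw [openGap_low ha, openGap_high hb] at h1; omega
    · rw [openGap_high ha, openGap_low hb] at h1; omega
    · rw [openGap_high ha, openGap_high hb] at h1; omega
  funext i
  fin_cases i
  · exact h0
  · exact h2

/-- The part of `A` that is kept. -/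
def outer (A : Finset (Fin 2 → ℤ)) (x0 j0 j1 : ℤ) : Finset (Fin 2 → ℤ) :=
  A.filter (fun a => x0 ≤ a 0 ∧ (a 1 < j0 ∨ j1 ≤ a 1))

theorem insert_avoid {Q : Finset (Fin 2 → ℤ)} {w h : ℕ} (hQ : LeftPair Q w h)
    {A M : Finset (Fin 2 → ℤ)} (hA : ¬ Emb Q A) (hM : ¬ Emb Q M) {x0 j0 j1 : ℤ} {H : ℕ}
    (hits : ℕ → (Fin 2 → ℤ)) (hh1 : ∀ i < h, hits i ∈ A) (hh2 : ∀ i < h, hits i 0 ≤ x0)
    (hh3 : ∀ i < h, j0 + h ≤ hits i 1 ∧ hits i 1 + h ≤ j1)
    (hh4 : ∀ i i' : ℕ, i < i' → i' < h → (i' : ℤ) - i ≤ hits i' 1 - hits i 1)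
    (hMbox : ∀ m ∈ M, m 0 < x0 ∧ j1 ≤ m 1 ∧ m 1 < j1 + H) :
    ¬ Emb Q (M ∪ (outer A x0 j0 j1).image (openGap j0 H)) := by
  classical
  rintro ⟨e, he1, he2⟩
  obtain ⟨sw, hswQ, hsw0, hsw1⟩ := hQ.sw
  obtain ⟨nw, hnwQ, hnw0, hnw1⟩ := hQ.nw
  obtain ⟨rs, hrsQ, hrs0⟩ := hQ.last
  have hrs1 := hQ.right rs hrsQ hrs0
  have hrsb := hQ.box rs hrsQ
  have hh : 0 < h := by
    have := hQ.box sw hswQ
    omega
  have hj : j0 + 2 * h ≤ j1 := by
    have := hh3 0 hh
    omega
  -- classification of images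
  have F1 : ∀ q ∈ Q, e q 0 < x0 → e q ∈ M := by
    intro q hq hlt
    rcases Finset.mem_union.1 (he1 q hq) with h1 | h1
    · exact h1
    · exfalso
      obtain ⟨a, ha, hae⟩ := Finset.mem_image.1 h1
      have := (Finset.mem_filter.1 ha).2.1
      rw [← hae, openGap_zero] at hlt
      omega
  have F2 : ∀ q ∈ Q, x0 ≤ e q 0 → ∃ a ∈ A, x0 ≤ a 0 ∧ a 0 = e q 0 ∧
      ((a 1 < j0 ∧ e q 1 = a 1) ∨ (j1 ≤ a 1 ∧ e q 1 = a 1 + H)) := by
    intro q hq hle
    rcases Finset.mem_union.1 (he1 q hq) with h1 | h1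
    · exfalso
      have := (hMbox _ h1).1
      omega
    · obtain ⟨a, ha, hae⟩ := Finset.mem_image.1 h1
      obtain ⟨haA, hax, har⟩ := Finset.mem_filter.1 ha
      refine ⟨a, haA, hax, ?_, ?_⟩
      · rw [← hae, openGap_zero]
      · rcases har with har | har
        · left
          exact ⟨har, by rw [← hae, openGap_low har]⟩
        · right
          exact ⟨har, by rw [← hae, openGap_high (by omega)]⟩
  -- step A
  have SA : ∃ q ∈ Q, x0 ≤ e q 0 := by
    by_contra hcon
    push Not at hcon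
    exact hM ⟨e, fun q hq => F1 q hq (hcon q hq), he2⟩
  -- sublemma
  have SL : e sw 0 < x0 → e nw 0 < x0 → ∀ q ∈ Q, x0 ≤ e q 0 → 0 < q 1 → q 1 < h - 1 → False := by
    intro h1 h2 q hq hx hq1 hq2
    have g1 := he2 sw hswQ q hq 1 (by omega)
    have g2 := he2 q hq nw hnwQ 1 (by omega)
    have m1 := hMbox _ (F1 sw hswQ h1)
    have m2 := hMbox _ (F1 nw hnwQ h2)
    obtain ⟨a, -, -, -, hcase⟩ := F2 q hq hx
    rcases hcase with ⟨h3, h4⟩ | ⟨h3, h4⟩ <;> omega
  -- step B
  have SB : ∀ p ∈ Q, 1 ≤ p 0 → x0 ≤ e p 0 := by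
    intro p hp hp1
    by_contra hcon
    push Not at hcon
    have g1 := he2 sw hswQ p hp 0 (by omega)
    have g2 := he2 nw hnwQ p hp 0 (by omega)
    have hsw := (by omega : e sw 0 < x0)
    have hnw := (by omega : e nw 0 < x0)
    by_cases hr : e rs 0 < x0
    · obtain ⟨q, hq, hqx⟩ := SA
      have hqb := hQ.box q hq
      have hq0 : q 0 = w - 1 := by
        by_contra hne
        have := he2 q hq rs hrsQ 0 (by omega)
        omega
      have hq1 := hQ.right q hq hq0
      exact SL hsw hnw q hq hqx (by omega) (by omega)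
    · exact SL hsw hnw rs hrsQ (by omega) (by omega) (by omega)
  -- w ≥ 2
  have hw : (2 : ℤ) ≤ w := by
    by_contra hcon
    have h1 := hQ.box sw hswQ
    have h2 := hQ.right sw hswQ (by omega)
    exact h2.1 hsw1
  -- step C
  have SC : ∃ z ∈ Q, z 0 = 0 ∧ x0 ≤ e z 0 := by
    by_contra hcon
    push Not at hcon
    have h1 := hcon sw hswQ hsw0
    have h2 := hcon nw hnwQ hnw0
    exact SL h1 h2 rs hrsQ (SB rs hrsQ (by omega)) (by omega) (by omega)
  obtain ⟨z0, hz0Q, hz00, hz0x⟩ := SC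
  -- step D
  have SD : ∀ r ∈ Q, 1 ≤ r 0 → x0 + r 0 ≤ e r 0 := by
    intro r hr hr1
    have := he2 z0 hz0Q r hr 0 (by omega)
    omega
  choose! g hgA hg1 hg2 hg3 using F2
  -- step E
  apply hA
  refine ⟨fun q => if e q 0 < x0 then hits (q 1).toNat else g q, ?_, ?_⟩
  · intro q hq
    simp only
    split_ifs with hlt
    · apply hh1
      have := hQ.box q hq
      omega
    · exact hgA q hq (by omega)
  · intro p hp q hq l hlt
    have hpb := hQ.box p hp
    have hqb := hQ.box q hq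
    have hl : l = 0 ∨ l = 1 := by
      fin_cases l
      · left; rfl
      · right; rfl
    rcases hl with rfl | rfl
    · have hqx : x0 ≤ e q 0 := SB q hq (by omega)
      have hq' : ¬ e q 0 < x0 := by omega
      simp only
      rw [if_neg hq']
      have hgq := hg2 q hq hqx
      split_ifs with hpx
      · have hp0 : p 0 = 0 := by
          by_contra hne
          have := SB p hp (by omega)
          omega
        have := hh2 (p 1).toNat (by omega)
        have := SD q hq (by omega)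
        omega
      · have hgp := hg2 p hp (by omega)
        have := he2 p hp q hq 0 hlt
        omega
    · have hstep := he2 p hp q hq 1 hlt
      simp only
      split_ifs with hqx hpx hpx
      · have := hh4 (p 1).toNat (q 1).toNat (by omega) (by omega)
        omega
      · have m1 := hMbox _ (F1 q hq hqx)
        have m2 := hg3 p hp (by omega)
        have m3 := hh3 (q 1).toNat (by omega)
        rcases m2 with ⟨m4, m5⟩ | ⟨m4, m5⟩ <;> omega
      · have m1 := hMbox _ (F1 p hp hpx)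
        have m2 := hg3 q hq (by omega)
        have m3 := hh3 (p 1).toNat (by omega)
        rcases m2 with ⟨m4, m5⟩ | ⟨m4, m5⟩ <;> omega
      · have m1 := hg3 p hp (by omega)
        have m2 := hg3 q hq (by omega)
        rcases m1 with ⟨m4, m5⟩ | ⟨m4, m5⟩ <;> rcases m2 with ⟨m6, m7⟩ | ⟨m6, m7⟩ <;> omega

end Pool.Agent.Lib.MPb1c185
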