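import Pool.Agent.Lib.MP_b1c185_co.Cross

/-!
Iterated removal of the first and last points on lines, in any dimension.
-/

namespace Pool.Agent.Lib.MPb1c185

open Filter Topology

/-- The points of `A` on the `l`-line through `a`. -/
noncomputable def onLine {d : ℕ} (A : Finset (Fin d → ℤ)) (l : Fin d) (a : Fin d → ℤ) :
    Finset (Fin d → ℤ) := by
  classical
  exact A.filter (fun b => ∀ j, j ≠ l → b j = a j)

theorem mem_onLine {d : ℕ} {A : Finset (Fin d → ℤ)} {l : Fin d} {a b : Fin d → ℤ} :
    b ∈ onLine A l a ↔ b ∈ A ∧ ∀ j, j ≠ l → b j = a j := by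
  classical
  unfold onLine
  rw [Finset.mem_filter]

theorem onLine_inj {d : ℕ} {A : Finset (Fin d → ℤ)} {l : Fin d} {a b b' : Fin d → ℤ}
    (hb : b ∈ onLine A l a) (hb' : b' ∈ onLine A l a) (h : b l = b' l) : b = b' := by
  funext j
  by_cases hj : j = l
  · rw [hj]; exact h
  · rw [(mem_onLine.1 hb).2 j hj, (mem_onLine.1 hb').2 j hj]

/-- The points of `A` with at least `α` points below and `β` points above on their `l`-line. -/
noncomputable def trim {d : ℕ} (A : Finset (Fin d → ℤ)) (l : Fin d) (α β : ℕ) :
    Finset (Fin d → ℤ) := by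
  classical
  exact A.filter (fun a => α ≤ ((onLine A l a).filter (fun b => b l < a l)).card ∧
    β ≤ ((onLine A l a).filter (fun b => a l < b l)).card)

theorem mem_trim {d : ℕ} {A : Finset (Fin d → ℤ)} {l : Fin d} {α β : ℕ} {a : Fin d → ℤ} :
    a ∈ trim A l α β ↔ a ∈ A ∧ α ≤ ((onLine A l a).filter (fun b => b l < a l)).card ∧
    β ≤ ((onLine A l a).filter (fun b => a l < b l)).card := by
  classical
  unfold trim
  rw [Finset.mem_filter]

theorem trim_sub {d : ℕ} {A : Finset (Fin d → ℤ)} {l : Fin d} {α β : ℕ} : trim A l α β ⊆ A :=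
  fun _ ha => (mem_trim.1 ha).1

theorem trim_range {d : ℕ} {A : Finset (Fin d → ℤ)} {l : Fin d} {α β : ℕ} {s t : ℤ}
    (hA : ∀ a ∈ A, s ≤ a l ∧ a l < t) {a : Fin d → ℤ} (ha : a ∈ trim A l α β) :
    s + α ≤ a l ∧ a l < t - β := by
  classical
  obtain ⟨haA, h1, h2⟩ := mem_trim.1 ha
  have haa := hA a haA
  constructor
  · have h3 : ((onLine A l a).filter (fun b => b l < a l)).card ≤ (Finset.Ico s (a l)).card := by
      refine Finset.card_le_card_of_injOn (fun b => b l) (fun b hb => ?_)
        (fun b hb b' hb' h => ?_)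
      · obtain ⟨hb1, hb2⟩ := Finset.mem_filter.1 hb
        simp only [Finset.coe_Ico, Set.mem_Ico]
        exact ⟨(hA b (mem_onLine.1 hb1).1).1, hb2⟩
      · exact onLine_inj (Finset.mem_filter.1 hb).1 (Finset.mem_filter.1 hb').1 h
    rw [Int.card_Ico] at h3
    omega
  · have h3 : ((onLine A l a).filter (fun b => a l < b l)).card ≤
        (Finset.Ioo (a l) t).card := by
      refine Finset.card_le_card_of_injOn (fun b => b l) (fun b hb => ?_)
        (fun b hb b' hb' h => ?_)
      · obtain ⟨hb1, hb2⟩ := Finset.mem_filter.1 hb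
        simp only [Finset.coe_Ioo, Set.mem_Ioo]
        exact ⟨hb2, (hA b (mem_onLine.1 hb1).1).2⟩
      · exact onLine_inj (Finset.mem_filter.1 hb).1 (Finset.mem_filter.1 hb').1 h
    rw [Int.card_Ioo] at h3
    omega

theorem trim_card {d : ℕ} (A : Finset (Fin d → ℤ)) (l : Fin d) (α β n : ℕ) (s : ℤ)
    (hA : ∀ a ∈ A, s ≤ a l ∧ a l < s + n) :
    A.card ≤ (trim A l α β).card +
      (n - (n - (α + β))) * (A.image (fun a => Function.update a l 0)).card := by
  classical
  have h1 : A.card ≤ (trim A l α β).card + (A \ trim A l α β).card := by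
    have := Finset.card_sdiff_add_card_inter A (trim A l α β)
    have h2 := Finset.card_le_card (Finset.inter_subset_right : A ∩ trim A l α β ⊆ trim A l α β)
    omega
  have h2 : (A \ trim A l α β).card ≤
      (n - (n - (α + β))) * ((A \ trim A l α β).image (fun a => Function.update a l 0)).card := by
    apply Finset.card_le_mul_card_image
    intro b hb
    obtain ⟨a, ha, rfl⟩ := Finset.mem_image.1 hb
    have haA := (Finset.mem_sdiff.1 ha).1
    set F := (A \ trim A l α β).filter
      (fun x => Function.update x l 0 = Function.update a l 0) with hF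
    have hFline : ∀ x ∈ F, x ∈ onLine A l a := by
      intro x hx
      obtain ⟨hx1, hx2⟩ := Finset.mem_filter.1 hx
      refine mem_onLine.2 ⟨(Finset.mem_sdiff.1 hx1).1, fun j hj => ?_⟩
      have := congrFun hx2 j
      rwa [Function.update_of_ne hj, Function.update_of_ne hj] at this
    have hlineeq : ∀ x ∈ onLine A l a, onLine A l x = onLine A l a := by
      intro x hx
      ext y
      rw [mem_onLine, mem_onLine]
      constructor
      · rintro ⟨hy, hy2⟩
        exact ⟨hy, fun j hj => (hy2 j hj).trans ((mem_onLine.1 hx).2 j hj)⟩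
      · rintro ⟨hy, hy2⟩
        exact ⟨hy, fun j hj => (hy2 j hj).trans ((mem_onLine.1 hx).2 j hj).symm⟩
    have hn : F.card ≤ n := by
      have : F.card ≤ (Finset.Ico s (s + n)).card := by
        refine Finset.card_le_card_of_injOn (fun b => b l) (fun b hb => ?_)
          (fun b hb b' hb' h => ?_)
        · simp only [Finset.coe_Ico, Set.mem_Ico]
          exact hA b (mem_onLine.1 (hFline b hb)).1
        · exact onLine_inj (hFline b hb) (hFline b' hb') h
      rw [Int.card_Ico] at this
      omega
    have hαβ : F.card ≤ α + β := by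
      have f1 := few (onLine A l a) (fun _ => 0) (fun z => z l)
        (fun y hy z hz _ h => onLine_inj hy hz h) 1 α 0 (fun z _ => by simp)
      have f2 := few (onLine A l a) (fun _ => 0) (fun z => -z l)
        (fun y hy z hz _ h => onLine_inj hy hz (neg_injective h)) 1 β 0 (fun z _ => by simp)
      have hsub : F ⊆ (onLine A l a).filter
            (fun z => ((onLine A l a).filter (fun y => (0:ℤ) = 0 ∧ y l < z l)).card < α) ∪
          (onLine A l a).filter
            (fun z => ((onLine A l a).filter (fun y => (0:ℤ) = 0 ∧ -y l < -z l)).card < β) := by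
        intro x hx
        have hxl := hFline x hx
        have hxn := (Finset.mem_sdiff.1 (Finset.mem_filter.1 hx).1).2
        rw [mem_trim, hlineeq x hxl] at hxn
        rw [Finset.mem_union, Finset.mem_filter, Finset.mem_filter]
        by_contra hcon
        push Not at hcon
        apply hxn
        refine ⟨(mem_onLine.1 hxl).1, ?_, ?_⟩
        · have := hcon.1 hxl
          simpa using this
        · have := hcon.2 hxl
          simpa using this
      have := (Finset.card_le_card hsub).trans (Finset.card_union_le _ _)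
      omega
    omega
  have h3 : ((A \ trim A l α β).image (fun a => Function.update a l 0)).card ≤
      (A.image (fun a => Function.update a l 0)).card :=
    Finset.card_le_card (Finset.image_subset_image Finset.sdiff_subset)
  have h4 := Nat.mul_le_mul_left (n - (n - (α + β))) h3
  omega

/-- Iterated trimming in the order given by `σ`. -/
noncomputable def iter {d : ℕ} (A : Finset (Fin d → ℤ)) (σ : Fin d → Fin d) (α β : Fin d → ℕ) :
    ℕ → Finset (Fin d → ℤ)
  | 0 => A
  | i + 1 => if h : i < d then trim (iter A σ α β i) (σ ⟨i, h⟩) (α (σ ⟨i, h⟩)) (β (σ ⟨i, h⟩))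
      else iter A σ α β i

theorem iter_sub {d : ℕ} (A : Finset (Fin d → ℤ)) (σ : Fin d → Fin d) (α β : Fin d → ℕ) (i : ℕ) :
    iter A σ α β (i + 1) ⊆ iter A σ α β i := by
  rw [iter]
  split_ifs with h
  · exact trim_sub
  · exact fun _ ha => ha

theorem iter_box {d : ℕ} {A : Finset (Fin d → ℤ)} (σ : Fin d → Fin d) (α β : Fin d → ℕ)
    {s : Fin d → ℤ} {n : Fin d → ℕ} (hA : ∀ a ∈ A, ∀ l, s l ≤ a l ∧ a l < s l + n l) (i : ℕ) :
    ∀ a ∈ iter A σ α β i, (∀ l, s l ≤ a l ∧ a l < s l + n l) ∧
      ∀ j : Fin d, (j : ℕ) < i → s (σ j) + α (σ j) ≤ a (σ j) ∧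
        a (σ j) < s (σ j) + n (σ j) - β (σ j) := by
  induction i with
  | zero =>
    intro a ha
    exact ⟨hA a ha, fun j hj => absurd hj (Nat.not_lt_zero _)⟩
  | succ i ih =>
    intro a ha
    have ha' := iter_sub A σ α β i ha
    refine ⟨(ih a ha').1, fun j hj => ?_⟩
    rcases Nat.lt_succ_iff_lt_or_eq.1 hj with h | h
    · exact (ih a ha').2 j h
    · rw [iter] at ha
      have hi : i < d := by rw [← h]; exact j.2
      rw [dif_pos hi] at ha
      have hji : (⟨i, hi⟩ : Fin d) = j := Fin.ext h.symm
      rw [hji] at ha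
      have h2 := trim_range (s := s (σ j)) (t := s (σ j) + n (σ j))
        (fun b hb => (ih b hb).1 (σ j)) ha
      exact h2

theorem iter_card {d : ℕ} {A : Finset (Fin d → ℤ)} (σ : Equiv.Perm (Fin d)) (α β : Fin d → ℕ)
    {s : Fin d → ℤ} {n : Fin d → ℕ} (hA : ∀ a ∈ A, ∀ l, s l ≤ a l ∧ a l < s l + n l) (i : ℕ)
    (hi : i ≤ d) :
    A.card + ∏ j : Fin d, (if (j : ℕ) < i then n (σ j) - (α (σ j) + β (σ j)) else n (σ j)) ≤
      (iter A σ α β i).card + ∏ l, n l := by
  classical
  induction i with
  | zero =>
    simp [iter, Equiv.prod_comp σ n]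
  | succ i ih =>
    have ih' := ih (by omega)
    have hid : i < d := hi
    set l : Fin d := ⟨i, hid⟩ with hl
    have hbox := iter_box (A := A) σ α β hA i
    have h1 := trim_card (iter A σ α β i) (σ l) (α (σ l)) (β (σ l)) (n (σ l)) (s (σ l))
      (fun a ha => (hbox a ha).1 (σ l))
    have h2 : iter A σ α β (i + 1) = trim (iter A σ α β i) (σ l) (α (σ l)) (β (σ l)) := by
      rw [iter, dif_pos hid]
    rw [← h2] at h1
    -- number of lines
    set L : ℕ := ∏ j ∈ Finset.univ.erase l,
      (if (j : ℕ) < i then n (σ j) - (α (σ j) + β (σ j)) else n (σ j)) with hL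
    have h3 : ((iter A σ α β i).image (fun a => Function.update a (σ l) 0)).card ≤ L := by
      set I : Fin d → Finset ℤ := fun m => if m = σ l then {0} else
        if ((σ.symm m : Fin d) : ℕ) < i then Finset.Ico (s m + α m) (s m + n m - β m)
        else Finset.Ico (s m) (s m + n m) with hI
      have hsub : (iter A σ α β i).image (fun a => Function.update a (σ l) 0) ⊆
          Fintype.piFinset I := by
        intro y hy
        obtain ⟨a, ha, rfl⟩ := Finset.mem_image.1 hy
        rw [Fintype.mem_piFinset]
        intro m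
        simp only [hI]
        by_cases hm : m = σ l
        · rw [if_pos hm, hm]
          simp
        · rw [if_neg hm, Function.update_of_ne hm]
          split_ifs with h4
          · rw [Finset.mem_Ico]
            have := (hbox a ha).2 (σ.symm m) h4
            rw [Equiv.apply_symm_apply] at this
            exact this
          · rw [Finset.mem_Ico]
            exact (hbox a ha).1 m
      refine (Finset.card_le_card hsub).trans ?_
      rw [Fintype.card_piFinset, ← Equiv.prod_comp σ (fun m => (I m).card)]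
      rw [← Finset.mul_prod_erase Finset.univ _ (Finset.mem_univ l)]
      have h5 : (I (σ l)).card = 1 := by simp [hI]
      rw [h5, one_mul, hL]
      apply le_of_eq
      refine Finset.prod_congr rfl (fun j hj => ?_)
      have hjl : j ≠ l := (Finset.mem_erase.1 hj).1
      have hjl' : σ j ≠ σ l := fun h => hjl (σ.injective h)
      simp only [hI]
      rw [if_neg hjl', Equiv.symm_apply_apply]
      split_ifs with h4
      · rw [Int.card_Ico]
        omega
      · rw [Int.card_Ico]
        omega
    have h4 : ∏ j : Fin d, (if (j : ℕ) < i then n (σ j) - (α (σ j) + β (σ j)) else n (σ j)) =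
        n (σ l) * L := by
      rw [← Finset.mul_prod_erase Finset.univ _ (Finset.mem_univ l), if_neg (by simp [hl])]
    have h5 : ∏ j : Fin d, (if (j : ℕ) < i + 1 then n (σ j) - (α (σ j) + β (σ j)) else n (σ j)) =
        (n (σ l) - (α (σ l) + β (σ l))) * L := by
      rw [← Finset.mul_prod_erase Finset.univ _ (Finset.mem_univ l), if_pos (by simp [hl])]
      congr 1
      refine Finset.prod_congr rfl (fun j hj => ?_)
      have hjl : j ≠ l := (Finset.mem_erase.1 hj).1
      have : (j : ℕ) ≠ i := fun h => hjl (Fin.ext h)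
      by_cases h6 : (j : ℕ) < i
      · rw [if_pos h6, if_pos (by omega)]
      · rw [if_neg h6, if_neg (by omega)]
    rw [h4] at ih'
    rw [h5]
    have h6 := Nat.mul_le_mul_left (n (σ l) - (n (σ l) - (α (σ l) + β (σ l)))) h3
    have h7 : (n (σ l) - (n (σ l) - (α (σ l) + β (σ l)))) * L +
        (n (σ l) - (α (σ l) + β (σ l))) * L = n (σ l) * L := by
      rw [← add_mul]
      congr 1
      omega
    omega

/-- The patterns contained in a matrix when something is left after trimming. -/
def Trimmable {d : ℕ} (Q : Finset (Fin d → ℤ)) (c : Fin d → ℤ) (σ : Fin d → Fin d)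
    (α β : Fin d → ℕ) : Prop :=
  (∀ p ∈ Q, ∀ l, c l - α l ≤ p l ∧ p l ≤ c l + β l) ∧
  ∀ p ∈ Q, ∀ q ∈ Q, ∀ i : Fin d, p (σ i) ≠ q (σ i) →
    (c (σ i) < p (σ i) ∧ c (σ i) < q (σ i)) ∨ (p (σ i) < c (σ i) ∧ q (σ i) < c (σ i)) →
    ∀ j : Fin d, i < j → p (σ j) = q (σ j)

theorem emb_of_iter {d : ℕ} {Q A : Finset (Fin d → ℤ)} {c : Fin d → ℤ} {σ : Equiv.Perm (Fin d)}
    {α β : Fin d → ℕ} (hQ : Trimmable Q c σ α β) {a : Fin d → ℤ} (ha : a ∈ iter A σ α β d) :
    Emb Q A := by
  classical
  have key : ∀ m : ℕ, m ≤ d → ∃ x : (Fin d → ℤ) → (Fin d → ℤ),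
      (∀ q ∈ Q, x q ∈ iter A σ α β (d - m)) ∧
      (∀ q ∈ Q, ∀ j : Fin d, (j : ℕ) < d - m → x q (σ j) = a (σ j)) ∧
      (∀ q ∈ Q, ∀ j : Fin d, d - m ≤ (j : ℕ) →
        (q (σ j) ≤ c (σ j) → x q (σ j) ≤ a (σ j) - (c (σ j) - q (σ j))) ∧
        (c (σ j) ≤ q (σ j) → a (σ j) + (q (σ j) - c (σ j)) ≤ x q (σ j))) ∧
      (∀ p ∈ Q, ∀ q ∈ Q, ∀ j : Fin d, d - m ≤ (j : ℕ) → p (σ j) < q (σ j) →
        q (σ j) - p (σ j) ≤ x q (σ j) - x p (σ j)) ∧
      (∀ p q : Fin d → ℤ, (∀ j : Fin d, d - m ≤ (j : ℕ) → p (σ j) = q (σ j)) → x p = x q) := by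
    intro m
    induction m with
    | zero =>
      intro _
      refine ⟨fun _ => a, fun q _ => ?_, fun _ _ _ _ => rfl, fun q _ j hj => ?_,
        fun p _ q _ j hj => ?_, fun _ _ _ => rfl⟩
      · simpa using ha
      · have := j.2; omega
      · have := j.2; omega
    | succ m ih =>
      intro hm
      obtain ⟨x, hx1, hx2, hx3, hx4, hx5⟩ := ih (by omega)
      have hid : d - (m + 1) < d := by omega
      set i : ℕ := d - (m + 1) with hi
      have hdm : d - m = i + 1 := by omega
      rw [hdm] at hx1 hx2 hx3 hx4 hx5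
      set l : Fin d := ⟨i, hid⟩ with hl
      have hli : (l : ℕ) = i := rfl
      have hiter : iter A σ α β (i + 1) =
          trim (iter A σ α β i) (σ l) (α (σ l)) (β (σ l)) := by
        rw [iter, dif_pos hid]
      -- lines
      have hg : ∀ y : Fin d → ℤ, ∃ g : ℤ → ℤ, y ∈ iter A σ α β (i + 1) →
          g 0 = y (σ l) ∧ (∀ t, -(α (σ l) : ℤ) ≤ t → t ≤ β (σ l) →
            Function.update y (σ l) (g t) ∈ iter A σ α β i) ∧
          ∀ t t', -(α (σ l) : ℤ) ≤ t → t ≤ t' → t' ≤ β (σ l) → t' - t ≤ g t' - g t := by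
        intro y
        by_cases hy : y ∈ iter A σ α β (i + 1)
        · rw [hiter] at hy
          obtain ⟨hy0, hy1, hy2⟩ := mem_trim.1 hy
          set S := (onLine (iter A σ α β i) (σ l) y).image (fun b => b (σ l)) with hS
          have hyS : y (σ l) ∈ S :=
            Finset.mem_image_of_mem (fun b : Fin d → ℤ => b (σ l))
              (mem_onLine.2 ⟨hy0, fun _ _ => rfl⟩)
          have k1 : α (σ l) ≤ (S.filter (fun z => z < y (σ l))).card := by
            refine hy1.trans (Finset.card_le_card_of_injOn (fun b => b (σ l)) (fun b hb => ?_)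
              (fun b hb b' hb' h => ?_))
            · obtain ⟨hb1, hb2⟩ := Finset.mem_filter.1 hb
              exact Finset.mem_coe.2 (Finset.mem_filter.2 ⟨Finset.mem_image_of_mem _ hb1, hb2⟩)
            · exact onLine_inj (Finset.mem_filter.1 hb).1 (Finset.mem_filter.1 hb').1 h
          have k2 : β (σ l) ≤ (S.filter (fun z => y (σ l) < z)).card := by
            refine hy2.trans (Finset.card_le_card_of_injOn (fun b => b (σ l)) (fun b hb => ?_)
              (fun b hb b' hb' h => ?_))
            · obtain ⟨hb1, hb2⟩ := Finset.mem_filter.1 hb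
              exact Finset.mem_coe.2 (Finset.mem_filter.2 ⟨Finset.mem_image_of_mem _ hb1, hb2⟩)
            · exact onLine_inj (Finset.mem_filter.1 hb).1 (Finset.mem_filter.1 hb').1 h
          obtain ⟨g, hg0, hg1, hg2⟩ := line hyS k1 k2
          refine ⟨g, fun _ => ⟨hg0, fun t ht1 ht2 => ?_, hg2⟩⟩
          obtain ⟨b, hb, hbt⟩ := Finset.mem_image.1 (hg1 t ht1 ht2)
          have : Function.update y (σ l) (g t) = b := by
            funext j
            by_cases hj : j = σ l
            · rw [hj, Function.update_self]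
              exact hbt.symm
            · rw [Function.update_of_ne hj]
              exact ((mem_onLine.1 hb).2 j hj).symm
          rw [this]
          exact (mem_onLine.1 hb).1
        · exact ⟨fun _ => 0, fun h => absurd h hy⟩
      choose g hg using hg
      have hrange : ∀ q ∈ Q, -(α (σ l) : ℤ) ≤ q (σ l) - c (σ l) ∧
          q (σ l) - c (σ l) ≤ β (σ l) := by
        intro q hq
        have := hQ.1 q hq (σ l)
        omega
      have hne : ∀ j : Fin d, (j : ℕ) ≠ i → σ j ≠ σ l := by
        intro j hj h
        exact hj (congrArg Fin.val (σ.injective h))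
      have hside : ∀ q ∈ Q, (q (σ l) ≤ c (σ l) →
            g (x q) (q (σ l) - c (σ l)) ≤ a (σ l) - (c (σ l) - q (σ l))) ∧
          (c (σ l) ≤ q (σ l) →
            a (σ l) + (q (σ l) - c (σ l)) ≤ g (x q) (q (σ l) - c (σ l))) := by
        intro q hq
        obtain ⟨g0, -, g2⟩ := hg (x q) (hx1 q hq)
        have e0 : x q (σ l) = a (σ l) := hx2 q hq l (by omega)
        have e1 := hrange q hq
        constructor
        · intro h
          have := g2 (q (σ l) - c (σ l)) 0 (by omega) (by omega) (by omega)
          omega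
        · intro h
          have := g2 0 (q (σ l) - c (σ l)) (by omega) (by omega) (by omega)
          omega
      refine ⟨fun q => Function.update (x q) (σ l) (g (x q) (q (σ l) - c (σ l))),
        fun q hq => ?_, fun q hq j hj => ?_, fun q hq j hj => ?_, fun p hp q hq j hj hlt => ?_,
        fun p q hpq => ?_⟩
      · exact (hg (x q) (hx1 q hq)).2.1 _ (hrange q hq).1 (hrange q hq).2
      · simp only
        rw [Function.update_of_ne (hne j (by omega))]
        exact hx2 q hq j (by omega)
      · simp only
        by_cases hji : (j : ℕ) = i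
        · have hjl : j = l := Fin.ext hji
          rw [hjl, Function.update_self]
          exact hside q hq
        · rw [Function.update_of_ne (hne j hji)]
          exact hx3 q hq j (by omega)
      · simp only
        by_cases hji : (j : ℕ) = i
        · have hjl : j = l := Fin.ext hji
          rw [hjl] at hlt ⊢
          rw [Function.update_self, Function.update_self]
          have sp := hside p hp
          have sq := hside q hq
          by_cases h1 : p (σ l) ≤ c (σ l)
          · by_cases h2 : c (σ l) ≤ q (σ l)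
            · have := sp.1 h1
              have := sq.2 h2
              omega
            · have hxx : x p = x q := by
                apply hx5
                intro j' hj'
                exact hQ.2 p hp q hq l (by omega) (Or.inr ⟨by omega, by omega⟩) j'
                  (by rw [Fin.lt_def]; omega)
              rw [hxx]
              have := (hg (x q) (hx1 q hq)).2.2 (p (σ l) - c (σ l)) (q (σ l) - c (σ l))
                (hrange p hp).1 (by omega) (hrange q hq).2
              omega
          · have hxx : x p = x q := by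
              apply hx5
              intro j' hj'
              exact hQ.2 p hp q hq l (by omega) (Or.inl ⟨by omega, by omega⟩) j'
                (by rw [Fin.lt_def]; omega)
            rw [hxx]
            have := (hg (x q) (hx1 q hq)).2.2 (p (σ l) - c (σ l)) (q (σ l) - c (σ l))
              (hrange p hp).1 (by omega) (hrange q hq).2
            omega
        · rw [Function.update_of_ne (hne j hji), Function.update_of_ne (hne j hji)]
          exact hx4 p hp q hq j (by omega) hlt
      · simp only
        have hxx : x p = x q := hx5 p q (fun j hj => hpq j (by omega))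
        rw [hxx, hpq l (by omega)]
  obtain ⟨x, hx1, -, -, hx4, -⟩ := key d le_rfl
  rw [Nat.sub_self] at hx1 hx4
  refine ⟨x, hx1, fun p hp q hq l hlt => ?_⟩
  have := hx4 p hp q hq (σ.symm l) (Nat.zero_le _)
  rw [Equiv.apply_symm_apply] at this
  exact this hlt

/-- The upper bound by iterated removal. -/
theorem iter_upper {d : ℕ} {Q : Finset (Fin d → ℤ)} {c : Fin d → ℤ} {σ : Equiv.Perm (Fin d)}
    {α β : Fin d → ℕ} (hQ : Trimmable Q c σ α β) (n : Fin d → ℕ) :
    mm Q n ≤ ∏ l, n l - ∏ l, (n l - (α l + β l)) := by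
  apply csSup_le'
  rintro N ⟨A, ⟨s, hs⟩, hA, rfl⟩
  have h1 := iter_card (A := A) σ α β hs d le_rfl
  have h2 : iter A σ α β d = ∅ := by
    by_contra hne
    obtain ⟨a, ha⟩ := Finset.nonempty_iff_ne_empty.2 hne
    exact hA (emb_of_iter hQ ha)
  rw [h2, Finset.card_empty] at h1
  have h3 : ∏ j : Fin d, (if (j : ℕ) < d then n (σ j) - (α (σ j) + β (σ j)) else n (σ j)) =
      ∏ l, (n l - (α l + β l)) := by
    rw [← Equiv.prod_comp σ (fun l => n l - (α l + β l))]
    exact Finset.prod_congr rfl (fun j _ => if_pos j.2)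
  rw [h3] at h1
  omega

/-- The complement of a box avoids `Q`: the lower bound for boxes of any shape. -/
theorem iter_lower {d : ℕ} {Q : Finset (Fin d → ℤ)} {q0 : Fin d → ℤ} (hq0 : q0 ∈ Q)
    (κ : Fin d → ℕ) (hκ : ∀ l, ∃ p ∈ Q, ∃ q ∈ Q, p l + κ l = q l ∧
      ∀ x ∈ Q, p l ≤ x l ∧ x l ≤ q l) (n : Fin d → ℕ) :
    ∏ l, n l - ∏ l, (n l - κ l) ≤ mm Q n := by
  classical
  choose lo hlo hi hhi h1 h2 using hκ
  set full : Finset (Fin d → ℤ) := Fintype.piFinset (fun l => Finset.Ico (0 : ℤ) (n l))
    with hfull
  set box : Finset (Fin d → ℤ) := Fintype.piFinset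
    (fun l => Finset.Ico (q0 l - lo l l : ℤ) (n l - (hi l l - q0 l))) with hbox
  have h3 : full.card = ∏ l, n l := by
    rw [hfull, Fintype.card_piFinset]
    simp
  have h4 : box.card = ∏ l, (n l - κ l) := by
    rw [hbox, Fintype.card_piFinset]
    refine Finset.prod_congr rfl (fun l _ => ?_)
    rw [Int.card_Ico]
    have := h1 l
    omega
  have h5 := Finset.le_card_sdiff box full
  rw [h3, h4] at h5
  refine h5.trans (le_mm ⟨0, fun x hx l => ?_⟩ ?_)
  · have := Fintype.mem_piFinset.1 (Finset.mem_sdiff.1 hx).1 l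
    rw [Finset.mem_Ico] at this
    show (0 : ℤ) ≤ x l ∧ x l < 0 + (n l : ℤ)
    omega
  · rintro ⟨e, he1, he2⟩
    have hin : ∀ p ∈ Q, ∀ l, 0 ≤ e p l ∧ e p l < n l := by
      intro p hp l
      have := Fintype.mem_piFinset.1 (Finset.mem_sdiff.1 (he1 p hp)).1 l
      rw [Finset.mem_Ico] at this
      exact this
    apply (Finset.mem_sdiff.1 (he1 q0 hq0)).2
    rw [hbox, Fintype.mem_piFinset]
    intro l
    rw [Finset.mem_Ico]
    have h0 := hin q0 hq0 l
    have hr := h2 l q0 hq0
    constructor
    · have h6 := hin (lo l) (hlo l) l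
      rcases eq_or_lt_of_le hr.1 with h7 | h7
      · omega
      · have := he2 (lo l) (hlo l) q0 hq0 l h7
        omega
    · have h6 := hin (hi l) (hhi l) l
      rcases eq_or_lt_of_le hr.2 with h7 | h7
      · omega
      · have := he2 q0 hq0 (hi l) (hhi l) l h7
        omega

end Pool.Agent.Lib.MPb1c185
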