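import Pool.Agent.Lib.MP_b1c185_co.Dense

/-!
The Latin hypercubes given by a sum condition, and the resulting convergence criterion.
-/

namespace Pool.Agent.Lib.MPb1c185

open Filter Topology

/-- Index vectors in `{0, …, s-1}^D` with coordinate sum divisible by `s`. -/
def latin (D s : ℕ) : Finset (Fin D → ℕ) :=
  (Fintype.piFinset (fun _ => Finset.range s)).filter (fun b => s ∣ ∑ l, b l)

theorem mem_latin {D s : ℕ} {b : Fin D → ℕ} :
    b ∈ latin D s ↔ (∀ l, b l < s) ∧ s ∣ ∑ l, b l := by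
  unfold latin
  rw [Finset.mem_filter, Fintype.mem_piFinset]
  simp only [Finset.mem_range]

theorem card_latin (d : ℕ) {s : ℕ} (hs : 0 < s) : s ^ d ≤ (latin (d + 1) s).card := by
  classical
  have h1 : (Fintype.piFinset (fun _ : Fin d => Finset.range s)).card = s ^ d := by
    rw [Fintype.card_piFinset]
    simp
  rw [← h1]
  apply Finset.card_le_card_of_injOn
    (fun c => (Fin.cons ((s - (∑ l, c l) % s) % s) c : Fin (d + 1) → ℕ))
  · intro c hc
    have hc' := Fintype.mem_piFinset.1 hc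
    simp only [Finset.mem_coe]
    rw [mem_latin]
    constructor
    · intro l
      refine Fin.cases ?_ (fun i => ?_) l
      · simp only [Fin.cons_zero]
        exact Nat.mod_lt _ hs
      · simp only [Fin.cons_succ]
        exact Finset.mem_range.1 (hc' i)
    · rw [Fin.sum_univ_succ]
      simp only [Fin.cons_zero, Fin.cons_succ]
      have h2 : (∑ l, c l) % s < s := Nat.mod_lt _ hs
      rw [Nat.dvd_iff_mod_eq_zero, Nat.mod_add_mod, ← Nat.add_mod_mod, Nat.sub_add_cancel h2.le,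
        Nat.mod_self]
  · intro c _ c' _ h
    funext i
    have := congrFun h i.succ
    simpa using this

/-- The convergence criterion. -/
theorem conv_of_indec {d : ℕ} {Q : Finset (Fin (d + 1) → ℤ)} (hQ : Q.Nonempty) {s t : ℕ}
    (hs : 2 ≤ s) (ht : 2 ≤ t) (hst : ∀ a b : ℕ, 1 ≤ b → t ^ b ≠ s ^ a)
    {B B' : Finset (Fin (d + 1) → ℕ)} (hB : ∀ b ∈ B, ∀ l, b l < s) (hBc : s ^ d ≤ B.card)
    (hB' : ∀ b ∈ B', ∀ l, b l < t) (hBc' : t ^ d ≤ B'.card)
    (h1 : Indec Q B) (h2 : Indec Q B') :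
    ∃ L : ℝ, Tendsto (fun n : ℕ => (mm Q (fun _ => n) : ℝ) / (n : ℝ) ^ d) atTop (𝓝 L) := by
  obtain ⟨D, hD⟩ := mm_bound Q hQ
  exact conv_of_mul (fun n => mm Q (fun _ => n)) (fun a b hab => mm_mono hQ (fun _ => hab)) d D
    hD hs ht hst (fun n => (Nat.mul_le_mul_right _ hBc).trans (compose hQ hB h1 n))
    (fun n => (Nat.mul_le_mul_right _ hBc').trans (compose hQ hB' h2 n))

theorem two_three (a b : ℕ) (hb : 1 ≤ b) : 3 ^ b ≠ 2 ^ a := by
  intro h
  rcases Nat.eq_zero_or_pos a with ha | ha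
  · subst ha
    have : 3 ^ 1 ≤ 3 ^ b := Nat.pow_le_pow_right (by norm_num) hb
    rw [h] at this
    norm_num at this
  · have h1 : 2 ∣ 3 ^ b := by
      rw [h]
      exact dvd_pow_self 2 (by omega)
    have h2 := Nat.prime_two.dvd_of_dvd_pow h1
    omega

end Pool.Agent.Lib.MPb1c185
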