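import Pool.Agent.Lib.MP_b1c185_co.Bounded

/-!
Limit lemmas.
-/

namespace Pool.Agent.Lib.MPb1c185

open Filter Topology

theorem prod_lim {ι : Type*} (T : Finset ι) (s : ι → ℝ) :
    Tendsto (fun n : ℕ => ∏ l ∈ T, (1 - s l / (n : ℝ))) atTop (𝓝 1) ∧
    Tendsto (fun n : ℕ => (n : ℝ) * (1 - ∏ l ∈ T, (1 - s l / (n : ℝ)))) atTop
      (𝓝 (∑ l ∈ T, s l)) := by
  classical
  induction T using Finset.induction_on with
  | empty => simp
  | insert a T ha ih =>
    obtain ⟨ih1, ih2⟩ := ih
    have h0 : Tendsto (fun n : ℕ => s a / (n : ℝ)) atTop (𝓝 0) :=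
      tendsto_const_div_atTop_nhds_zero_nat (s a)
    constructor
    · simp only [Finset.prod_insert ha]
      have := (tendsto_const_nhds (x := (1 : ℝ))).sub h0 |>.mul ih1
      simpa using this
    · simp only [Finset.prod_insert ha, Finset.sum_insert ha]
      have h1 : Tendsto (fun n : ℕ => s a * ∏ l ∈ T, (1 - s l / (n : ℝ)) +
          (n : ℝ) * (1 - ∏ l ∈ T, (1 - s l / (n : ℝ)))) atTop (𝓝 (s a * 1 + ∑ l ∈ T, s l)) :=
        (tendsto_const_nhds.mul ih1).add ih2
      rw [mul_one] at h1
      refine h1.congr' ?_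
      filter_upwards [eventually_ge_atTop 1] with n hn
      have hn' : (n : ℝ) ≠ 0 := by
        have : (0 : ℝ) < n := by exact_mod_cast hn
        exact this.ne'
      field_simp
      ring

/-- It suffices to prove convergence in the model. -/
theorem conv_transfer {d : ℕ} {k : Fin (d + 1) → ℕ} (P : Mat (d + 1) k)
    (hP : ∃ p, P p = true)
    (h : ∃ L : ℝ, Tendsto (fun n : ℕ => (mm (pts P) (fun _ => n) : ℝ) / (n : ℝ) ^ d) atTop (𝓝 L)) :
    ∃ L : ℝ, Tendsto (fun n : ℕ => (exMinor n P : ℝ) / (n : ℝ) ^ d) atTop (𝓝 L) := by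
  classical
  obtain ⟨L, hL⟩ := h
  have hne : (Finset.univ.filter (fun p => P p = true)).Nonempty := by
    obtain ⟨p, hp⟩ := hP
    exact ⟨p, by simp [hp]⟩
  have hmin : ∀ l, ∃ p, P p = true ∧ ∀ q, P q = true → (p l : ℕ) ≤ q l := by
    intro l
    obtain ⟨p, hp, hp2⟩ := Finset.exists_min_image _ (fun p => (p l : ℕ)) hne
    exact ⟨p, by simpa using hp, fun q hq => hp2 q (by simpa using hq)⟩
  have hmax : ∀ l, ∃ p, P p = true ∧ ∀ q, P q = true → (q l : ℕ) ≤ p l := by
    intro l
    obtain ⟨p, hp, hp2⟩ := Finset.exists_max_image _ (fun p => (p l : ℕ)) hne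
    exact ⟨p, by simpa using hp, fun q hq => hp2 q (by simpa using hq)⟩
  choose pmin hmin1 hmin2 using hmin
  choose pmax hmax1 hmax2 using hmax
  let lo : Fin (d + 1) → ℕ := fun l => pmin l l
  let hi : Fin (d + 1) → ℕ := fun l => pmax l l
  let s : Fin (d + 1) → ℕ := fun l => lo l + (k l - 1 - hi l)
  have heq : ∀ n, exMinor n P = (n ^ (d + 1) - ∏ l, (n - s l)) +
      mm (pts P) (fun l => n - s l) := fun n =>
    exMinor_eq P lo hi hP (fun l => ⟨pmin l, hmin1 l, rfl⟩) (fun p hp l => hmin2 l p hp)
      (fun l => ⟨pmax l, hmax1 l, rfl⟩) (fun p hp l => hmax2 l p hp) n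
  have hQ : (pts P).Nonempty := by
    obtain ⟨p, hp⟩ := hP
    exact ⟨_, mem_pts.2 ⟨p, hp, rfl⟩⟩
  set S := ∑ l, s l with hS
  have hsS : ∀ l, s l ≤ S := fun l =>
    Finset.single_le_sum (f := s) (fun _ _ => Nat.zero_le _) (Finset.mem_univ l)
  -- first part
  have hfirst : Tendsto (fun n : ℕ => ((n ^ (d + 1) - ∏ l, (n - s l) : ℕ) : ℝ) / (n : ℝ) ^ d) atTop
      (𝓝 (∑ l, (s l : ℝ))) := by
    refine (prod_lim Finset.univ (fun l => (s l : ℝ))).2.congr' ?_
    filter_upwards [eventually_ge_atTop (S + 1)] with n hn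
    have hn' : (n : ℝ) ≠ 0 := by
      have : (0 : ℝ) < n := by
        have : 0 < n := by omega
        exact_mod_cast this
      exact this.ne'
    have hle : ∏ l, (n - s l) ≤ n ^ (d + 1) := by
      have := Finset.prod_le_prod' (s := Finset.univ) (f := fun l => n - s l) (g := fun _ => n)
        (fun l _ => Nat.sub_le _ _)
      simpa using this
    rw [Nat.cast_sub hle]
    have hprod : ((∏ l, (n - s l) : ℕ) : ℝ) = ∏ l, ((n : ℝ) - s l) := by
      rw [Nat.cast_prod]
      refine Finset.prod_congr rfl (fun l _ => ?_)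
      rw [Nat.cast_sub (by have := hsS l; omega)]
    rw [hprod]
    have hprod2 : ∏ l, ((n : ℝ) - s l) = (n : ℝ) ^ (d + 1) * ∏ l, (1 - (s l : ℝ) / n) := by
      have : (n : ℝ) ^ (d + 1) = ∏ _l : Fin (d + 1), (n : ℝ) := by simp
      rw [this, ← Finset.prod_mul_distrib]
      refine Finset.prod_congr rfl (fun l _ => ?_)
      field_simp
    rw [hprod2]
    have hnd : (n : ℝ) ^ d ≠ 0 := pow_ne_zero _ hn'
    push_cast
    rw [pow_succ]
    field_simp
  -- second part
  have hsecond : Tendsto (fun n : ℕ => (mm (pts P) (fun l => n - s l) : ℝ) / (n : ℝ) ^ d) atTop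
      (𝓝 L) := by
    have hlow : Tendsto (fun n : ℕ => (mm (pts P) (fun _ => n - S) : ℝ) / (n : ℝ) ^ d) atTop
        (𝓝 L) := by
      have h1 : Tendsto (fun n : ℕ => (mm (pts P) (fun _ => n - S) : ℝ) /
          ((n - S : ℕ) : ℝ) ^ d) atTop (𝓝 L) := hL.comp (tendsto_sub_atTop_nat S)
      have h2 : Tendsto (fun n : ℕ => (((n - S : ℕ) : ℝ) / (n : ℝ)) ^ d) atTop (𝓝 1) := by
        have h3 : Tendsto (fun n : ℕ => (1 - (S : ℝ) / (n : ℝ))) atTop (𝓝 1) := by
          have := (tendsto_const_nhds (x := (1 : ℝ))).sub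
            (tendsto_const_div_atTop_nhds_zero_nat (S : ℝ))
          simpa using this
        have h4 : Tendsto (fun n : ℕ => ((n - S : ℕ) : ℝ) / (n : ℝ)) atTop (𝓝 1) := by
          refine h3.congr' ?_
          filter_upwards [eventually_ge_atTop (S + 1)] with n hn
          have hn' : (n : ℝ) ≠ 0 := by
            have : (0 : ℝ) < n := by
              have : 0 < n := by omega
              exact_mod_cast this
            exact this.ne'
          rw [Nat.cast_sub (by omega)]
          field_simp
        simpa using h4.pow d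
      have h5 := h1.mul h2
      rw [mul_one] at h5
      refine h5.congr' ?_
      filter_upwards [eventually_ge_atTop (S + 1)] with n hn
      have hn' : (n : ℝ) ≠ 0 := by
        have : (0 : ℝ) < n := by
          have : 0 < n := by omega
          exact_mod_cast this
        exact this.ne'
      have hn2 : ((n - S : ℕ) : ℝ) ≠ 0 := by
        have : (0 : ℝ) < ((n - S : ℕ) : ℝ) := by
          have : 0 < n - S := by omega
          exact_mod_cast this
        exact this.ne'
      rw [div_pow]
      field_simp
    refine tendsto_of_tendsto_of_tendsto_of_le_of_le hlow hL ?_ ?_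
    · intro n
      apply div_le_div_of_nonneg_right _ (by positivity)
      have hm : mm (pts P) (fun _ => n - S) ≤ mm (pts P) (fun l => n - s l) :=
        mm_mono hQ (fun l => by
          have := hsS l
          show n - S ≤ n - s l
          omega)
      exact Nat.cast_le.2 hm
    · intro n
      apply div_le_div_of_nonneg_right _ (by positivity)
      have hm : mm (pts P) (fun l => n - s l) ≤ mm (pts P) (fun _ => n) :=
        mm_mono hQ (fun l => by
          show n - s l ≤ n
          omega)
      exact Nat.cast_le.2 hm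
  refine ⟨∑ l, (s l : ℝ) + L, (hfirst.add hsecond).congr (fun n => ?_)⟩
  rw [heq n]
  push_cast
  ring

/-- Convergence from a weak form of superadditivity. -/
theorem conv_of_weak (f : ℕ → ℕ) (hmono : Monotone f) (D : ℕ) (hD : ∀ n, f n ≤ D * n)
    (h : ∀ ε : ℝ, 0 < ε → ∃ (C : ℝ) (r : ℕ), ∀ n j : ℕ, 1 ≤ n →
      (j : ℝ) * (f n - ε * n - C) ≤ f (j * n + r)) :
    ∃ L : ℝ, Tendsto (fun n : ℕ => (f n : ℝ) / n) atTop (𝓝 L) := by
  set u : ℕ → ℝ := fun n => (f n : ℝ) / n with hu
  have hu0 : ∀ n, 0 ≤ u n := fun n => by positivity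
  have huD : ∀ n, u n ≤ D := by
    intro n
    rcases Nat.eq_zero_or_pos n with hn | hn
    · subst hn
      simp [hu]
    · have hn' : (0 : ℝ) < n := by exact_mod_cast hn
      rw [hu]
      simp only
      rw [div_le_iff₀ hn']
      exact_mod_cast hD n
  have hbdd : IsBoundedUnder (· ≤ ·) atTop u :=
    ⟨D, by simp only [eventually_map]; exact Eventually.of_forall huD⟩
  have hcobdd : IsCoboundedUnder (· ≤ ·) atTop u :=
    IsBoundedUnder.isCoboundedUnder_le ⟨0, by
      simp only [eventually_map]; exact Eventually.of_forall hu0⟩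
  set L := limsup u atTop with hL
  refine ⟨L, ?_⟩
  rw [Metric.tendsto_atTop]
  intro ε hε
  -- upper part
  have hup : ∀ᶠ n in atTop, u n < L + ε :=
    eventually_lt_of_limsup_lt (by linarith) hbdd
  -- lower part
  obtain ⟨C, r, hC⟩ := h (ε / 4) (by linarith)
  have hfreq : ∃ᶠ n in atTop, L - ε / 8 < u n :=
    frequently_lt_of_lt_limsup hcobdd (by linarith)
  have hCn : ∀ᶠ n : ℕ in atTop, C / n < ε / 8 := by
    have := tendsto_const_div_atTop_nhds_zero_nat C
    exact this.eventually (gt_mem_nhds (by linarith))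
  obtain ⟨n, hn1, hn2, hn3⟩ := (hfreq.and_eventually (hCn.and (eventually_ge_atTop 1))).exists
  have hn' : (0 : ℝ) < n := by exact_mod_cast hn3
  have hlow : ∀ᶠ N in atTop, L - ε < u N := by
    have h1 : ∀ᶠ N : ℕ in atTop, ((n + r : ℕ) : ℝ) * D / N < ε / 4 := by
      have := tendsto_const_div_atTop_nhds_zero_nat (((n + r : ℕ) : ℝ) * D)
      exact this.eventually (gt_mem_nhds (by linarith))
    filter_upwards [h1, eventually_ge_atTop (r + 1)] with N hN1 hN2
    have hN' : (0 : ℝ) < N := by
      have : 0 < N := by omega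
      exact_mod_cast this
    set x : ℝ := (f n : ℝ) / n - ε / 4 - C / n with hx
    have hxL : L - ε / 2 < x := by
      have e1 : u n = (f n : ℝ) / n := rfl
      rw [hx]
      rw [e1] at hn1
      linarith
    rcases lt_or_ge x 0 with hx0 | hx0
    · have := hu0 N
      linarith
    · set j := (N - r) / n with hj
      have hjn : j * n + r ≤ N := by
        have := Nat.div_mul_le_self (N - r) n
        rw [← hj] at this
        omega
      have hjn2 : N < j * n + n + r := by
        have := Nat.lt_div_mul_add (a := N - r) (b := n) (by omega)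
        rw [← hj] at this
        omega
      have hf1 : (f (j * n + r) : ℝ) ≤ f N := by exact_mod_cast hmono hjn
      have hf2 := hC n j hn3
      have hf3 : (j : ℝ) * (f n - ε / 4 * n - C) = (j * n) * x := by
        rw [hx]
        field_simp
      rw [hf3] at hf2
      have hxD : x ≤ D + 0 * ε := by
        have e1 : u n = (f n : ℝ) / n := rfl
        have e2 := huD n
        rw [e1] at e2
        have e3 : -(ε / 8) < C / n ∨ C / n ≤ -(ε / 8) := lt_or_ge _ _
        have e4 : (0 : ℝ) ≤ C / n ∨ C / n < 0 := le_or_gt _ _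
        rcases e4 with e4 | e4
        · rw [hx]; linarith
        · -- the case C < 0 : use j = 1 bound
          have e5 := hC n 1 hn3
          have e6 : (f (1 * n + r) : ℝ) ≤ f (1 * n + r) := le_rfl
          -- x ≤ L + something; use limsup bound instead
          by_contra hcon
          push Not at hcon
          -- for all large M, u M ≥ (close to) x > D contradiction
          have h2 : ∀ᶠ M : ℕ in atTop, ((n + r : ℕ) : ℝ) * x / M < x - D := by
            have := tendsto_const_div_atTop_nhds_zero_nat (((n + r : ℕ) : ℝ) * x)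
            exact this.eventually (gt_mem_nhds (by linarith))
          obtain ⟨M, hM1, hM2⟩ := (h2.and (eventually_ge_atTop (r + 1))).exists
          have hM' : (0 : ℝ) < M := by
            have : 0 < M := by omega
            exact_mod_cast this
          have g1 : (M - r) / n * n + r ≤ M := by
            have := Nat.div_mul_le_self (M - r) n
            omega
          have g2 : M < (M - r) / n * n + n + r := by
            have := Nat.lt_div_mul_add (a := M - r) (b := n) (by omega)
            omega
          have g3 : (f ((M - r) / n * n + r) : ℝ) ≤ f M := by exact_mod_cast hmono g1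
          have g4 := hC n ((M - r) / n) hn3
          have g5 : (((M - r) / n : ℕ) : ℝ) * (f n - ε / 4 * n - C) =
              ((((M - r) / n : ℕ) : ℝ) * n) * x := by
            rw [hx]
            field_simp
          rw [g5] at g4
          have g6 : (M : ℝ) ≤ (((M - r) / n : ℕ) : ℝ) * n + n + r := by exact_mod_cast g2.le
          have g7 : (f M : ℝ) ≤ D * M := by exact_mod_cast hD M
          rw [div_lt_iff₀ hM'] at hM1
          push_cast at hM1
          have g8 : ((M : ℝ) - (n + r)) * x ≤ ((((M - r) / n : ℕ) : ℝ) * n) * x :=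
            mul_le_mul_of_nonneg_right (by linarith) hx0
          nlinarith
      have hNr : (N : ℝ) ≤ j * n + n + r := by exact_mod_cast hjn2.le
      have hkey : ((N : ℝ) - (n + r)) * x ≤ f N := by
        have g8 : ((N : ℝ) - (n + r)) * x ≤ (j * n) * x :=
          mul_le_mul_of_nonneg_right (by linarith) hx0
        linarith
      have hkey2 : x - ((n + r : ℕ) : ℝ) * D / N ≤ u N := by
        rw [hu]
        simp only
        rw [le_div_iff₀ hN', sub_mul, div_mul_cancel₀ _ hN'.ne']
        push_cast
        have : ((n : ℝ) + r) * x ≤ (n + r) * D := by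
          apply mul_le_mul_of_nonneg_left _ (by positivity)
          linarith
        linarith
      linarith
  have hboth := (hup.and hlow)
  rw [eventually_atTop] at hboth
  obtain ⟨N0, hN0⟩ := hboth
  refine ⟨N0, fun N hN => ?_⟩
  have := hN0 N hN
  rw [Real.dist_eq, abs_lt]
  constructor
  · linarith [this.2]
  · linarith [this.1]

end Pool.Agent.Lib.MPb1c185
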