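import Pool.Agent.Lib.MP_b1c185_co.Char

/-!
A translation invariant model: finite sets of integer points instead of 0-1 matrices.
-/

namespace Pool.Agent.Lib.MPb1c185

open Filter Topology

/-- `Emb Q A`: the pattern `Q` can be mapped to `A` keeping all strict inequalities between
coordinates, with distances not shrinking. -/
def Emb {d : ℕ} (Q A : Finset (Fin d → ℤ)) : Prop :=
  ∃ e : (Fin d → ℤ) → (Fin d → ℤ), (∀ p ∈ Q, e p ∈ A) ∧
    ∀ p ∈ Q, ∀ q ∈ Q, ∀ l, p l < q l → q l - p l ≤ e q l - e p l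

/-- `A` lies in a box with side lengths `n l`. -/
def Fits {d : ℕ} (A : Finset (Fin d → ℤ)) (n : Fin d → ℕ) : Prop :=
  ∃ a : Fin d → ℤ, ∀ x ∈ A, ∀ l, a l ≤ x l ∧ x l < a l + n l

/-- The extremal function of the model. -/
noncomputable def mm {d : ℕ} (Q : Finset (Fin d → ℤ)) (n : Fin d → ℕ) : ℕ :=
  sSup {N : ℕ | ∃ A : Finset (Fin d → ℤ), Fits A n ∧ ¬ Emb Q A ∧ A.card = N}

/-- The points of a 0-1 matrix. -/
def pts {d : ℕ} {k : Fin d → ℕ} (P : Mat d k) : Finset (Fin d → ℤ) :=
  (Finset.univ.filter (fun p => P p = true)).image (fun p l => ((p l : ℕ) : ℤ))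

theorem mem_pts {d : ℕ} {k : Fin d → ℕ} {P : Mat d k} {x : Fin d → ℤ} :
    x ∈ pts P ↔ ∃ p, P p = true ∧ (fun l => ((p l : ℕ) : ℤ)) = x := by
  simp [pts]

theorem cast_inj {d : ℕ} {k : Fin d → ℕ} {p q : ∀ l, Fin (k l)}
    (h : (fun l => ((p l : ℕ) : ℤ)) = (fun l => ((q l : ℕ) : ℤ))) : p = q := by
  funext l
  have := congrFun h l
  simp only [Nat.cast_inj] at this
  exact Fin.ext this

theorem card_pts {d : ℕ} {k : Fin d → ℕ} (P : Mat d k) : (pts P).card = ones P := by
  unfold pts ones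
  rw [Finset.card_image_of_injective]
  intro p q h
  exact cast_inj h

theorem Emb.mono {d : ℕ} {Q A A' : Finset (Fin d → ℤ)} (h : Emb Q A) (hA : A ⊆ A') : Emb Q A' := by
  obtain ⟨e, h1, h2⟩ := h
  exact ⟨e, fun p hp => hA (h1 p hp), h2⟩

theorem Emb.mono_left {d : ℕ} {Q Q' A : Finset (Fin d → ℤ)} (h : Emb Q A) (hQ : Q' ⊆ Q) :
    Emb Q' A := by
  obtain ⟨e, h1, h2⟩ := h
  exact ⟨e, fun p hp => h1 p (hQ hp), fun p hp q hq => h2 p (hQ hp) q (hQ hq)⟩

theorem not_emb_empty {d : ℕ} {Q : Finset (Fin d → ℤ)} (hQ : Q.Nonempty) : ¬ Emb Q ∅ := by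
  rintro ⟨e, h1, -⟩
  obtain ⟨p, hp⟩ := hQ
  exact absurd (h1 p hp) (Finset.notMem_empty _)

/-- Translation of a finite set. -/
def shift {d : ℕ} (t : Fin d → ℤ) (A : Finset (Fin d → ℤ)) : Finset (Fin d → ℤ) :=
  A.image (fun x => x + t)

theorem mem_shift {d : ℕ} {t : Fin d → ℤ} {A : Finset (Fin d → ℤ)} {x : Fin d → ℤ} :
    x ∈ shift t A ↔ x - t ∈ A := by
  unfold shift
  rw [Finset.mem_image]
  constructor
  · rintro ⟨y, hy, rfl⟩
    simpa using hy
  · intro h
    exact ⟨x - t, h, by simp⟩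

theorem card_shift {d : ℕ} (t : Fin d → ℤ) (A : Finset (Fin d → ℤ)) :
    (shift t A).card = A.card := by
  unfold shift
  rw [Finset.card_image_of_injective]
  exact add_left_injective t

theorem emb_shift {d : ℕ} {t : Fin d → ℤ} {Q A : Finset (Fin d → ℤ)} :
    Emb Q (shift t A) ↔ Emb Q A := by
  constructor
  · rintro ⟨e, h1, h2⟩
    refine ⟨fun p => e p - t, fun p hp => mem_shift.1 (h1 p hp), fun p hp q hq l hlt => ?_⟩
    have := h2 p hp q hq l hlt
    simpa using this
  · rintro ⟨e, h1, h2⟩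
    refine ⟨fun p => e p + t, fun p hp => mem_shift.2 (by simpa using h1 p hp),
      fun p hp q hq l hlt => ?_⟩
    have := h2 p hp q hq l hlt
    simpa using this

theorem fits_shift {d : ℕ} {t : Fin d → ℤ} {A : Finset (Fin d → ℤ)} {n : Fin d → ℕ}
    (h : Fits A n) : Fits (shift t A) n := by
  obtain ⟨a, ha⟩ := h
  refine ⟨a + t, fun x hx l => ?_⟩
  have := ha _ (mem_shift.1 hx) l
  simp only [Pi.sub_apply, Pi.add_apply] at this ⊢
  omega

theorem Fits.card_le {d : ℕ} {A : Finset (Fin d → ℤ)} {n : Fin d → ℕ} (h : Fits A n) :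
    A.card ≤ ∏ l, n l := by
  classical
  obtain ⟨a, ha⟩ := h
  have hsub : A ⊆ Fintype.piFinset (fun l => Finset.Ico (a l) (a l + n l)) := by
    intro x hx
    rw [Fintype.mem_piFinset]
    intro l
    rw [Finset.mem_Ico]
    exact ha x hx l
  have h1 := Finset.card_le_card hsub
  rw [Fintype.card_piFinset] at h1
  simpa using h1

theorem Fits.mono {d : ℕ} {A : Finset (Fin d → ℤ)} {n n' : Fin d → ℕ} (h : Fits A n)
    (hn : n ≤ n') : Fits A n' := by
  obtain ⟨a, ha⟩ := h
  refine ⟨a, fun x hx l => ⟨(ha x hx l).1, ?_⟩⟩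
  have h1 := (ha x hx l).2
  have h2 : n l ≤ n' l := hn l
  omega

theorem Fits.subset {d : ℕ} {A B : Finset (Fin d → ℤ)} {n : Fin d → ℕ} (h : Fits A n)
    (hB : B ⊆ A) : Fits B n := by
  obtain ⟨a, ha⟩ := h
  exact ⟨a, fun x hx => ha x (hB hx)⟩

theorem mm_bdd {d : ℕ} (Q : Finset (Fin d → ℤ)) (n : Fin d → ℕ) :
    BddAbove {N : ℕ | ∃ A : Finset (Fin d → ℤ), Fits A n ∧ ¬ Emb Q A ∧ A.card = N} := by
  refine ⟨∏ l, n l, ?_⟩
  rintro N ⟨A, h1, -, rfl⟩
  exact h1.card_le

theorem le_mm {d : ℕ} {Q A : Finset (Fin d → ℤ)} {n : Fin d → ℕ} (h : Fits A n)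
    (hA : ¬ Emb Q A) : A.card ≤ mm Q n :=
  le_csSup (mm_bdd Q n) ⟨A, h, hA, rfl⟩

theorem exists_mm {d : ℕ} {Q : Finset (Fin d → ℤ)} (hQ : Q.Nonempty) (n : Fin d → ℕ) :
    ∃ A : Finset (Fin d → ℤ), Fits A n ∧ ¬ Emb Q A ∧ A.card = mm Q n := by
  refine Nat.sSup_mem (s := {N : ℕ | ∃ A : Finset (Fin d → ℤ), Fits A n ∧ ¬ Emb Q A ∧
    A.card = N}) ⟨0, ∅, ⟨0, by simp⟩, not_emb_empty hQ, by simp⟩ (mm_bdd Q n)

theorem mm_mono {d : ℕ} {Q : Finset (Fin d → ℤ)} (hQ : Q.Nonempty) {n n' : Fin d → ℕ}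
    (hn : n ≤ n') : mm Q n ≤ mm Q n' := by
  obtain ⟨A, h1, h2, h3⟩ := exists_mm hQ n
  rw [← h3]
  exact le_mm (h1.mono hn) h2

theorem mm_anti {d : ℕ} {Q Q' : Finset (Fin d → ℤ)} (hQ : Q.Nonempty) (h : Q ⊆ Q')
    (n : Fin d → ℕ) : mm Q n ≤ mm Q' n := by
  obtain ⟨A, h1, h2, h3⟩ := exists_mm hQ n
  rw [← h3]
  exact le_mm h1 (fun hE => h2 (hE.mono_left h))

theorem card_fin_filter (n a t : ℕ) :
    (Finset.univ.filter (fun i : Fin n => a ≤ (i : ℕ) ∧ (i : ℕ) + t < n)).card = n - (a + t) := by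
  rw [← Finset.card_map Fin.valEmbedding]
  have : (Finset.univ.filter (fun i : Fin n => a ≤ (i : ℕ) ∧ (i : ℕ) + t < n)).map
      Fin.valEmbedding = Finset.Ico a (n - t) := by
    ext x
    simp only [Finset.mem_map, Finset.mem_filter, Finset.mem_univ, true_and,
      Fin.valEmbedding_apply, Finset.mem_Ico]
    constructor
    · rintro ⟨i, ⟨h1, h2⟩, rfl⟩
      omega
    · rintro ⟨h1, h2⟩
      exact ⟨⟨x, by omega⟩, ⟨h1, by simp only; omega⟩, rfl⟩
  rw [this, Nat.card_Ico]
  omega

/-- The exact relation between `exMinor` and the model. -/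
theorem exMinor_eq {d : ℕ} {k : Fin d → ℕ} (P : Mat d k) (lo hi : Fin d → ℕ)
    (hP : ∃ p, P p = true)
    (hlo : ∀ l, ∃ p, P p = true ∧ (p l : ℕ) = lo l) (hlo' : ∀ p, P p = true → ∀ l, lo l ≤ p l)
    (hhi : ∀ l, ∃ p, P p = true ∧ (p l : ℕ) = hi l) (hhi' : ∀ p, P p = true → ∀ l, (p l : ℕ) ≤ hi l)
    (n : ℕ) :
    exMinor n P = (n ^ d - ∏ l, (n - (lo l + (k l - 1 - hi l)))) +
      mm (pts P) (fun l => n - (lo l + (k l - 1 - hi l))) := by
  classical
  have hQ : (pts P).Nonempty := by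
    obtain ⟨p, hp⟩ := hP
    exact ⟨_, mem_pts.2 ⟨p, hp, rfl⟩⟩
  set s : Fin d → ℕ := fun l => lo l + (k l - 1 - hi l) with hs
  have hhik : ∀ l, hi l < k l := by
    intro l
    obtain ⟨p, hp, h⟩ := hhi l
    rw [← h]
    exact (p l).2
  -- the count of inner points
  have hinner : (Finset.univ.filter (fun x : (∀ _ : Fin d, Fin n) =>
      ∀ l, lo l ≤ (x l : ℕ) ∧ (x l : ℕ) + (k l - 1 - hi l) < n)).card = ∏ l, (n - s l) := by
    have : (Finset.univ.filter (fun x : (∀ _ : Fin d, Fin n) =>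
      ∀ l, lo l ≤ (x l : ℕ) ∧ (x l : ℕ) + (k l - 1 - hi l) < n)) =
      Fintype.piFinset (fun l => Finset.univ.filter (fun i : Fin n =>
        lo l ≤ (i : ℕ) ∧ (i : ℕ) + (k l - 1 - hi l) < n)) := by
      ext x
      simp [Fintype.mem_piFinset]
    rw [this, Fintype.card_piFinset]
    refine Finset.prod_congr rfl (fun l _ => ?_)
    rw [card_fin_filter]
  have hcardall : (Finset.univ : Finset (∀ _ : Fin d, Fin n)).card = n ^ d := by
    simp
  have houter : (Finset.univ.filter (fun x : (∀ _ : Fin d, Fin n) =>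
      ¬ ∀ l, lo l ≤ (x l : ℕ) ∧ (x l : ℕ) + (k l - 1 - hi l) < n)).card =
      n ^ d - ∏ l, (n - s l) := by
    have := Finset.card_filter_add_card_filter_not (s := (Finset.univ : Finset (∀ _ : Fin d, Fin n)))
      (fun x => ∀ l, lo l ≤ (x l : ℕ) ∧ (x l : ℕ) + (k l - 1 - hi l) < n)
    rw [hinner, hcardall] at this
    omega
  apply le_antisymm
  · -- upper bound
    apply csSup_le'
    rintro N ⟨A, hA, rfl⟩
    let I : Finset (Fin d → ℤ) := (pts A).filter
      (fun x => ∀ l, (lo l : ℤ) ≤ x l ∧ x l + ((k l - 1 - hi l : ℕ) : ℤ) < n)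
    have hfit : Fits I (fun l => n - s l) := by
      refine ⟨fun l => lo l, fun x hx l => ?_⟩
      rw [Finset.mem_filter] at hx
      have := hx.2 l
      simp only [hs]
      omega
    have hne : ¬ Emb (pts P) I := by
      rintro ⟨e, h1, h2⟩
      apply hA
      rw [intervalMinor_iff A P hP]
      have key : ∀ p, P p = true → ∃ x : (∀ _ : Fin d, Fin n), A x = true ∧
          (fun l => ((x l : ℕ) : ℤ)) = e (fun l => ((p l : ℕ) : ℤ)) := by
        intro p hp
        have := h1 _ (mem_pts.2 ⟨p, hp, rfl⟩)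
        rw [Finset.mem_filter] at this
        exact mem_pts.1 this.1
      have key2 : ∀ p, P p = true → ∀ l, (lo l : ℤ) ≤ e (fun l => ((p l : ℕ) : ℤ)) l ∧
          e (fun l => ((p l : ℕ) : ℤ)) l + ((k l - 1 - hi l : ℕ) : ℤ) < n := by
        intro p hp
        have := h1 _ (mem_pts.2 ⟨p, hp, rfl⟩)
        rw [Finset.mem_filter] at this
        exact this.2
      obtain ⟨p0, hp0⟩ := hP
      obtain ⟨x0, -, -⟩ := key p0 hp0
      have : Nonempty (∀ _ : Fin d, Fin n) := ⟨x0⟩
      choose! f hf using key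
      have hfl : ∀ p, P p = true → ∀ l, ((f p l : ℕ) : ℤ) = e (fun l => ((p l : ℕ) : ℤ)) l := by
        intro p hp l
        exact congrFun (hf p hp).2 l
      refine ⟨f, fun p hp => ⟨(hf p hp).1, fun l => ⟨?_, ?_⟩, fun q hq l hlt => ?_⟩⟩
      · obtain ⟨q, hq, hql⟩ := hlo l
        have a1 := hlo' p hp l
        have a2 := (key2 q hq l).1
        have a3 := (key2 p hp l).1
        have a4 := hfl p hp l
        by_cases hlt : (q l : ℕ) < p l
        · have := h2 _ (mem_pts.2 ⟨q, hq, rfl⟩) _ (mem_pts.2 ⟨p, hp, rfl⟩) l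
            (by simpa using hlt)
          omega
        · omega
      · obtain ⟨q, hq, hql⟩ := hhi l
        have a1 := hhi' p hp l
        have a2 := (key2 q hq l).2
        have a3 := (key2 p hp l).2
        have a4 := hfl p hp l
        have a5 := hhik l
        by_cases hlt : (p l : ℕ) < q l
        · have := h2 _ (mem_pts.2 ⟨p, hp, rfl⟩) _ (mem_pts.2 ⟨q, hq, rfl⟩) l
            (by simpa using hlt)
          omega
        · omega
      · have := h2 _ (mem_pts.2 ⟨p, hp, rfl⟩) _ (mem_pts.2 ⟨q, hq, rfl⟩) l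
            (by simpa using hlt)
        have a4 := hfl p hp l
        have a5 := hfl q hq l
        omega
    have h3 := le_mm hfit hne
    have h4 : ones A ≤ (n ^ d - ∏ l, (n - s l)) + I.card := by
      rw [← houter]
      unfold ones
      rw [← Finset.card_filter_add_card_filter_not
        (s := Finset.univ.filter (fun x => A x = true))
        (fun x => ¬ ∀ l, lo l ≤ (x l : ℕ) ∧ (x l : ℕ) + (k l - 1 - hi l) < n)]
      apply Nat.add_le_add
      · apply Finset.card_le_card
        intro x hx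
        rw [Finset.mem_filter] at hx ⊢
        exact ⟨Finset.mem_univ _, hx.2⟩
      · have : (Finset.filter (fun x => ¬ ¬ ∀ l, lo l ≤ (x l : ℕ) ∧
            (x l : ℕ) + (k l - 1 - hi l) < n) (Finset.univ.filter (fun x => A x = true))).image
            (fun x l => ((x l : ℕ) : ℤ)) ⊆ I := by
          intro y hy
          rw [Finset.mem_image] at hy
          obtain ⟨x, hx, rfl⟩ := hy
          rw [Finset.mem_filter, Finset.mem_filter] at hx
          rw [Finset.mem_filter]
          refine ⟨mem_pts.2 ⟨x, hx.1.2, rfl⟩, fun l => ?_⟩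
          have := not_not.1 hx.2 l
          simp only
          omega
        have h5 := Finset.card_le_card this
        rwa [Finset.card_image_of_injective] at h5
        intro p q h
        exact cast_inj h
    show ones A ≤ (n ^ d - ∏ l, (n - s l)) + mm (pts P) (fun l => n - s l)
    omega
  · -- lower bound
    obtain ⟨B, ⟨a, ha⟩, hB, hcard⟩ := exists_mm hQ (fun l => n - s l)
    let B' := shift (fun l => (lo l : ℤ) - a l) B
    have hB'in : ∀ x ∈ B', ∀ l, (lo l : ℤ) ≤ x l ∧ x l + ((k l - 1 - hi l : ℕ) : ℤ) < n := by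
      intro x hx l
      have := ha _ (mem_shift.1 hx) l
      simp only [Pi.sub_apply, hs] at this
      omega
    let A : Mat d (fun _ => n) := fun x => decide ((fun l => ((x l : ℕ) : ℤ)) ∈ B' ∨
      ¬ ∀ l, lo l ≤ (x l : ℕ) ∧ (x l : ℕ) + (k l - 1 - hi l) < n)
    have hA : ¬ IntervalMinor A P := by
      rw [intervalMinor_iff A P hP]
      rintro ⟨e, he⟩
      apply hB
      rw [← emb_shift (t := (fun l => (lo l : ℤ) - a l))]
      have hmem : ∀ p, P p = true → (fun l => ((e p l : ℕ) : ℤ)) ∈ B' := by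
        intro p hp
        have h1 := (he p hp).1
        simp only [A, decide_eq_true_eq] at h1
        rcases h1 with h1 | h1
        · exact h1
        · exfalso
          apply h1
          intro l
          have h2 := (he p hp).2.1 l
          have h3 := hlo' p hp l
          have h4 := hhi' p hp l
          have h5 := hhik l
          omega
      have hinv : ∀ q ∈ pts P, ∃ p, P p = true ∧ (fun l => ((p l : ℕ) : ℤ)) = q :=
        fun q hq => mem_pts.1 hq
      obtain ⟨p0, hp0⟩ := hP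
      have : Nonempty (∀ l, Fin (k l)) := ⟨p0⟩
      choose! g hg using hinv
      refine ⟨fun q l => ((e (g q) l : ℕ) : ℤ), fun q hq => hmem _ (hg q hq).1,
        fun p hp q hq l hlt => ?_⟩
      have e1 := congrFun (hg p hp).2 l
      have e2 := congrFun (hg q hq).2 l
      have := (he (g p) (hg p hp).1).2.2 (g q) (hg q hq).1 l (by
        rw [← e1, ← e2] at hlt
        exact_mod_cast hlt)
      simp only
      omega
    have hcount : (n ^ d - ∏ l, (n - s l)) + mm (pts P) (fun l => n - s l) ≤ ones A := by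
      rw [← houter, ← hcard]
      unfold ones
      rw [← Finset.card_filter_add_card_filter_not
        (s := Finset.univ.filter (fun x => A x = true))
        (fun x => ¬ ∀ l, lo l ≤ (x l : ℕ) ∧ (x l : ℕ) + (k l - 1 - hi l) < n)]
      apply Nat.add_le_add
      · apply Finset.card_le_card
        intro x hx
        rw [Finset.mem_filter] at hx
        rw [Finset.mem_filter, Finset.mem_filter]
        refine ⟨⟨Finset.mem_univ _, ?_⟩, hx.2⟩
        simp only [A, decide_eq_true_eq]
        exact Or.inr hx.2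
      · rw [← card_shift (fun l => (lo l : ℤ) - a l) B]
        have : B' ⊆ (Finset.filter (fun x => ¬ ¬ ∀ l, lo l ≤ (x l : ℕ) ∧
            (x l : ℕ) + (k l - 1 - hi l) < n) (Finset.univ.filter (fun x => A x = true))).image
            (fun x l => ((x l : ℕ) : ℤ)) := by
          intro y hy
          have hy2 := hB'in y hy
          rw [Finset.mem_image]
          refine ⟨fun l => ⟨(y l).toNat, by
            show (y l).toNat < n
            have := hy2 l
            omega⟩, ?_, ?_⟩
          · have hcast : (fun l => (((y l).toNat : ℕ) : ℤ)) = y := by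
              funext l
              have := hy2 l
              omega
            rw [Finset.mem_filter, Finset.mem_filter]
            refine ⟨⟨Finset.mem_univ _, ?_⟩, not_not.2 (fun l => ?_)⟩
            · simp only [A, decide_eq_true_eq]
              left
              rw [hcast]
              exact hy
            · have := hy2 l
              simp only
              omega
          · funext l
            have := hy2 l
            simp only
            omega
        exact (Finset.card_le_card this).trans Finset.card_image_le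
    refine hcount.trans ?_
    refine le_csSup ?_ ⟨A, hA, rfl⟩
    refine ⟨n ^ d, ?_⟩
    rintro N ⟨A', -, rfl⟩
    unfold ones
    refine (Finset.card_le_univ _).trans ?_
    simp

end Pool.Agent.Lib.MPb1c185
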