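import Pool.Agent.Lib.MP_b1c185_co.Insert

/-!
Peeling of columns and the resulting weak superadditivity.
-/

namespace Pool.Agent.Lib.MPb1c185

open Filter Topology

theorem strictMono_int_gap {n : ℕ} {f : Fin n → ℤ} (hf : StrictMono f) {i j : Fin n}
    (hij : i ≤ j) : ((j : ℕ) : ℤ) - ((i : ℕ) : ℤ) ≤ f j - f i := by
  have hsub : (Finset.Icc i j).image f ⊆ Finset.Icc (f i) (f j) := by
    intro v hv
    rw [Finset.mem_image] at hv
    obtain ⟨x, hx, rfl⟩ := hv
    rw [Finset.mem_Icc] at hx ⊢
    exact ⟨hf.monotone hx.1, hf.monotone hx.2⟩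
  have h1 := Finset.card_le_card hsub
  rw [Finset.card_image_of_injective _ hf.injective, Fin.card_Icc, Int.card_Icc] at h1
  have h4 : f i ≤ f j := hf.monotone hij
  have h5 : (i : ℕ) ≤ j := hij
  omega

/-- A product of `w` columns and `h` rows contains every pattern in `[0,w) × [0,h)`. -/
theorem emb_of_grid {Q B : Finset (Fin 2 → ℤ)} {w h : ℕ}
    (hbox : ∀ q ∈ Q, 0 ≤ q 0 ∧ q 0 < w ∧ 0 ≤ q 1 ∧ q 1 < h) {Cs Rs : Finset ℤ}
    (hC : Cs.card = w) (hR : Rs.card = h) (hCR : ∀ c ∈ Cs, ∀ r ∈ Rs, ![c, r] ∈ B) : Emb Q B := by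
  classical
  let f := Cs.orderEmbOfFin hC
  let g := Rs.orderEmbOfFin hR
  refine ⟨fun q => if hq : 0 ≤ q 0 ∧ q 0 < w ∧ 0 ≤ q 1 ∧ q 1 < h then
    ![f ⟨(q 0).toNat, by omega⟩, g ⟨(q 1).toNat, by omega⟩] else q, ?_, ?_⟩
  · intro q hq
    simp only
    rw [dif_pos (hbox q hq)]
    exact hCR _ (Finset.orderEmbOfFin_mem Cs hC _) _ (Finset.orderEmbOfFin_mem Rs hR _)
  · intro p hp q hq l hlt
    have hpb := hbox p hp
    have hqb := hbox q hq
    simp only
    rw [dif_pos hpb, dif_pos hqb]
    have hl : l = 0 ∨ l = 1 := by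
      fin_cases l
      · left; rfl
      · right; rfl
    rcases hl with rfl | rfl
    · simp only [Matrix.cons_val_zero]
      have := strictMono_int_gap f.strictMono (i := ⟨(p 0).toNat, by omega⟩)
        (j := ⟨(q 0).toNat, by omega⟩) (by rw [Fin.le_def]; simp only; omega)
      simp only at this
      omega
    · simp only [Matrix.cons_val_one]
      have := strictMono_int_gap g.strictMono (i := ⟨(p 1).toNat, by omega⟩)
        (j := ⟨(q 1).toNat, by omega⟩) (by rw [Fin.le_def]; simp only; omega)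
      simp only at this
      simpa using (by omega : q 1 - p 1 ≤ g ⟨(q 1).toNat, by omega⟩ - g ⟨(p 1).toNat, by omega⟩)

theorem thin {Q B : Finset (Fin 2 → ℤ)} {w h : ℕ}
    (hbox : ∀ q ∈ Q, 0 ≤ q 0 ∧ q 0 < w ∧ 0 ≤ q 1 ∧ q 1 < h) (hB : ¬ Emb Q B) {x : ℕ}
    (hx : ∀ b ∈ B, 0 ≤ b 0 ∧ b 0 < x) {K : ℕ} (hK : (B.image (fun b => b 1)).card ≤ K) :
    B.card ≤ (h - 1) * x + w * 2 ^ K * K := by
  classical
  set T := B.image (fun b => b 1) with hT
  let R : ℤ → Finset ℤ := fun c => (B.filter (fun b => b 0 = c)).image (fun b => b 1)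
  have hRT : ∀ c, R c ⊆ T := fun c => Finset.image_subset_image (Finset.filter_subset _ _)
  have hRcard : ∀ c, (B.filter (fun b => b 0 = c)).card = (R c).card := by
    intro c
    symm
    apply Finset.card_image_of_injOn
    intro a ha b hb hab
    have h1 := (Finset.mem_filter.1 ha).2
    have h2 := (Finset.mem_filter.1 hb).2
    funext i
    fin_cases i
    · exact h1.trans h2.symm
    · exact hab
  have hsum : B.card = ∑ c ∈ Finset.Ico 0 (x : ℤ), (R c).card := by
    rw [Finset.card_eq_sum_card_fiberwise (f := fun b => b 0) (t := Finset.Ico 0 (x : ℤ))]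
    · exact Finset.sum_congr rfl (fun c _ => hRcard c)
    · intro b hb
      have := hx b hb
      simp only [Finset.coe_Ico, Set.mem_Ico]
      exact this
  set tall := (Finset.Ico 0 (x : ℤ)).filter (fun c => h ≤ (R c).card) with htall
  have htallcard : tall.card ≤ w * 2 ^ K := by
    by_contra hcon
    push Not at hcon
    have hpow : T.powerset.card * w < tall.card := by
      refine lt_of_le_of_lt ?_ hcon
      rw [Finset.card_powerset, mul_comm]
      exact Nat.mul_le_mul_left _ (Nat.pow_le_pow_right (by omega) hK)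
    obtain ⟨S, hS, hSw⟩ := Finset.exists_lt_card_fiber_of_mul_lt_card_of_maps_to
      (f := R) (fun c _ => Finset.mem_powerset.2 (hRT c)) hpow
    obtain ⟨Cs, hCs, hCsw⟩ := Finset.exists_subset_card_eq hSw.le
    have hne : (tall.filter (fun c => R c = S)).Nonempty := by
      rw [← Finset.card_pos]
      omega
    obtain ⟨c0, hc0⟩ := hne
    have hSh : h ≤ S.card := by
      obtain ⟨h1, h2⟩ := Finset.mem_filter.1 hc0
      rw [← h2]
      exact (Finset.mem_filter.1 h1).2
    obtain ⟨Rs, hRs, hRsh⟩ := Finset.exists_subset_card_eq hSh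
    apply hB
    refine emb_of_grid hbox hCsw hRsh (fun c hc r hr => ?_)
    have h1 := (Finset.mem_filter.1 (hCs hc)).2
    have h2 : r ∈ R c := by rw [h1]; exact hRs hr
    obtain ⟨b, hb, hbr⟩ := Finset.mem_image.1 h2
    obtain ⟨hbB, hbc⟩ := Finset.mem_filter.1 hb
    have : b = ![c, r] := by
      funext i
      fin_cases i
      · simpa using hbc
      · simpa using hbr
    rw [← this]
    exact hbB
  rw [hsum]
  have hle : ∀ c ∈ Finset.Ico 0 (x : ℤ), (R c).card ≤ (h - 1) + if h ≤ (R c).card then K else 0 := by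
    intro c _
    split_ifs with hc
    · have := Finset.card_le_card (hRT c)
      omega
    · omega
  refine (Finset.sum_le_sum hle).trans ?_
  rw [Finset.sum_add_distrib, ← Finset.sum_filter, Finset.sum_const, Finset.sum_const]
  simp only [Int.card_Ico, smul_eq_mul, sub_zero, Int.toNat_natCast]
  rw [← htall]
  have := Nat.mul_le_mul_right K htallcard
  rw [mul_comm x]
  omega

/-- One insertion step in terms of the extremal function. -/
theorem insert_step {Q : Finset (Fin 2 → ℤ)} {w h : ℕ} (hQ : LeftPair Q w h)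
    {A : Finset (Fin 2 → ℤ)} (hA : ¬ Emb Q A) {n x0 : ℕ} (hx0 : x0 ≤ n)
    (hAbox : ∀ a ∈ A, 0 ≤ a 0 ∧ a 0 < n ∧ 0 ≤ a 1 ∧ a 1 < n) {j0 j1 : ℤ} (hj1 : j1 ≤ n)
    (hj1' : 0 ≤ j1)
    (hits : ℕ → (Fin 2 → ℤ)) (hh1 : ∀ i < h, hits i ∈ A) (hh2 : ∀ i < h, hits i 0 ≤ x0)
    (hh3 : ∀ i < h, j0 + h ≤ hits i 1 ∧ hits i 1 + h ≤ j1)
    (hh4 : ∀ i i' : ℕ, i < i' → i' < h → (i' : ℤ) - i ≤ hits i' 1 - hits i 1) (W H : ℕ) :
    mm Q ![W, H] + (outer A x0 j0 j1).card ≤ mm Q ![W + (n - x0), H + n] := by
  classical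
  have hQne : Q.Nonempty := by
    obtain ⟨q, hq, -⟩ := hQ.sw
    exact ⟨q, hq⟩
  obtain ⟨M, ⟨a, ha⟩, hM, hMcard⟩ := exists_mm hQne ![W, H]
  set t : Fin 2 → ℤ := ![x0 - W - a 0, j1 - a 1] with ht
  have hM' : ¬ Emb Q (shift t M) := fun hE => hM (emb_shift.1 hE)
  have hMb : ∀ m ∈ shift t M, (x0 : ℤ) - W ≤ m 0 ∧ m 0 < x0 ∧ j1 ≤ m 1 ∧ m 1 < j1 + H := by
    intro m hm
    have h1 := ha _ (mem_shift.1 hm) 0
    have h2 := ha _ (mem_shift.1 hm) 1
    simp [ht] at h1 h2
    omega
  have hins := insert_avoid hQ hA hM' hits hh1 hh2 hh3 hh4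
    (fun m hm => ⟨(hMb m hm).2.1, (hMb m hm).2.2.1, (hMb m hm).2.2.2⟩)
  have hOc : ((outer A x0 j0 j1).image (openGap j0 H)).card = (outer A x0 j0 j1).card :=
    Finset.card_image_of_injective _ (openGap_injective j0 H)
  have hOimg : ∀ y ∈ (outer A x0 j0 j1).image (openGap j0 H),
      (x0 : ℤ) ≤ y 0 ∧ y 0 < n ∧ 0 ≤ y 1 ∧ y 1 < n + H := by
    intro y hy
    obtain ⟨b, hb, rfl⟩ := Finset.mem_image.1 hy
    obtain ⟨hbA, hbx, hbr⟩ := Finset.mem_filter.1 hb
    have hbb := hAbox b hbA
    rw [openGap_zero]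
    rcases lt_or_ge (b 1) j0 with hlt | hge
    · rw [openGap_low hlt]
      omega
    · rw [openGap_high hge]
      omega
  have hdisj : Disjoint (shift t M) ((outer A x0 j0 j1).image (openGap j0 H)) := by
    rw [Finset.disjoint_left]
    intro y hy hy2
    have h1 := hMb y hy
    have h2 := hOimg y hy2
    omega
  have hcard : (shift t M ∪ (outer A x0 j0 j1).image (openGap j0 H)).card =
      mm Q ![W, H] + (outer A x0 j0 j1).card := by
    rw [Finset.card_union_of_disjoint hdisj, card_shift, hOc, hMcard]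
  rw [← hcard]
  refine le_mm ⟨![x0 - W, 0], fun y hy l => ?_⟩ hins
  have hl : l = 0 ∨ l = 1 := by
    fin_cases l
    · left; rfl
    · right; rfl
  have hn : ((n - x0 : ℕ) : ℤ) = (n : ℤ) - x0 := by omega
  rcases Finset.mem_union.1 hy with h1 | h1
  · have h2 := hMb y h1
    rcases hl with rfl | rfl
    · simp only [Matrix.cons_val_zero]
      push_cast
      omega
    · simp only [Matrix.cons_val_one]
      push_cast
      omega
  · have h2 := hOimg y h1
    rcases hl with rfl | rfl
    · simp only [Matrix.cons_val_zero]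
      push_cast
      omega
    · simp only [Matrix.cons_val_one]
      push_cast
      omega

/-- The full block with `h - 1` rows. -/
theorem block_le {Q : Finset (Fin 2 → ℤ)} {w h : ℕ} (hQ : LeftPair Q w h) (W : ℕ) :
    W * (h - 1) ≤ mm Q ![W, h - 1] := by
  classical
  obtain ⟨sw, hswQ, hsw0, hsw1⟩ := hQ.sw
  obtain ⟨nw, hnwQ, hnw0, hnw1⟩ := hQ.nw
  have hsb := hQ.box sw hswQ
  let B : Finset (Fin 2 → ℤ) := Fintype.piFinset
    (fun l => Finset.Ico (0 : ℤ) ((![W, h - 1] : Fin 2 → ℕ) l : ℤ))
  have hcard : B.card = W * (h - 1) := by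
    simp [B, Fintype.card_piFinset, Fin.prod_univ_two]
  have hfit : Fits B ![W, h - 1] := by
    refine ⟨0, fun x hx l => ?_⟩
    have := Fintype.mem_piFinset.1 hx l
    rw [Finset.mem_Ico] at this
    simpa using this
  rw [← hcard]
  refine le_mm hfit ?_
  rintro ⟨e, he1, he2⟩
  have h1 := Fintype.mem_piFinset.1 (he1 sw hswQ) 1
  have h2 := Fintype.mem_piFinset.1 (he1 nw hnwQ) 1
  rw [Finset.mem_Ico] at h1 h2
  simp only [Matrix.cons_val_one] at h1 h2
  have hh1 : (1 : ℤ) ≤ h := by omega
  have hcast : (((h - 1 : ℕ)) : ℤ) = (h : ℤ) - 1 := by omega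
  by_cases hcase : h = 1
  · subst hcase
    simp at h1
    omega
  · have := he2 sw hswQ nw hnwQ 1 (by omega)
    simp at h1 h2
    omega

theorem peel {Q : Finset (Fin 2 → ℤ)} {w h : ℕ} (hQ : LeftPair Q w h) (D : ℕ)
    (hD : ∀ n, mm Q (fun _ => n) ≤ D * n) (ε : ℝ) (hε : 0 < ε) :
    ∃ (C : ℝ) (r : ℕ), ∀ n j : ℕ, 1 ≤ n →
      (j : ℝ) * (mm Q (fun _ => n) - ε * n - C) ≤ mm Q (fun _ => j * n + r) := by
  classical
  have hQne : Q.Nonempty := by
    obtain ⟨q, hq, -⟩ := hQ.sw
    exact ⟨q, hq⟩
  have hh : 0 < h := by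
    obtain ⟨q, hq, -⟩ := hQ.sw
    have := hQ.box q hq
    omega
  obtain ⟨G0, hG0⟩ := exists_nat_gt ((D : ℝ) / ε)
  set G := G0 + 1 with hG
  have hGD : (D : ℝ) ≤ ε * G := by
    rw [div_lt_iff₀ hε] at hG0
    have : (G : ℝ) = G0 + 1 := by rw [hG]; push_cast; ring
    rw [this]
    nlinarith
  set K := 3 * h * G with hK
  have hKpos : 0 < K := by positivity
  set C := w * 2 ^ K * K with hC
  refine ⟨C, h - 1, fun n j hn => ?_⟩
  obtain ⟨A0, ⟨a0, ha0⟩, hA0, hA0card⟩ := exists_mm hQne (fun _ => n)
  set A := shift (-a0) A0 with hAdef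
  have hA : ¬ Emb Q A := fun hE => hA0 (emb_shift.1 hE)
  have hAcard : A.card = mm Q (fun _ => n) := by rw [hAdef, card_shift, hA0card]
  have hAbox : ∀ a ∈ A, 0 ≤ a 0 ∧ a 0 < n ∧ 0 ≤ a 1 ∧ a 1 < n := by
    intro a ha
    have h1 := ha0 _ (mem_shift.1 ha) 0
    have h2 := ha0 _ (mem_shift.1 ha) 1
    simp at h1 h2
    omega
  -- upper bound through rectangles
  have hrect : ∀ (x : ℕ), x ≤ n → mm Q ![j * x + j * (n - x), (h - 1) + j * n] ≤
      mm Q (fun _ => j * n + (h - 1)) := by
    intro x hx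
    apply mm_mono hQne
    intro l
    have hl : l = 0 ∨ l = 1 := by
      fin_cases l
      · left; rfl
      · right; rfl
    have : j * x + j * (n - x) = j * n := by
      rw [← mul_add]
      congr 1
      omega
    rcases hl with rfl | rfl
    · show j * x + j * (n - x) ≤ j * n + (h - 1)
      omega
    · show (h - 1) + j * n ≤ j * n + (h - 1)
      omega
  by_cases hrows : (A.image (fun b => b 1)).card < K
  · -- few rows
    have h1 := thin hQ.box hA (x := n) (fun b hb => ⟨(hAbox b hb).1, (hAbox b hb).2.1⟩) hrows.le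
    have h2 := block_le hQ (j * n)
    have h3 : mm Q ![j * n, h - 1] ≤ mm Q (fun _ => j * n + (h - 1)) := by
      apply mm_mono hQne
      intro l
      have hl : l = 0 ∨ l = 1 := by
        fin_cases l
        · left; rfl
        · right; rfl
      rcases hl with rfl | rfl
      · show j * n ≤ j * n + (h - 1)
        omega
      · show h - 1 ≤ j * n + (h - 1)
        omega
    have h4 : j * n * (h - 1) ≤ mm Q (fun _ => j * n + (h - 1)) := h2.trans h3
    rw [hAcard, ← hC] at h1
    have h5 : (mm Q (fun _ => n) : ℝ) ≤ ((h - 1 : ℕ) : ℝ) * n + C := by exact_mod_cast h1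
    have h6 : ((j * n * (h - 1) : ℕ) : ℝ) ≤ mm Q (fun _ => j * n + (h - 1)) := by exact_mod_cast h4
    refine le_trans ?_ h6
    have h7 : ((j * n * (h - 1) : ℕ) : ℝ) = (j : ℝ) * (((h - 1 : ℕ) : ℝ) * n) := by
      push_cast
      ring
    rw [h7]
    apply mul_le_mul_of_nonneg_left _ (Nat.cast_nonneg j)
    have : 0 ≤ ε * n := by positivity
    linarith
  · push Not at hrows
    -- the first column with many rows hit
    let T : ℕ → Finset ℤ := fun x => (A.filter (fun a => a 0 ≤ (x : ℤ))).image (fun b => b 1)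
    have hex : ∃ x, K ≤ (T x).card := by
      refine ⟨n, ?_⟩
      have : A.filter (fun a => a 0 ≤ (n : ℤ)) = A := by
        apply Finset.filter_true_of_mem
        intro a ha
        have := hAbox a ha
        omega
      simp only [T]
      rw [this]
      exact hrows
    set x0 := Nat.find hex with hx0def
    have hx0 : K ≤ (T x0).card := Nat.find_spec hex
    have hx0n : x0 ≤ n := by
      apply Nat.find_min'
      have : A.filter (fun a => a 0 ≤ (n : ℤ)) = A := by
        apply Finset.filter_true_of_mem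
        intro a ha
        have := hAbox a ha
        omega
      simp only [T]
      rw [this]
      exact hrows
    set B := A.filter (fun a => a 0 < (x0 : ℤ)) with hBdef
    have hBrows : (B.image (fun b => b 1)).card ≤ K := by
      rcases Nat.eq_zero_or_pos x0 with h0 | h0
      · have : B = ∅ := by
          rw [hBdef, Finset.filter_eq_empty_iff]
          intro a ha
          have := hAbox a ha
          rw [h0]
          push_cast
          omega
        rw [this]
        simp
      · have h1 := Nat.find_min hex (m := x0 - 1) (by omega)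
        have h2 : B = A.filter (fun a => a 0 ≤ ((x0 - 1 : ℕ) : ℤ)) := by
          rw [hBdef]
          apply Finset.filter_congr
          intro a _
          omega
        rw [h2]
        simp only [T] at h1
        omega
    have hBcard := thin hQ.box (fun hE => hA (hE.mono (Finset.filter_subset _ _))) (B := B)
      (x := x0) (fun b hb => by
        have h1 := (Finset.mem_filter.1 hb).2
        have h2 := hAbox b (Finset.mem_filter.1 hb).1
        omega) hBrows
    rw [← hC] at hBcard
    -- rows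
    obtain ⟨T', hT', hT'card⟩ := Finset.exists_subset_card_eq hx0
    let f := T'.orderEmbOfFin hT'card
    let F : ℕ → ℤ := fun i => if hi : i < K then f ⟨i, hi⟩ else 0
    have hFmem : ∀ i < K, F i ∈ T x0 := by
      intro i hi
      simp only [F]
      rw [dif_pos hi]
      exact hT' (Finset.orderEmbOfFin_mem T' hT'card _)
    have hFgap : ∀ i i' : ℕ, i ≤ i' → i' < K → (i' : ℤ) - i ≤ F i' - F i := by
      intro i i' h1 h2
      simp only [F]
      rw [dif_pos h2, dif_pos (lt_of_le_of_lt h1 h2)]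
      exact strictMono_int_gap f.strictMono (i := ⟨i, _⟩) (j := ⟨i', h2⟩) h1
    have hgroup : ∀ g < G, 3 * h * g + 3 * h ≤ K := by
      intro g hg
      rw [hK]
      calc 3 * h * g + 3 * h = 3 * h * (g + 1) := by ring
        _ ≤ 3 * h * G := Nat.mul_le_mul_left _ hg
    let Ag : ℕ → Finset (Fin 2 → ℤ) := fun g =>
      A.filter (fun a => F (3 * h * g) ≤ a 1 ∧ a 1 ≤ F (3 * h * g + 3 * h - 1))
    have hdisj : ∀ g ∈ Finset.range G, ∀ g' ∈ Finset.range G, g ≠ g' →
        Disjoint (Ag g) (Ag g') := by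
      have haux : ∀ g g', g < g' → g' < G → Disjoint (Ag g) (Ag g') := by
        intro g g' h1 h2
        rw [Finset.disjoint_left]
        intro a ha ha'
        have e1 := (Finset.mem_filter.1 ha).2
        have e2 := (Finset.mem_filter.1 ha').2
        have e3 : 3 * h * g + 3 * h ≤ 3 * h * g' := by
          calc 3 * h * g + 3 * h = 3 * h * (g + 1) := by ring
            _ ≤ 3 * h * g' := Nat.mul_le_mul_left _ h1
        have e4 := hgroup g' h2
        have e5 := hFgap (3 * h * g + 3 * h - 1) (3 * h * g') (by omega) (by omega)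
        omega
      intro g hg g' hg' hne
      rcases lt_or_gt_of_ne hne with h1 | h1
      · exact haux g g' h1 (Finset.mem_range.1 hg')
      · exact (haux g' g h1 (Finset.mem_range.1 hg)).symm
    have hsum : ∑ g ∈ Finset.range G, (Ag g).card ≤ A.card := by
      rw [← Finset.card_biUnion hdisj]
      apply Finset.card_le_card
      intro a ha
      obtain ⟨g, -, hg⟩ := Finset.mem_biUnion.1 ha
      exact (Finset.mem_filter.1 hg).1
    obtain ⟨g, hgr, hg⟩ : ∃ g ∈ Finset.range G, (Ag g).card * G ≤ A.card := by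
      apply Finset.exists_le_of_sum_le (⟨0, by simp [hG]⟩ : (Finset.range G).Nonempty)
      rw [← Finset.sum_mul, Finset.sum_const, Finset.card_range, smul_eq_mul, mul_comm G]
      exact Nat.mul_le_mul_right _ hsum
    have hgG := Finset.mem_range.1 hgr
    have hgK := hgroup g hgG
    set j0 := F (3 * h * g) with hj0
    set j1 := F (3 * h * g + 3 * h - 1) + 1 with hj1
    have hhit : ∀ i, ∃ a : Fin 2 → ℤ, i < h → a ∈ A ∧ a 0 ≤ x0 ∧ a 1 = F (3 * h * g + h + i) := by
      intro i
      by_cases hi : i < h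
      · have h1 := hFmem (3 * h * g + h + i) (by omega)
        obtain ⟨a, ha, ha1⟩ := Finset.mem_image.1 h1
        exact ⟨a, fun _ => ⟨(Finset.mem_filter.1 ha).1, (Finset.mem_filter.1 ha).2, ha1⟩⟩
      · exact ⟨0, fun h2 => absurd h2 hi⟩
    choose hits hhits using hhit
    have hlastmem : F (3 * h * g + 3 * h - 1) ∈ T x0 := hFmem _ (by omega)
    have hlastb : 0 ≤ F (3 * h * g + 3 * h - 1) ∧ F (3 * h * g + 3 * h - 1) < n := by
      obtain ⟨a, ha, ha1⟩ := Finset.mem_image.1 hlastmem
      have := hAbox a (Finset.mem_filter.1 ha).1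
      omega
    have hstep := fun W H => insert_step hQ hA hx0n hAbox (j0 := j0) (j1 := j1) (by omega)
      (by omega) hits (fun i hi => (hhits i hi).1) (fun i hi => (hhits i hi).2.1)
      (fun i hi => by
        have e1 := (hhits i hi).2.2
        have e2 := hFgap (3 * h * g) (3 * h * g + h + i) (by omega) (by omega)
        have e3 := hFgap (3 * h * g + h + i) (3 * h * g + 3 * h - 1) (by omega) (by omega)
        omega)
      (fun i i' h1 h2 => by
        have e1 := (hhits i (by omega)).2.2
        have e2 := (hhits i' h2).2.2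
        have e3 := hFgap (3 * h * g + h + i) (3 * h * g + h + i') (by omega) (by omega)
        omega) W H
    set O := outer A x0 j0 j1 with hO
    have hcover : A.card ≤ B.card + (Ag g).card + O.card := by
      have hsub : A ⊆ B ∪ Ag g ∪ O := by
        intro a ha
        rw [Finset.mem_union, Finset.mem_union]
        by_cases h1 : a 0 < (x0 : ℤ)
        · left; left
          exact Finset.mem_filter.2 ⟨ha, h1⟩
        · by_cases h2 : j0 ≤ a 1 ∧ a 1 < j1
          · left; right
            exact Finset.mem_filter.2 ⟨ha, h2.1, by omega⟩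
          · right
            exact Finset.mem_filter.2 ⟨ha, by omega, by omega⟩
      refine (Finset.card_le_card hsub).trans ((Finset.card_union_le _ _).trans ?_)
      exact Nat.add_le_add_right (Finset.card_union_le _ _) _
    have hiter : ∀ i W H : ℕ, mm Q ![W, H] + i * O.card ≤
        mm Q ![W + i * (n - x0), H + i * n] := by
      intro i
      induction i with
      | zero => intro W H; simp
      | succ i ih =>
        intro W H
        have h1 := ih (W + (n - x0)) (H + n)
        have h2 := hstep W H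
        have h3 : W + (n - x0) + i * (n - x0) = W + (i + 1) * (n - x0) := by ring
        have h4 : H + n + i * n = H + (i + 1) * n := by ring
        rw [h3, h4] at h1
        have h5 : (i + 1) * O.card = i * O.card + O.card := by ring
        omega
    have h1 := hiter j (j * x0) (h - 1)
    have h2 := block_le hQ (j * x0)
    have h3 := hrect x0 hx0n
    have h4 : j * x0 * (h - 1) + j * O.card ≤ mm Q (fun _ => j * n + (h - 1)) := by omega
    have h5 : ((j * x0 * (h - 1) + j * O.card : ℕ) : ℝ) ≤ mm Q (fun _ => j * n + (h - 1)) := by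
      exact_mod_cast h4
    refine le_trans ?_ h5
    have h6 : ((j * x0 * (h - 1) + j * O.card : ℕ) : ℝ) =
        (j : ℝ) * (((h - 1 : ℕ) : ℝ) * x0 + O.card) := by
      push_cast
      ring
    rw [h6]
    apply mul_le_mul_of_nonneg_left _ (Nat.cast_nonneg j)
    have h7 : (mm Q (fun _ => n) : ℝ) ≤ B.card + (Ag g).card + O.card := by
      rw [← hAcard]
      exact_mod_cast hcover
    have h8 : (B.card : ℝ) ≤ ((h - 1 : ℕ) : ℝ) * x0 + C := by exact_mod_cast hBcard
    have h9 : ((Ag g).card : ℝ) ≤ ε * n := by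
      have hGpos : (0 : ℝ) < G := by
        have : 0 < G := by omega
        exact_mod_cast this
      have e1 : ((Ag g).card : ℝ) * G ≤ D * n := by
        have e2 : (Ag g).card * G ≤ D * n := by
          have := hD n
          rw [← hAcard] at this
          exact hg.trans this
        exact_mod_cast e2
      have hn0 : (0 : ℝ) ≤ n := Nat.cast_nonneg n
      have e3 : (D : ℝ) * n ≤ ε * G * n := mul_le_mul_of_nonneg_right hGD hn0
      have e4 : ((Ag g).card : ℝ) * G ≤ (ε * n) * G := by nlinarith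
      exact le_of_mul_le_mul_right e4 hGpos
    linarith

/-- Convergence for patterns with two left corners and no right corner. -/
theorem conv_leftPair {Q : Finset (Fin 2 → ℤ)} {w h : ℕ} (hQ : LeftPair Q w h) :
    ∃ L : ℝ, Tendsto (fun n : ℕ => (mm Q (fun _ => n) : ℝ) / n) atTop (𝓝 L) := by
  have hQne : Q.Nonempty := by
    obtain ⟨q, hq, -⟩ := hQ.sw
    exact ⟨q, hq⟩
  obtain ⟨D, hD⟩ := mm_bound Q hQne
  have hD' : ∀ n, mm Q (fun _ => n) ≤ D * n := fun n => by simpa using hD n
  exact conv_of_weak (fun n => mm Q (fun _ => n)) (fun a b hab => mm_mono hQne (fun _ => hab)) D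
    hD' (fun ε hε => peel hQ D hD' ε hε)

end Pool.Agent.Lib.MPb1c185
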