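import Pool.Agent.Lib.MP_b1c185_co.Latin

/-!
Permutation matrices in dimension `D` and tuples of permutations.
-/

namespace Pool.Agent.Lib.MPb1c185

open Filter Topology

/-- A `D`-dimensional permutation matrix of size `k`: each cross section in every direction contains
exactly one `1`. -/
def IsPermMat {D k : ℕ} (P : Mat D (fun _ => k)) : Prop :=
  ∀ (l : Fin D) (i : Fin k), ∃! p, P p = true ∧ p l = i

/-- The matrix with ones at the points `(σ 0 i, …, σ (D-1) i)`. -/
noncomputable def ofPerms {D k : ℕ} (σ : Fin D → Equiv.Perm (Fin k)) : Mat D (fun _ => k) := by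
  classical exact fun x => decide (∃ i, ∀ l, σ l i = x l)

theorem ofPerms_eq_true {D k : ℕ} {σ : Fin D → Equiv.Perm (Fin k)} {x : Fin D → Fin k} :
    ofPerms σ x = true ↔ ∃ i, ∀ l, σ l i = x l := by
  unfold ofPerms
  simp only [decide_eq_true_eq]

theorem isPermMat_ofPerms {D k : ℕ} (σ : Fin D → Equiv.Perm (Fin k)) :
    IsPermMat (ofPerms σ) := by
  intro l i
  refine ⟨fun l' => σ l' ((σ l).symm i), ⟨ofPerms_eq_true.2 ⟨_, fun _ => rfl⟩, by simp⟩, ?_⟩
  rintro p ⟨hp, hpl⟩
  obtain ⟨j, hj⟩ := ofPerms_eq_true.1 hp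
  have : j = (σ l).symm i := by
    rw [← hpl, ← hj l]
    simp
  funext l'
  rw [← hj l', this]

/-- Each permutation matrix comes from exactly `k!` tuples. -/
theorem card_fiber {d k : ℕ} {P : Mat (d + 1) (fun _ => k)} (hP : IsPermMat P) :
    Nat.card {σ : Fin (d + 1) → Equiv.Perm (Fin k) // ofPerms σ = P} = Nat.factorial k := by
  classical
  choose c hc hcu using fun i : Fin k => hP 0 i
  have hc1 : ∀ i, P (c i) = true := fun i => (hc i).1
  have hc0 : ∀ i, c i 0 = i := fun i => (hc i).2
  have huniq : ∀ p, P p = true → p = c (p 0) := fun p hp => hcu (p 0) p ⟨hp, rfl⟩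
  have hinj : ∀ l, Function.Injective (fun i => c i l) := by
    intro l i j hij
    simp only at hij
    have h1 := (hP l (c i l)).unique ⟨hc1 i, rfl⟩ ⟨hc1 j, hij.symm⟩
    rw [← hc0 i, ← hc0 j, h1]
  have hbij : ∀ l, Function.Bijective (fun i => c i l) := fun l =>
    Finite.injective_iff_bijective.1 (hinj l)
  let C : Fin (d + 1) → Equiv.Perm (Fin k) := fun l => Equiv.ofBijective _ (hbij l)
  have hC : ∀ l i, C l i = c i l := fun l i => rfl
  have hE : Nat.card (Equiv.Perm (Fin k)) =
      Nat.card {σ : Fin (d + 1) → Equiv.Perm (Fin k) // ofPerms σ = P} := by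
    refine Nat.card_congr (Equiv.ofBijective (fun ρ => ⟨fun l => ρ.trans (C l), ?_⟩) ⟨?_, ?_⟩)
    · funext x
      have : (ofPerms (fun l => ρ.trans (C l)) x = true) ↔ P x = true := by
        rw [ofPerms_eq_true]
        constructor
        · rintro ⟨i, hi⟩
          have : c (ρ i) = x := by
            funext l
            rw [← hC]
            exact hi l
          rw [← this]
          exact hc1 _
        · intro hx
          refine ⟨ρ.symm (x 0), fun l => ?_⟩
          rw [Equiv.trans_apply, Equiv.apply_symm_apply, hC]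
          rw [← huniq x hx]
      by_cases hx : P x = true
      · rw [hx, this.2 hx]
      · have h2 : ¬ ofPerms (fun l => ρ.trans (C l)) x = true := fun h => hx (this.1 h)
        rw [Bool.not_eq_true] at hx h2
        rw [hx, h2]
    · intro ρ ρ' h
      have h1 := congrFun (Subtype.ext_iff.1 h) 0
      ext1 i
      have h2 := Equiv.congr_fun h1 i
      simp only [Equiv.trans_apply, hC, hc0] at h2
      exact h2
    · rintro ⟨σ, hσ⟩
      refine ⟨σ 0, ?_⟩
      apply Subtype.ext
      funext l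
      ext1 i
      simp only [Equiv.trans_apply, hC]
      have h1 : P (fun l => σ l i) = true := by
        rw [← hσ]
        exact ofPerms_eq_true.2 ⟨i, fun _ => rfl⟩
      have h2 := huniq _ h1
      simp only at h2
      rw [← h2]
  rw [← hE, Nat.card_perm, Nat.card_fin]

/-- A nonconstant weakly monotone labelling in terms of permutations. -/
def Bad {D k : ℕ} (s : ℕ) (σ : Fin D → Equiv.Perm (Fin k)) : Prop :=
  ∃ g : Fin D → Fin k → Fin s, (∀ l, Monotone (g l)) ∧ (∃ l a b, g l a ≠ g l b) ∧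
    ∀ i, s ∣ ∑ l, ((g l (σ l i) : Fin s) : ℕ)

theorem indec_of_not_bad {D k s : ℕ} {σ : Fin D → Equiv.Perm (Fin k)} (h : ¬ Bad s σ) :
    Indec (pts (ofPerms σ)) (latin D s) := by
  classical
  intro lam hlam hweak
  let pt : Fin k → (Fin D → ℤ) := fun i l => ((σ l i : ℕ) : ℤ)
  have hpt : ∀ i, pt i ∈ pts (ofPerms σ) := fun i =>
    mem_pts.2 ⟨fun l => σ l i, ofPerms_eq_true.2 ⟨i, fun _ => rfl⟩, rfl⟩
  have hall : ∀ p ∈ pts (ofPerms σ), ∃ i, pt i = p := by
    intro p hp
    obtain ⟨x, hx, rfl⟩ := mem_pts.1 hp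
    obtain ⟨i, hi⟩ := ofPerms_eq_true.1 hx
    refine ⟨i, ?_⟩
    funext l
    simp only [pt]
    rw [hi l]
  have hlt : ∀ i l, lam (pt i) l < s := fun i l => (mem_latin.1 (hlam _ (hpt i))).1 l
  let g : Fin D → Fin k → Fin s := fun l v => ⟨lam (pt ((σ l).symm v)) l, hlt _ _⟩
  have hg : ∀ l i, ((g l (σ l i) : Fin s) : ℕ) = lam (pt i) l := by
    intro l i
    simp [g]
  have hmono : ∀ l, Monotone (g l) := by
    intro l v v' hv
    rcases hv.eq_or_lt with h1 | h1
    · rw [h1]
    · rw [Fin.le_def]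
      simp only [g]
      apply hweak _ (hpt _) _ (hpt _)
      simp only [pt, Equiv.apply_symm_apply]
      exact_mod_cast h1
  have hconst : ∀ l a b, g l a = g l b := by
    by_contra hcon
    push Not at hcon
    refine h ⟨g, hmono, hcon, fun i => ?_⟩
    simp only [hg]
    exact (mem_latin.1 (hlam _ (hpt i))).2
  intro p hp q hq
  obtain ⟨i, rfl⟩ := hall p hp
  obtain ⟨j, rfl⟩ := hall q hq
  funext l
  rw [← hg l i, ← hg l j, hconst l (σ l i) (σ l j)]

end Pool.Agent.Lib.MPb1c185
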