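import Pool.Agent.Lib.MP_b1c185_co.Symm

/-!
Superadditivity for patterns without a weak decomposition, in dimension two.
-/

namespace Pool.Agent.Lib.MPb1c185

open Filter Topology

/-- A weak decomposition: the points of `Q` satisfying `L` lie weakly below and to the left of the
others. -/
structure Split (Q : Finset (Fin 2 → ℤ)) (L : (Fin 2 → ℤ) → Prop) : Prop where
  low : ∃ p ∈ Q, L p
  up : ∃ p ∈ Q, ¬ L p
  le : ∀ p ∈ Q, ∀ q ∈ Q, L p → ¬ L q → p 0 ≤ q 0 ∧ p 1 ≤ q 1

/-- A weak decomposition in the other direction: the points of `Q` satisfying `L` lie weakly above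
and to the left of the others. -/
structure SkewSplit (Q : Finset (Fin 2 → ℤ)) (L : (Fin 2 → ℤ) → Prop) : Prop where
  low : ∃ p ∈ Q, L p
  up : ∃ p ∈ Q, ¬ L p
  le : ∀ p ∈ Q, ∀ q ∈ Q, L p → ¬ L q → p 0 ≤ q 0 ∧ q 1 ≤ p 1

theorem superadd {Q : Finset (Fin 2 → ℤ)} (hQ : Q.Nonempty) (h : ∀ L, ¬ Split Q L) (a b : ℕ) :
    mm Q (fun _ => a) + mm Q (fun _ => b) ≤ mm Q (fun _ => a + b) := by
  classical
  obtain ⟨A, ⟨s, hs⟩, hA, hAc⟩ := exists_mm hQ (fun _ => a)
  obtain ⟨B, ⟨t, ht⟩, hB, hBc⟩ := exists_mm hQ (fun _ => b)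
  have hA1 : ∀ x ∈ shift (-s) A, ∀ l, 0 ≤ x l ∧ x l < a := by
    intro x hx l
    have h1 := (hs _ (mem_shift.1 hx) l).1
    have h2 : (x - -s) l < s l + a := (hs _ (mem_shift.1 hx) l).2
    simp at h1 h2
    omega
  have hB1 : ∀ x ∈ shift (fun l => a - t l) B, ∀ l, (a : ℤ) ≤ x l ∧ x l < a + b := by
    intro x hx l
    have h1 := (ht _ (mem_shift.1 hx) l).1
    have h2 : (x - fun l => (a : ℤ) - t l) l < t l + b := (ht _ (mem_shift.1 hx) l).2
    simp at h1 h2
    omega
  have hdisj : Disjoint (shift (-s) A) (shift (fun l => (a : ℤ) - t l) B) := by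
    rw [Finset.disjoint_left]
    intro x hx hx'
    have h1 := hA1 x hx 0
    have h2 := hB1 x hx' 0
    omega
  have hcard : (shift (-s) A ∪ shift (fun l => (a : ℤ) - t l) B).card =
      mm Q (fun _ => a) + mm Q (fun _ => b) := by
    rw [Finset.card_union_of_disjoint hdisj, card_shift, card_shift, hAc, hBc]
  rw [← hcard]
  refine le_mm ⟨0, fun x hx l => ?_⟩ ?_
  · rcases Finset.mem_union.1 hx with h1 | h1
    · have := hA1 x h1 l
      show (0 : ℤ) ≤ x l ∧ x l < 0 + ((a + b : ℕ) : ℤ)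
      push_cast
      omega
    · have := hB1 x h1 l
      show (0 : ℤ) ≤ x l ∧ x l < 0 + ((a + b : ℕ) : ℤ)
      push_cast
      omega
  · rintro ⟨e, he1, he2⟩
    by_cases hlow : ∃ p ∈ Q, e p ∈ shift (-s) A
    · by_cases hup : ∃ p ∈ Q, ¬ e p ∈ shift (-s) A
      · refine h (fun p => e p ∈ shift (-s) A) ⟨hlow, hup, ?_⟩
        intro p hp q hq hpA hqA
        have hqB : e q ∈ shift (fun l => (a : ℤ) - t l) B := by
          rcases Finset.mem_union.1 (he1 q hq) with h1 | h1
          · exact absurd h1 hqA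
          · exact h1
        have key : ∀ l, p l ≤ q l := by
          intro l
          by_contra hcon
          push Not at hcon
          have h1 := he2 q hq p hp l hcon
          have h2 := hA1 _ hpA l
          have h3 := hB1 _ hqB l
          omega
        exact ⟨key 0, key 1⟩
      · push Not at hup
        exact hA (emb_shift.1 ⟨e, hup, he2⟩)
    · push Not at hlow
      refine hB ((emb_shift (t := fun l => (a : ℤ) - t l)).1 ⟨e, fun p hp => ?_, he2⟩)
      rcases Finset.mem_union.1 (he1 p hp) with h1 | h1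
      · exact absurd h1 (hlow p hp)
      · exact h1

theorem conv_of_not_split {Q : Finset (Fin 2 → ℤ)} (hQ : Q.Nonempty) (h : ∀ L, ¬ Split Q L) :
    Conv Q := by
  obtain ⟨D, hD⟩ := mm_bound Q hQ
  have hD' : ∀ n, mm Q (fun _ => n) ≤ D * n := fun n => by simpa using hD n
  refine conv_of_weak (fun n => mm Q (fun _ => n)) (fun a b hab => mm_mono hQ (fun _ => hab)) D
    hD' (fun ε hε => ⟨0, 0, fun n j hn => ?_⟩)
  have key : j * mm Q (fun _ => n) ≤ mm Q (fun _ => j * n + 0) := by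
    induction j with
    | zero => simp
    | succ j ih =>
      have h1 := superadd hQ h (j * n + 0) n
      have h2 : (j + 1) * n + 0 = j * n + 0 + n := by ring
      rw [h2]
      have h3 : (j + 1) * mm Q (fun _ => n) = j * mm Q (fun _ => n) + mm Q (fun _ => n) := by ring
      omega
  have key' : (j : ℝ) * mm Q (fun _ => n) ≤ mm Q (fun _ => j * n + 0) := by exact_mod_cast key
  refine le_trans ?_ key'
  apply mul_le_mul_of_nonneg_left _ (Nat.cast_nonneg j)
  have : 0 ≤ ε * n := by positivity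
  linarith

theorem conv_of_not_skewSplit {Q : Finset (Fin 2 → ℤ)} (hQ : Q.Nonempty)
    (h : ∀ L, ¬ SkewSplit Q L) : Conv Q := by
  refine Conv.of_sym isSym_flip1 hQ (conv_of_not_split (hQ.image _) ?_)
  intro L hL
  refine h (fun p => L (flip1 p)) ⟨?_, ?_, ?_⟩
  · obtain ⟨p, hp, hLp⟩ := hL.low
    refine ⟨flip1 p, isSym_flip1.mem_image.1 hp, ?_⟩
    rwa [isSym_flip1.inv]
  · obtain ⟨p, hp, hLp⟩ := hL.up
    refine ⟨flip1 p, isSym_flip1.mem_image.1 hp, ?_⟩
    rwa [isSym_flip1.inv]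
  · intro p hp q hq hLp hLq
    have h1 := hL.le (flip1 p) (Finset.mem_image_of_mem _ hp) (flip1 q)
      (Finset.mem_image_of_mem _ hq) hLp hLq
    simp only [flip1_zero, flip1_one] at h1
    omega

end Pool.Agent.Lib.MPb1c185
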