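import Pool.Agent.Lib.MP_b1c185_co.Peel

/-!
Symmetries of the model: reflections, exchange of the coordinates, translations of the pattern.
-/

namespace Pool.Agent.Lib.MPb1c185

open Filter Topology

/-- An involutive signed permutation of the coordinates. -/
structure IsSym {d : ℕ} (φ : (Fin d → ℤ) → (Fin d → ℤ)) : Prop where
  inv : ∀ p, φ (φ p) = p
  form : ∃ (σ : Fin d → Fin d) (ε : Fin d → ℤ), (∀ l, ε l = 1 ∨ ε l = -1) ∧
    ∀ p l, φ p l = ε l * p (σ l)

theorem IsSym.injective {d : ℕ} {φ : (Fin d → ℤ) → (Fin d → ℤ)} (h : IsSym φ) :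
    Function.Injective φ := by
  intro a b hab
  rw [← h.inv a, ← h.inv b, hab]

theorem IsSym.mem_image {d : ℕ} {φ : (Fin d → ℤ) → (Fin d → ℤ)} (h : IsSym φ)
    {Q : Finset (Fin d → ℤ)} {p : Fin d → ℤ} : p ∈ Q.image φ ↔ φ p ∈ Q := by
  rw [Finset.mem_image]
  constructor
  · rintro ⟨q, hq, rfl⟩
    rwa [h.inv]
  · intro hp
    exact ⟨φ p, hp, h.inv p⟩

theorem IsSym.image_image {d : ℕ} {φ : (Fin d → ℤ) → (Fin d → ℤ)} (h : IsSym φ)
    (Q : Finset (Fin d → ℤ)) : (Q.image φ).image φ = Q := by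
  ext p
  rw [h.mem_image, h.mem_image, h.inv]

theorem IsSym.emb {d : ℕ} {φ : (Fin d → ℤ) → (Fin d → ℤ)} (h : IsSym φ)
    {Q A : Finset (Fin d → ℤ)} (hE : Emb Q A) : Emb (Q.image φ) (A.image φ) := by
  obtain ⟨e, h1, h2⟩ := hE
  obtain ⟨σ, ε, hε, hform⟩ := h.form
  refine ⟨fun p => φ (e (φ p)), fun p hp => ?_, fun p hp q hq l hlt => ?_⟩
  · exact Finset.mem_image_of_mem _ (h1 _ (h.mem_image.1 hp))
  · have hp' := h.mem_image.1 hp
    have hq' := h.mem_image.1 hq
    have ep : p l = ε l * (φ p) (σ l) := by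
      rw [← hform, h.inv]
    have eq : q l = ε l * (φ q) (σ l) := by
      rw [← hform, h.inv]
    simp only
    rw [hform (e (φ p)), hform (e (φ q))]
    rw [ep, eq] at hlt ⊢
    rcases hε l with h3 | h3
    · rw [h3] at hlt ⊢
      have := h2 _ hp' _ hq' (σ l) (by linarith)
      linarith
    · rw [h3] at hlt ⊢
      have := h2 _ hq' _ hp' (σ l) (by linarith)
      linarith

theorem IsSym.emb_iff {d : ℕ} {φ : (Fin d → ℤ) → (Fin d → ℤ)} (h : IsSym φ)
    {Q A : Finset (Fin d → ℤ)} : Emb (Q.image φ) (A.image φ) ↔ Emb Q A := by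
  constructor
  · intro hE
    have := h.emb hE
    rwa [h.image_image, h.image_image] at this
  · exact h.emb

theorem IsSym.fits {d : ℕ} {φ : (Fin d → ℤ) → (Fin d → ℤ)} (h : IsSym φ)
    {A : Finset (Fin d → ℤ)} {n : ℕ} (hA : Fits A (fun _ => n)) :
    Fits (A.image φ) (fun _ => n) := by
  obtain ⟨a, ha⟩ := hA
  obtain ⟨σ, ε, hε, hform⟩ := h.form
  refine ⟨fun l => if ε l = 1 then a (σ l) else - a (σ l) - n + 1, fun x hx l => ?_⟩
  obtain ⟨y, hy, rfl⟩ := Finset.mem_image.1 hx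
  have h1 : a (σ l) ≤ y (σ l) := (ha y hy (σ l)).1
  have h2 : y (σ l) < a (σ l) + n := (ha y hy (σ l)).2
  rw [hform]
  show (if ε l = 1 then a (σ l) else - a (σ l) - n + 1) ≤ ε l * y (σ l) ∧
    ε l * y (σ l) < (if ε l = 1 then a (σ l) else - a (σ l) - n + 1) + n
  rcases hε l with h3 | h3
  · rw [if_pos h3, h3]
    constructor <;> linarith
  · have h4 : ¬ (ε l = 1) := by rw [h3]; norm_num
    rw [if_neg h4, h3]
    constructor <;> omega

theorem IsSym.mm_le {d : ℕ} {φ : (Fin d → ℤ) → (Fin d → ℤ)} (h : IsSym φ)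
    {Q : Finset (Fin d → ℤ)} (hQ : Q.Nonempty) (n : ℕ) :
    mm Q (fun _ => n) ≤ mm (Q.image φ) (fun _ => n) := by
  obtain ⟨A, h1, h2, h3⟩ := exists_mm hQ (fun _ => n)
  rw [← h3, ← Finset.card_image_of_injective A h.injective]
  exact le_mm (h.fits h1) (fun hE => h2 (h.emb_iff.1 hE))

theorem IsSym.mm_eq {d : ℕ} {φ : (Fin d → ℤ) → (Fin d → ℤ)} (h : IsSym φ)
    {Q : Finset (Fin d → ℤ)} (hQ : Q.Nonempty) (n : ℕ) :
    mm (Q.image φ) (fun _ => n) = mm Q (fun _ => n) := by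
  apply le_antisymm
  · have := h.mm_le (hQ.image φ) n
    rwa [h.image_image] at this
  · exact h.mm_le hQ n

theorem emb_shift_left {d : ℕ} {t : Fin d → ℤ} {Q A : Finset (Fin d → ℤ)} :
    Emb (shift t Q) A ↔ Emb Q A := by
  constructor
  · rintro ⟨e, h1, h2⟩
    refine ⟨fun p => e (p + t), fun p hp => h1 _ (mem_shift.2 (by simpa using hp)),
      fun p hp q hq l hlt => ?_⟩
    have := h2 (p + t) (mem_shift.2 (by simpa using hp)) (q + t) (mem_shift.2 (by simpa using hq)) l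
      (by simpa using hlt)
    simpa using this
  · rintro ⟨e, h1, h2⟩
    refine ⟨fun p => e (p - t), fun p hp => h1 _ (mem_shift.1 hp), fun p hp q hq l hlt => ?_⟩
    have := h2 (p - t) (mem_shift.1 hp) (q - t) (mem_shift.1 hq) l (by simpa using hlt)
    simpa using this

theorem mm_shift_left {d : ℕ} (t : Fin d → ℤ) (Q : Finset (Fin d → ℤ)) (n : Fin d → ℕ) :
    mm (shift t Q) n = mm Q n := by
  unfold mm
  congr 1
  ext N
  simp only [Set.mem_ofPred_eq, emb_shift_left]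

/-- Convergence of the normalized extremal function of the model, in dimension two. -/
def Conv (Q : Finset (Fin 2 → ℤ)) : Prop :=
  ∃ L : ℝ, Tendsto (fun n : ℕ => (mm Q (fun _ => n) : ℝ) / n) atTop (𝓝 L)

theorem Conv.of_sym {φ : (Fin 2 → ℤ) → (Fin 2 → ℤ)} (h : IsSym φ)
    {Q : Finset (Fin 2 → ℤ)} (hQ : Q.Nonempty) (hc : Conv (Q.image φ)) : Conv Q := by
  obtain ⟨L, hL⟩ := hc
  refine ⟨L, hL.congr (fun n => ?_)⟩
  rw [h.mm_eq hQ]

theorem Conv.of_shift {Q : Finset (Fin 2 → ℤ)} {t : Fin 2 → ℤ} (hc : Conv (shift t Q)) :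
    Conv Q := by
  obtain ⟨L, hL⟩ := hc
  refine ⟨L, hL.congr (fun n => ?_)⟩
  rw [mm_shift_left]

/-- Reflection in the first coordinate. -/
def flip0 (p : Fin 2 → ℤ) : Fin 2 → ℤ := ![-p 0, p 1]

/-- Reflection in the second coordinate. -/
def flip1 (p : Fin 2 → ℤ) : Fin 2 → ℤ := ![p 0, -p 1]

/-- Exchange of the two coordinates. -/
def swap01 (p : Fin 2 → ℤ) : Fin 2 → ℤ := ![p 1, p 0]

@[simp] theorem flip0_zero (p : Fin 2 → ℤ) : flip0 p 0 = -p 0 := rfl
@[simp] theorem flip0_one (p : Fin 2 → ℤ) : flip0 p 1 = p 1 := rfl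
@[simp] theorem flip1_zero (p : Fin 2 → ℤ) : flip1 p 0 = p 0 := rfl
@[simp] theorem flip1_one (p : Fin 2 → ℤ) : flip1 p 1 = -p 1 := rfl
@[simp] theorem swap01_zero (p : Fin 2 → ℤ) : swap01 p 0 = p 1 := rfl
@[simp] theorem swap01_one (p : Fin 2 → ℤ) : swap01 p 1 = p 0 := rfl

theorem fin2_cases (l : Fin 2) : l = 0 ∨ l = 1 := by
  fin_cases l
  · left; rfl
  · right; rfl

theorem ext2 {p q : Fin 2 → ℤ} (h0 : p 0 = q 0) (h1 : p 1 = q 1) : p = q := by
  funext l
  rcases fin2_cases l with rfl | rfl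
  · exact h0
  · exact h1

theorem isSym_flip0 : IsSym flip0 where
  inv p := ext2 (by simp) (by simp)
  form := ⟨id, ![-1, 1], fun l => by rcases fin2_cases l with rfl | rfl <;> simp, fun p l => by
    rcases fin2_cases l with rfl | rfl <;> simp⟩

theorem isSym_flip1 : IsSym flip1 where
  inv p := ext2 (by simp) (by simp)
  form := ⟨id, ![1, -1], fun l => by rcases fin2_cases l with rfl | rfl <;> simp, fun p l => by
    rcases fin2_cases l with rfl | rfl <;> simp⟩

theorem isSym_swap01 : IsSym swap01 where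
  inv p := ext2 (by simp) (by simp)
  form := ⟨fun l => if l = 0 then 1 else 0, fun _ => 1, fun l => Or.inl rfl, fun p l => by
    rcases fin2_cases l with rfl | rfl <;> simp⟩

/-- The ones of `Q` in the corners of its bounding box. -/
noncomputable def corners {d : ℕ} (Q : Finset (Fin d → ℤ)) : Finset (Fin d → ℤ) := by
  classical exact Q.filter (fun p => ∀ l, (∀ q ∈ Q, p l ≤ q l) ∨ (∀ q ∈ Q, q l ≤ p l))

theorem mem_corners {d : ℕ} {Q : Finset (Fin d → ℤ)} {p : Fin d → ℤ} :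
    p ∈ corners Q ↔ p ∈ Q ∧ ∀ l, (∀ q ∈ Q, p l ≤ q l) ∨ (∀ q ∈ Q, q l ≤ p l) := by
  classical
  unfold corners
  simp only [Finset.mem_filter]

theorem IsSym.corners_sub {d : ℕ} {φ : (Fin d → ℤ) → (Fin d → ℤ)} (h : IsSym φ)
    (Q : Finset (Fin d → ℤ)) : (corners Q).image φ ⊆ corners (Q.image φ) := by
  intro x hx
  obtain ⟨p, hp, rfl⟩ := Finset.mem_image.1 hx
  rw [mem_corners] at hp ⊢
  obtain ⟨σ, ε, hε, hform⟩ := h.form
  refine ⟨Finset.mem_image_of_mem _ hp.1, fun l => ?_⟩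
  rcases hε l with h3 | h3
  · rcases hp.2 (σ l) with h4 | h4
    · left
      intro q hq
      obtain ⟨r, hr, rfl⟩ := Finset.mem_image.1 hq
      rw [hform, hform, h3]
      have := h4 r hr
      linarith
    · right
      intro q hq
      obtain ⟨r, hr, rfl⟩ := Finset.mem_image.1 hq
      rw [hform, hform, h3]
      have := h4 r hr
      linarith
  · rcases hp.2 (σ l) with h4 | h4
    · right
      intro q hq
      obtain ⟨r, hr, rfl⟩ := Finset.mem_image.1 hq
      rw [hform, hform, h3]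
      have := h4 r hr
      linarith
    · left
      intro q hq
      obtain ⟨r, hr, rfl⟩ := Finset.mem_image.1 hq
      rw [hform, hform, h3]
      have := h4 r hr
      linarith

theorem IsSym.corners_eq {d : ℕ} {φ : (Fin d → ℤ) → (Fin d → ℤ)} (h : IsSym φ)
    (Q : Finset (Fin d → ℤ)) : (corners (Q.image φ)).card = (corners Q).card := by
  apply le_antisymm
  · have h1 := Finset.card_le_card (h.corners_sub (Q.image φ))
    rwa [h.image_image, Finset.card_image_of_injective _ h.injective] at h1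
  · have h1 := Finset.card_le_card (h.corners_sub Q)
    rwa [Finset.card_image_of_injective _ h.injective] at h1

end Pool.Agent.Lib.MPb1c185
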