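import Pool.Agent.Lib.MP_b1c185_co.Cross

/-!
Convergence in dimension two for patterns with at most two corner ones.
-/

namespace Pool.Agent.Lib.MPb1c185

open Filter Topology

theorem conv_cross {Q : Finset (Fin 2 → ℤ)} (hQ : Q.Nonempty) {a b : ℤ}
    (h : ∀ p ∈ Q, p 0 = a ∨ p 1 = b) : Conv Q := by
  classical
  obtain ⟨pmin, hmin1, hmin2⟩ : ∃ f : Fin 2 → (Fin 2 → ℤ), (∀ l, f l ∈ Q) ∧
      ∀ l, ∀ q ∈ Q, f l l ≤ q l := by
    have : ∀ l : Fin 2, ∃ p ∈ Q, ∀ q ∈ Q, p l ≤ q l := fun l =>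
      Finset.exists_min_image Q (fun p => p l) hQ
    choose f hf using this
    exact ⟨f, fun l => (hf l).1, fun l => (hf l).2⟩
  obtain ⟨pmax, hmax1, hmax2⟩ : ∃ f : Fin 2 → (Fin 2 → ℤ), (∀ l, f l ∈ Q) ∧
      ∀ l, ∀ q ∈ Q, q l ≤ f l l := by
    have : ∀ l : Fin 2, ∃ p ∈ Q, ∀ q ∈ Q, q l ≤ p l := fun l =>
      Finset.exists_max_image Q (fun p => p l) hQ
    choose f hf using this
    exact ⟨f, fun l => (hf l).1, fun l => (hf l).2⟩
  obtain ⟨q0, hq0⟩ := hQ
  -- a good centre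
  obtain ⟨a', b', hc, ha', hb'⟩ : ∃ a' b' : ℤ, (∀ p ∈ Q, p 0 = a' ∨ p 1 = b') ∧
      (pmin 0 0 ≤ a' ∧ a' ≤ pmax 0 0) ∧ (pmin 1 1 ≤ b' ∧ b' ≤ pmax 1 1) := by
    by_cases h1 : ∃ p ∈ Q, p 0 = a
    · obtain ⟨p, hp, hpa⟩ := h1
      by_cases h2 : ∃ p ∈ Q, p 1 = b
      · obtain ⟨p', hp', hpb⟩ := h2
        exact ⟨a, b, h, ⟨by rw [← hpa]; exact hmin2 0 p hp, by rw [← hpa]; exact hmax2 0 p hp⟩,
          ⟨by rw [← hpb]; exact hmin2 1 p' hp', by rw [← hpb]; exact hmax2 1 p' hp'⟩⟩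
      · push Not at h2
        refine ⟨a, q0 1, fun p hp => ?_,
          ⟨by rw [← hpa]; exact hmin2 0 p hp, by rw [← hpa]; exact hmax2 0 p hp⟩,
          ⟨hmin2 1 q0 hq0, hmax2 1 q0 hq0⟩⟩
        rcases h p hp with h3 | h3
        · exact Or.inl h3
        · exact absurd h3 (h2 p hp)
    · push Not at h1
      have h4 : ∀ p ∈ Q, p 1 = b := by
        intro p hp
        rcases h p hp with h3 | h3
        · exact absurd h3 (h1 p hp)
        · exact h3
      refine ⟨q0 0, b, fun p hp => Or.inr (h4 p hp), ⟨hmin2 0 q0 hq0, hmax2 0 q0 hq0⟩, ?_⟩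
      rw [← h4 q0 hq0]
      exact ⟨hmin2 1 q0 hq0, hmax2 1 q0 hq0⟩
  set u : ℕ := (pmax 0 0 - pmin 0 0).toNat with hu
  set v : ℕ := (pmax 1 1 - pmin 1 1).toNat with hv
  have hupper : ∀ n, mm Q (fun _ => n) ≤ (u + v) * n := by
    intro n
    have h1 := cross_upper (Q := Q) (a := a') (b := b') (α := (a' - pmin 0 0).toNat)
      (β := (pmax 0 0 - a').toNat) (γ := (b' - pmin 1 1).toNat) (δ := (pmax 1 1 - b').toNat)
      (fun p hp => by
        have e1 := hmin2 0 p hp
        have e2 := hmax2 0 p hp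
        have e3 := hmin2 1 p hp
        have e4 := hmax2 1 p hp
        rcases hc p hp with h2 | h2
        · right
          omega
        · left
          omega) n
    have h3 : (a' - pmin 0 0).toNat + (pmax 0 0 - a').toNat +
        ((b' - pmin 1 1).toNat + (pmax 1 1 - b').toNat) = u + v := by omega
    rwa [h3] at h1
  have hlower : ∀ n, n ^ 2 - (n - u) * (n - v) ≤ mm Q (fun _ => n) := by
    intro n
    have h1 := lower_box hq0 (fun l => (q0 l - pmin l l).toNat) (fun l => (pmax l l - q0 l).toNat)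
      (fun l => ⟨pmin l, hmin1 l, by
        have := hmin2 l q0 hq0
        omega⟩)
      (fun l => ⟨pmax l, hmax1 l, by
        have := hmax2 l q0 hq0
        omega⟩) n
    rw [Fin.prod_univ_two] at h1
    have e1 := hmin2 0 q0 hq0
    have e2 := hmax2 0 q0 hq0
    have e3 := hmin2 1 q0 hq0
    have e4 := hmax2 1 q0 hq0
    have h3 : (q0 0 - pmin 0 0).toNat + (pmax 0 0 - q0 0).toNat = u := by omega
    have h4 : (q0 1 - pmin 1 1).toNat + (pmax 1 1 - q0 1).toNat = v := by omega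
    rwa [h3, h4] at h1
  refine ⟨(u : ℝ) + v, ?_⟩
  have hlim : Tendsto (fun n : ℕ => ((u : ℝ) + v) - (u * v : ℝ) / n) atTop (𝓝 ((u : ℝ) + v)) := by
    have := (tendsto_const_nhds (x := (u : ℝ) + v)).sub
      (tendsto_const_div_atTop_nhds_zero_nat ((u : ℝ) * v))
    simpa using this
  refine tendsto_of_tendsto_of_tendsto_of_le_of_le' hlim tendsto_const_nhds ?_ ?_
  · filter_upwards [eventually_ge_atTop (u + v + 1)] with n hn
    have hn' : (0 : ℝ) < n := by
      have : 0 < n := by omega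
      exact_mod_cast this
    rw [le_div_iff₀ hn', sub_mul, div_mul_cancel₀ _ hn'.ne']
    have h1 := hlower n
    have h2 : (n - u) * (n - v) ≤ n ^ 2 := by
      rw [pow_two]
      exact Nat.mul_le_mul (Nat.sub_le _ _) (Nat.sub_le _ _)
    have h3 : ((n ^ 2 - (n - u) * (n - v) : ℕ) : ℝ) ≤ mm Q (fun _ => n) := by exact_mod_cast h1
    rw [Nat.cast_sub h2, Nat.cast_mul, Nat.cast_sub (by omega), Nat.cast_sub (by omega)] at h3
    push_cast at h3
    nlinarith
  · filter_upwards [eventually_ge_atTop 1] with n hn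
    have hn' : (0 : ℝ) < n := by exact_mod_cast hn
    rw [div_le_iff₀ hn']
    exact_mod_cast hupper n

theorem conv_caseA {Q : Finset (Fin 2 → ℤ)} (hQ : Q.Nonempty) (hcor : (corners Q).card ≤ 2)
    {L L' : (Fin 2 → ℤ) → Prop} (h : Split Q L) (h' : SkewSplit Q L')
    (hA : ∀ p ∈ Q, L p → ¬ L' p) : Conv Q := by
  classical
  obtain ⟨p1, hp1, hLp1⟩ := h.low
  obtain ⟨c1, hc1, hLc1⟩ := h'.low
  have hL'p1 : ¬ L' p1 := hA p1 hp1 hLp1
  have hLc1' : ¬ L c1 := fun hl => hA c1 hc1 hl hLc1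
  have hBC : ∀ b ∈ Q, L b → ∀ c ∈ Q, L' c → b 0 = c 0 := by
    intro b hb hLb c hc hLc
    have e1 := h.le b hb c hc hLb (fun hl => hA c hc hl hLc)
    have e2 := h'.le c hc b hb hLc (hA b hb hLb)
    omega
  set a := c1 0 with ha
  have hcol : ∀ q ∈ Q, (L q ∨ L' q) → q 0 = a := by
    intro q hq hor
    rcases hor with hl | hl
    · exact hBC q hq hl c1 hc1 hLc1
    · rw [← hBC p1 hp1 hLp1 q hq hl]
      exact hBC p1 hp1 hLp1 c1 hc1 hLc1
  have hle : ∀ q ∈ Q, a ≤ q 0 := by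
    intro q hq
    by_cases hl : L q
    · exact (hcol q hq (Or.inl hl)).ge
    · have := (h.le p1 hp1 q hq hLp1 hl).1
      rw [hcol p1 hp1 (Or.inl hLp1)] at this
      exact this
  obtain ⟨sw, hsw, hswmin⟩ := Finset.exists_min_image (Q.filter L) (fun p => p 1)
    ⟨p1, Finset.mem_filter.2 ⟨hp1, hLp1⟩⟩
  obtain ⟨nw, hnw, hnwmax⟩ := Finset.exists_max_image (Q.filter L') (fun p => p 1)
    ⟨c1, Finset.mem_filter.2 ⟨hc1, hLc1⟩⟩
  obtain ⟨hswQ, hswL⟩ := Finset.mem_filter.1 hsw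
  obtain ⟨hnwQ, hnwL⟩ := Finset.mem_filter.1 hnw
  have hsw1 : ∀ q ∈ Q, sw 1 ≤ q 1 := by
    intro q hq
    by_cases hl : L q
    · exact hswmin q (Finset.mem_filter.2 ⟨hq, hl⟩)
    · exact (h.le sw hswQ q hq hswL hl).2
  have hnw1 : ∀ q ∈ Q, q 1 ≤ nw 1 := by
    intro q hq
    by_cases hl : L' q
    · exact hnwmax q (Finset.mem_filter.2 ⟨hq, hl⟩)
    · exact (h'.le nw hnwQ q hq hnwL hl).2
  have hsw0 : sw 0 = a := hcol sw hswQ (Or.inl hswL)
  have hnw0 : nw 0 = a := hcol nw hnwQ (Or.inr hnwL)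
  have hne : sw ≠ nw := by
    intro heq
    rw [heq] at hswL
    exact hA nw hnwQ hswL hnwL
  have hlt : sw 1 < nw 1 := by
    have e1 := hsw1 nw hnwQ
    rcases e1.lt_or_eq with e2 | e2
    · exact e2
    · exact absurd (ext2 (hsw0.trans hnw0.symm) e2) hne
  obtain ⟨r, hr, hrmax⟩ := Finset.exists_max_image Q (fun p => p 0) hQ
  by_cases hra : r 0 = a
  · refine conv_cross hQ (a := a) (b := 0) (fun p hp => Or.inl ?_)
    have e1 := hle p hp
    have e2 := hrmax p hp
    omega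
  · have hra' : a < r 0 := lt_of_le_of_ne (hle r hr) (Ne.symm hra)
    have hright : ∀ q ∈ Q, q 0 = r 0 → q 1 ≠ sw 1 ∧ q 1 ≠ nw 1 := by
      intro q hq hq0
      have key : q ∈ corners Q → False := by
        intro hqc
        have hsc : sw ∈ corners Q := by
          rw [mem_corners]
          refine ⟨hswQ, fun l => Or.inl ?_⟩
          rcases fin2_cases l with rfl | rfl
          · rw [hsw0]; exact hle
          · exact hsw1
        have hnc : nw ∈ corners Q := by
          rw [mem_corners]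
          refine ⟨hnwQ, fun l => ?_⟩
          rcases fin2_cases l with rfl | rfl
          · left; rw [hnw0]; exact hle
          · right; exact hnw1
        have hcard : ({sw, nw, q} : Finset (Fin 2 → ℤ)).card = 3 := by
          rw [Finset.card_eq_three]
          refine ⟨sw, nw, q, hne, ?_, ?_, rfl⟩
          · intro heq
            rw [← heq, hsw0] at hq0
            exact hra hq0.symm
          · intro heq
            rw [← heq, hnw0] at hq0
            exact hra hq0.symm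
        have hsub : ({sw, nw, q} : Finset (Fin 2 → ℤ)) ⊆ corners Q := by
          intro x hx
          simp only [Finset.mem_insert, Finset.mem_singleton] at hx
          rcases hx with rfl | rfl | rfl
          · exact hsc
          · exact hnc
          · exact hqc
        have := Finset.card_le_card hsub
        omega
      constructor
      · intro hq1
        apply key
        rw [mem_corners]
        refine ⟨hq, fun l => ?_⟩
        rcases fin2_cases l with rfl | rfl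
        · right; intro x hx; rw [hq0]; exact hrmax x hx
        · left; intro x hx; rw [hq1]; exact hsw1 x hx
      · intro hq1
        apply key
        rw [mem_corners]
        refine ⟨hq, fun l => ?_⟩
        rcases fin2_cases l with rfl | rfl
        · right; intro x hx; rw [hq0]; exact hrmax x hx
        · right; intro x hx; rw [hq1]; exact hnw1 x hx
    set t : Fin 2 → ℤ := ![-a, -sw 1] with ht
    have ht0 : ∀ x : Fin 2 → ℤ, (x - t) 0 = x 0 + a := by
      intro x
      simp [ht]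
    have ht1 : ∀ x : Fin 2 → ℤ, (x - t) 1 = x 1 + sw 1 := by
      intro x
      simp [ht]
    have hmemt : ∀ x ∈ Q, x + t ∈ shift t Q := by
      intro x hx
      rw [mem_shift]
      simpa using hx
    have ht0' : ∀ x : Fin 2 → ℤ, (x + t) 0 = x 0 - a := by
      intro x
      simp [ht]
      ring
    have ht1' : ∀ x : Fin 2 → ℤ, (x + t) 1 = x 1 - sw 1 := by
      intro x
      simp [ht]
      ring
    apply Conv.of_shift (t := t)
    apply conv_leftPair (w := (r 0 - a + 1).toNat) (h := (nw 1 - sw 1 + 1).toNat)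
    refine ⟨fun q hq => ?_, ⟨sw + t, hmemt sw hswQ, ?_, ?_⟩, ⟨nw + t, hmemt nw hnwQ, ?_, ?_⟩,
      ⟨r + t, hmemt r hr, ?_⟩, fun q hq hq0 => ?_⟩
    · have h1 := mem_shift.1 hq
      have e1 := hle _ h1
      have e2 := hrmax _ h1
      have e3 := hsw1 _ h1
      have e4 := hnw1 _ h1
      rw [ht0] at e1 e2
      rw [ht1] at e3 e4
      omega
    · rw [ht0']; omega
    · rw [ht1']; omega
    · rw [ht0']; omega
    · rw [ht1']; omega
    · rw [ht0']; omega
    · have h1 := mem_shift.1 hq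
      have e1 := hright _ h1 (by rw [ht0]; omega)
      rw [ht1] at e1
      omega

theorem split_flip0 {Q : Finset (Fin 2 → ℤ)} {L : (Fin 2 → ℤ) → Prop} (h : Split Q L) :
    SkewSplit (Q.image flip0) (fun p => ¬ L (flip0 p)) := by
  refine ⟨?_, ?_, fun p hp q hq hLp hLq => ?_⟩
  · obtain ⟨p, hp, hL⟩ := h.up
    exact ⟨flip0 p, Finset.mem_image_of_mem _ hp, by rwa [isSym_flip0.inv]⟩
  · obtain ⟨p, hp, hL⟩ := h.low
    exact ⟨flip0 p, Finset.mem_image_of_mem _ hp, by rw [isSym_flip0.inv]; exact not_not.2 hL⟩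
  · have := h.le _ (isSym_flip0.mem_image.1 hq) _ (isSym_flip0.mem_image.1 hp) (not_not.1 hLq) hLp
    simp only [flip0_zero, flip0_one] at this
    omega

theorem skewSplit_flip0 {Q : Finset (Fin 2 → ℤ)} {L : (Fin 2 → ℤ) → Prop} (h : SkewSplit Q L) :
    Split (Q.image flip0) (fun p => ¬ L (flip0 p)) := by
  refine ⟨?_, ?_, fun p hp q hq hLp hLq => ?_⟩
  · obtain ⟨p, hp, hL⟩ := h.up
    exact ⟨flip0 p, Finset.mem_image_of_mem _ hp, by rwa [isSym_flip0.inv]⟩
  · obtain ⟨p, hp, hL⟩ := h.low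
    exact ⟨flip0 p, Finset.mem_image_of_mem _ hp, by rw [isSym_flip0.inv]; exact not_not.2 hL⟩
  · have := h.le _ (isSym_flip0.mem_image.1 hq) _ (isSym_flip0.mem_image.1 hp) (not_not.1 hLq) hLp
    simp only [flip0_zero, flip0_one] at this
    omega

theorem split_swap {Q : Finset (Fin 2 → ℤ)} {L : (Fin 2 → ℤ) → Prop} (h : Split Q L) :
    Split (Q.image swap01) (fun p => L (swap01 p)) := by
  refine ⟨?_, ?_, fun p hp q hq hLp hLq => ?_⟩
  · obtain ⟨p, hp, hL⟩ := h.low
    exact ⟨swap01 p, Finset.mem_image_of_mem _ hp, by rwa [isSym_swap01.inv]⟩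
  · obtain ⟨p, hp, hL⟩ := h.up
    exact ⟨swap01 p, Finset.mem_image_of_mem _ hp, by rwa [isSym_swap01.inv]⟩
  · have := h.le _ (isSym_swap01.mem_image.1 hp) _ (isSym_swap01.mem_image.1 hq) hLp hLq
    simp only [swap01_zero, swap01_one] at this
    omega

theorem skewSplit_swap {Q : Finset (Fin 2 → ℤ)} {L : (Fin 2 → ℤ) → Prop} (h : SkewSplit Q L) :
    SkewSplit (Q.image swap01) (fun p => ¬ L (swap01 p)) := by
  refine ⟨?_, ?_, fun p hp q hq hLp hLq => ?_⟩
  · obtain ⟨p, hp, hL⟩ := h.up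
    exact ⟨swap01 p, Finset.mem_image_of_mem _ hp, by rwa [isSym_swap01.inv]⟩
  · obtain ⟨p, hp, hL⟩ := h.low
    exact ⟨swap01 p, Finset.mem_image_of_mem _ hp, by rw [isSym_swap01.inv]; exact not_not.2 hL⟩
  · have := h.le _ (isSym_swap01.mem_image.1 hq) _ (isSym_swap01.mem_image.1 hp)
      (not_not.1 hLq) hLp
    simp only [swap01_zero, swap01_one] at this
    omega

theorem split_flip1 {Q : Finset (Fin 2 → ℤ)} {L : (Fin 2 → ℤ) → Prop} (h : Split Q L) :
    SkewSplit (Q.image flip1) (fun p => L (flip1 p)) := by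
  refine ⟨?_, ?_, fun p hp q hq hLp hLq => ?_⟩
  · obtain ⟨p, hp, hL⟩ := h.low
    exact ⟨flip1 p, Finset.mem_image_of_mem _ hp, by rwa [isSym_flip1.inv]⟩
  · obtain ⟨p, hp, hL⟩ := h.up
    exact ⟨flip1 p, Finset.mem_image_of_mem _ hp, by rwa [isSym_flip1.inv]⟩
  · have := h.le _ (isSym_flip1.mem_image.1 hp) _ (isSym_flip1.mem_image.1 hq) hLp hLq
    simp only [flip1_zero, flip1_one] at this
    omega

theorem skewSplit_flip1 {Q : Finset (Fin 2 → ℤ)} {L : (Fin 2 → ℤ) → Prop} (h : SkewSplit Q L) :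
    Split (Q.image flip1) (fun p => L (flip1 p)) := by
  refine ⟨?_, ?_, fun p hp q hq hLp hLq => ?_⟩
  · obtain ⟨p, hp, hL⟩ := h.low
    exact ⟨flip1 p, Finset.mem_image_of_mem _ hp, by rwa [isSym_flip1.inv]⟩
  · obtain ⟨p, hp, hL⟩ := h.up
    exact ⟨flip1 p, Finset.mem_image_of_mem _ hp, by rwa [isSym_flip1.inv]⟩
  · have := h.le _ (isSym_flip1.mem_image.1 hp) _ (isSym_flip1.mem_image.1 hq) hLp hLq
    simp only [flip1_zero, flip1_one] at this
    omega

theorem conv_caseD {Q : Finset (Fin 2 → ℤ)} (hQ : Q.Nonempty) (hcor : (corners Q).card ≤ 2)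
    {L L' : (Fin 2 → ℤ) → Prop} (h : Split Q L) (h' : SkewSplit Q L')
    (hD : ∀ p ∈ Q, ¬ L p → L' p) : Conv Q := by
  refine Conv.of_sym isSym_flip0 hQ ?_
  refine conv_caseA (hQ.image _) (by rwa [isSym_flip0.corners_eq]) (skewSplit_flip0 h')
    (split_flip0 h) ?_
  intro p hp h1 h2
  exact h1 (hD _ (isSym_flip0.mem_image.1 hp) h2)

theorem conv_caseB {Q : Finset (Fin 2 → ℤ)} (hQ : Q.Nonempty) (hcor : (corners Q).card ≤ 2)
    {L L' : (Fin 2 → ℤ) → Prop} (h : Split Q L) (h' : SkewSplit Q L')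
    (hB : ∀ p ∈ Q, L p → L' p) : Conv Q := by
  refine Conv.of_sym isSym_swap01 hQ ?_
  refine conv_caseA (hQ.image _) (by rwa [isSym_swap01.corners_eq]) (split_swap h)
    (skewSplit_swap h') ?_
  intro p hp h1 h2
  exact h2 (hB _ (isSym_swap01.mem_image.1 hp) h1)

theorem conv_caseC {Q : Finset (Fin 2 → ℤ)} (hQ : Q.Nonempty) (hcor : (corners Q).card ≤ 2)
    {L L' : (Fin 2 → ℤ) → Prop} (h : Split Q L) (h' : SkewSplit Q L')
    (hC : ∀ p ∈ Q, L' p → L p) : Conv Q := by
  refine Conv.of_sym isSym_flip1 hQ ?_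
  refine conv_caseB (hQ.image _) (by rwa [isSym_flip1.corners_eq]) (skewSplit_flip1 h')
    (split_flip1 h) ?_
  intro p hp h1
  exact hC _ (isSym_flip1.mem_image.1 hp) h1

/-- The main theorem in the model. -/
theorem conv_two {Q : Finset (Fin 2 → ℤ)} (hQ : Q.Nonempty) (hcor : (corners Q).card ≤ 2) :
    Conv Q := by
  by_cases hs : ∃ L, Split Q L
  swap
  · push Not at hs
    exact conv_of_not_split hQ hs
  by_cases hs' : ∃ L, SkewSplit Q L
  swap
  · push Not at hs'
    exact conv_of_not_skewSplit hQ hs'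
  obtain ⟨L, h⟩ := hs
  obtain ⟨L', h'⟩ := hs'
  by_cases hA : ∃ p ∈ Q, L p ∧ L' p
  swap
  · push Not at hA
    exact conv_caseA hQ hcor h h' hA
  by_cases hD : ∃ p ∈ Q, ¬ L p ∧ ¬ L' p
  swap
  · push Not at hD
    exact conv_caseD hQ hcor h h' hD
  by_cases hB : ∃ p ∈ Q, L p ∧ ¬ L' p
  swap
  · push Not at hB
    exact conv_caseB hQ hcor h h' hB
  by_cases hC : ∃ p ∈ Q, ¬ L p ∧ L' p
  swap
  · push Not at hC
    refine conv_caseC hQ hcor h h' (fun p hp h1 => ?_)
    by_contra h2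
    exact hC p hp h2 h1
  obtain ⟨pa, hpa, hpaL, hpaL'⟩ := hA
  obtain ⟨pd, hpd, hpdL, hpdL'⟩ := hD
  obtain ⟨pb, hpb, hpbL, hpbL'⟩ := hB
  obtain ⟨pc, hpc, hpcL, hpcL'⟩ := hC
  refine conv_cross hQ (a := pb 0) (b := pa 1) (fun p hp => ?_)
  by_cases hpL : L p
  · by_cases hpL' : L' p
    · -- `p` in the first class: same row as `pd`
      right
      have e1 := h.le p hp pd hpd hpL hpdL
      have e2 := h'.le p hp pd hpd hpL' hpdL'
      have e3 := h.le pa hpa pd hpd hpaL hpdL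
      have e4 := h'.le pa hpa pd hpd hpaL' hpdL'
      omega
    · left
      have e1 := h.le p hp pc hpc hpL hpcL
      have e2 := h'.le pc hpc p hp hpcL' hpL'
      have e3 := h.le pb hpb pc hpc hpbL hpcL
      have e4 := h'.le pc hpc pb hpb hpcL' hpbL'
      omega
  · by_cases hpL' : L' p
    · left
      have e1 := h.le pb hpb p hp hpbL hpL
      have e2 := h'.le p hp pb hpb hpL' hpbL'
      omega
    · right
      have e1 := h.le pa hpa p hp hpaL hpL
      have e2 := h'.le pa hpa p hp hpaL' hpL'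
      omega

end Pool.Agent.Lib.MPb1c185
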